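import Pool.Agent.K6.H88.TC.SelT

/-!
# The uniform theorem for all 2-extensions and all twists

Helper88 (project TC).
-/

set_option autoImplicit false
set_option linter.all false

open Polynomial IsDedekindDomain WeierstrassCurve WeierstrassCurve.Affine NumberField
open Pool.Agent.TH115.GD
open scoped Classical IntermediateField

namespace Pool.Agent.K6.H88.TC

open Pool.Agent.N922.PQ
open Pool.Agent.N874.PP (Tup chA chB gq tau Two Ev Sq1 U0 sW IsBeta Rt)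
open Pool.Agent.N874.PM (PLoc Lies SelR ShaR)
open Pool.Agent.K6.H88.TW (RkZero rkZero_of Adm)

/-- `X ^ 3 + A X + B` has no zero modulo `P`. -/
def NZ (A B P : ℤ) : Prop := ∀ z : ℤ, ¬ P ∣ z ^ 3 + A * z + B

/-- The class of extensions. -/
structure InCls (N : ℕ) (S : Finset ℤ) (A B : ℤ) (M : Type) [Field M] [NumberField M] : Prop where
  gal : IsGalois ℚ M
  deg : ∃ n : ℕ, Module.finrank ℚ M = 2 ^ n
  two : Unr M 2
  spl : ∀ Q ∈ S, Spl M Q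
  ram : ∀ P : ℤ, IsPr P → ¬ Unr M P → P ≤ N ∨ NZ A B P

theorem nz_down {a b D P : ℤ} (h : NZ (a * D ^ 2) (b * D ^ 3) P) : NZ a b P := by
  intro z hz
  apply h (z * D)
  have e : (z * D) ^ 3 + a * D ^ 2 * (z * D) + b * D ^ 3 = (z ^ 3 + a * z + b) * D ^ 3 := by ring
  rw [e]
  exact hz.mul_right _

theorem nz_up {a b D P : ℤ} (hP : Prime P) (hPD : ¬ P ∣ D) (h : NZ a b P) :
    NZ (a * D ^ 2) (b * D ^ 3) P := by
  intro z hz
  obtain ⟨u, v, huv⟩ := (hP.irreducible.coprime_iff_not_dvd).2 hPD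
  apply h (z * v)
  have e : (z * v) ^ 3 + a * (z * v) + b = v ^ 3 * (z ^ 3 + a * D ^ 2 * z + b * D ^ 3) +
      P * u * (a * z * v * (1 + v * D) + b * (1 + v * D + (v * D) ^ 2)) := by
    have h1 : v * D = 1 - u * P := by linear_combination huv
    linear_combination (-(a * z * v * (1 + v * D)) - b * (1 + v * D + (v * D) ^ 2)) * h1
  rw [e]
  exact dvd_add (hz.mul_left _) (Dvd.intro _ (by ring : P * (u * (a * z * v * (1 + v * D) +
    b * (1 + v * D + (v * D) ^ 2))) = _))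

/-- What is true for the twist by `d` of a good curve over an extension in the class. -/
structure GoodE (M : Type) [Field M] [NumberField M] (A B : ℤ) (d : ℤ) : Prop where
  rk : RkZero (M := M) (𝓞 M) (((A * d ^ 2 : ℤ)) : M) (((B * d ^ 3 : ℤ)) : M)
  one : d % 4 = 1 → Subsingleton (Pt (sW (((A * d ^ 2 : ℤ)) : M) (((B * d ^ 3 : ℤ)) : M)) M)

theorem goodE_of (M : Type) [Field M] [NumberField M] (hur2 : Unr M 2) {a b d D : ℤ}
    (ha3 : a % 4 = 3) (hb3 : b % 4 = 3) (hD8 : D % 8 = 1) (hd : d ≠ 0) (hdsc : dsc a b ≠ 0)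
    (h : SelR (𝓞 M) (sW (((a * (d * D) ^ 2 : ℤ)) : M) (((b * (d * D) ^ 3 : ℤ)) : M))) :
    GoodE M (a * D ^ 2) (b * D ^ 3) d := by
  have e1 : a * (d * D) ^ 2 = a * D ^ 2 * d ^ 2 := by ring
  have e2 : b * (d * D) ^ 3 = b * D ^ 3 * d ^ 3 := by ring
  have hD0 : D ≠ 0 := by
    rintro rfl
    norm_num at hD8
  have hdisc : 4 * (((a * D ^ 2 * d ^ 2 : ℤ)) : M) ^ 3 +
      27 * (((b * D ^ 3 * d ^ 3 : ℤ)) : M) ^ 2 ≠ 0 := by
    have e : 4 * (((a * D ^ 2 * d ^ 2 : ℤ)) : M) ^ 3 +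
      27 * (((b * D ^ 3 * d ^ 3 : ℤ)) : M) ^ 2 = (((d * D) ^ 6 * dsc a b : ℤ) : M) := by
      simp only [dsc]
      push_cast
      ring
    rw [e, Int.cast_ne_zero]
    exact mul_ne_zero (pow_ne_zero _ (mul_ne_zero hd hD0)) hdsc
  rw [e1, e2] at h
  have hrk := rkZero_of (𝓞 M) hdisc h
  refine ⟨hrk, fun hd4 => ?_⟩
  obtain ⟨w₀, hw₀⟩ := exists_over (𝓞 M)
  obtain ⟨-, hfin, hodd, -⟩ := hrk
  have hv : w₀.valuation M 2 = WithZero.exp (-1 : ℤ) := by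
    have h1 := hur2 w₀ hw₀
    have e : (((2 : ℤ)) : M) = 2 := by norm_num
    rw [e] at h1
    exact h1
  obtain ⟨k, hk⟩ : ∃ k, D = 8 * k + 1 := ⟨D / 8, by omega⟩
  obtain ⟨l, hl⟩ : ∃ l, d = 4 * l + 1 := ⟨d / 4, by omega⟩
  obtain ⟨i, hi⟩ : ∃ i, a = b + 4 * i := ⟨(a - b) / 4, by omega⟩
  refine Pool.Agent.N137.PV.tor M (𝓞 M) w₀ hv _ _ ?_ ?_ hfin hodd
  · have hao : Odd a := Int.odd_iff.2 (by omega)
    have hDo : Odd D := Int.odd_iff.2 (by omega)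
    have hdo : Odd d := Int.odd_iff.2 (by omega)
    exact (hao.mul hDo.pow).mul hdo.pow
  · have e : a * D ^ 2 * d ^ 2 - b * D ^ 3 * d ^ 3 = 4 * (i * D ^ 2 * d ^ 2) -
        b * D ^ 2 * d ^ 2 * (D * d - 1) := by
      rw [hi]
      ring
    have e' : D * d - 1 = 4 * (2 * k * d + l) := by
      rw [hk, hl]
      ring
    rw [e, e']
    exact ⟨i * D ^ 2 * d ^ 2 - b * D ^ 2 * d ^ 2 * (2 * k * d + l), by ring⟩

/-- All prime factors `P` of `d` are at most `N`, or `X ^ 3 + A X + B` has no zero modulo `P`. -/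
theorem adm_nz {a b D d : ℤ} {N : ℕ} (hN : ∀ P : ℤ, IsPr P → P ≤ N → NZ a b P)
    (h : Adm N (a * D ^ 2) (b * D ^ 3) d) : ∀ P : ℤ, IsPr P → P ∣ d → NZ a b P := by
  intro P hP hPd
  rcases h.2 P hP hPd with h1 | h1
  · exact hN P hP h1
  · exact nz_down h1

/-- The uniform theorem. -/
theorem mainD (N : ℕ) (K : Type) [Field K] [NumberField K] [IsGalois ℚ K] :
    ∃ S : Finset ℤ, (∀ Q ∈ S, IsPr Q ∧ Q % 8 = 1) ∧ (∀ Q ∈ S, Spl K Q) ∧
      ∃ c : ℝ, 0 < c ∧ ∃ H₀ : ℕ, ∀ H ≥ H₀, {p : ℤ × ℤ | Crv H p.1 p.2}.Finite ∧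
        c * ({p : ℤ × ℤ | Crv H p.1 p.2}.ncard : ℝ) ≤
          ({p : ℤ × ℤ | Crv H p.1 p.2 ∧ ((∀ P : ℤ, IsPr P → ¬ Unr K P → NZ p.1 p.2 P) ∧
            (∀ P : ℤ, IsPr P → P ≤ N → NZ p.1 p.2 P) ∧
            (∀ t : ℚ, t ^ 3 + (p.1 : ℚ) * t + (p.2 : ℚ) ≠ 0) ∧
            ∀ (M : Type) [Field M] [NumberField M], InCls N S p.1 p.2 M →
              ∀ d : ℤ, (d % 4 = 1 ∨ d % 4 = 2) → Adm N p.1 p.2 d →
                GoodE M p.1 p.2 d)}.ncard : ℝ) := by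
  obtain ⟨κ, S, T, s, A, B, hLB, hS, hT, hdis, hNT, hKT, hKS, hmain⟩ := mainC N K
  refine ⟨S, fun Q hQ => ⟨(hS Q hQ).1, (hS Q hQ).2.1⟩, hKS, hmain _ ?_⟩
  intro X' a b hF ha3 hb3 hnb
  have H : Parts2 := parts2
  have ha : Odd a := Int.odd_iff.2 (by omega)
  have hb : Odd b := Int.odd_iff.2 (by omega)
  obtain ⟨L, i1, i2, θ, hc, hu, J, hJ, hsel⟩ := exists_base H hLB hS hF hnb hT
  have hD8 : (∏ Q ∈ J, Q) % 8 = 1 := prod_mod8 fun Q hQ => (hS Q (hJ hQ)).2.1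
  have hT1 : ∀ P ∈ T, NZ (a * (∏ Q ∈ J, Q) ^ 2) (b * (∏ Q ∈ J, Q) ^ 3) P := by
    intro P hPT
    refine nz_up (hT.2.2 P hPT).1.2 ?_ (fam_nt hT hF hPT)
    intro hd
    obtain ⟨Q, hQ, hPQ⟩ := (hT.2.2 P hPT).1.2.exists_mem_finset_dvd hd
    have h1 : Associated P Q := ((hT.2.2 P hPT).1.2.associated_of_dvd (hS Q (hJ hQ)).1.2 hPQ)
    have h2 : P = Q := by
      rcases Int.associated_iff.1 h1 with h | h
      · exact h
      · have := (hT.2.2 P hPT).1.1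
        have := (hS Q (hJ hQ)).1.1
        omega
    exact Finset.disjoint_left.1 hdis (hJ hQ) (h2 ▸ hPT)
  refine ⟨J, hJ, fun P hP hu => hT1 P (hKT P hP hu), fun P hP hPN => hT1 P (hNT P hP hPN),
    fun t ht => ?_, ?_⟩
  · have h1 := no_root_tw' (F := ℚ) (a := a) (b := b) (fun t ht => ?_) (D := ∏ Q ∈ J, Q)
      (by intro h0; rw [h0] at hD8; norm_num at hD8) t
    · exact h1 ht
    · refine no_root2 (fam_nt hT hF hT.1) (t : ℚ_[2]) ?_
      exact_mod_cast congrArg (fun x : ℚ => (x : ℚ_[2])) ht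
  intro M _ _ hM d hd hadm
  haveI := hM.gal
  obtain ⟨n, hn⟩ := hM.deg
  have hN : ∀ P : ℤ, IsPr P → P ≤ N → NZ a b P := fun P hP h => fam_nt hT hF (hNT P hP h)
  have h1 := selT3 H Pool.Agent.N40.PQ.gen hS hF ha3 hb3 hT hdis hc hu hJ hsel M hn hM.two hM.spl
    (fun P hP h => by
      rcases hM.ram P hP h with h2 | h2
      · exact hN P hP h2
      · exact nz_down h2) hd (adm_nz hN hadm)
  exact goodE_of M hM.two ha3 hb3 hD8 hadm.1 hF.sq.ne_zero h1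

end Pool.Agent.K6.H88.TC
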