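import Pool.Agent.K6.H88.TC.SelSub
import Pool.Agent.K6.H88.TC.Fin

/-!
# The uniform theorem for wildly ramified 2-extensions and their subfields

Helper88 (project TC).
-/

set_option autoImplicit false
set_option linter.all false

open Polynomial IsDedekindDomain WeierstrassCurve WeierstrassCurve.Affine NumberField
open Pool.Agent.TH115.GD
open scoped Classical IntermediateField

namespace Pool.Agent.K6.H88.TC

open Pool.Agent.N922.PQ
open Pool.Agent.N874.PP (Tup chA chB gq tau Two Ev Sq1 U0 sW IsBeta Rt)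
open Pool.Agent.N874.PM (PLoc Lies SelR ShaR)
open Pool.Agent.K6.H88.TW (RkZero rkZero_of Adm)

/-! ### Subfields -/

section sub

variable {F M : Type} [Field F] [NumberField F] [Field M] [NumberField M]

theorem exists_above (i : F →+* M) (v : HeightOneSpectrum (𝓞 F)) :
    ∃ (w : HeightOneSpectrum (𝓞 M)) (f : 𝓞 F →+* 𝓞 M), (∀ x, ((f x : 𝓞 M) : M) = i (x : F)) ∧
      (∀ x, f x ∈ w.asIdeal ↔ x ∈ v.asIdeal) ∧ ∀ x, x ∈ v.asIdeal ^ 2 → f x ∈ w.asIdeal ^ 2 := by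
  letI : Algebra F M := i.toAlgebra
  obtain ⟨Q, -, hQ, hQ2⟩ := Ideal.exists_ideal_over_prime_of_isIntegral (S := 𝓞 M) v.asIdeal ⊥ (by
    intro x hx
    rw [Ideal.mem_comap, Ideal.mem_bot] at hx
    have h1 : x = 0 := by
      have h2 : Function.Injective (algebraMap (𝓞 F) (𝓞 M)) :=
        FaithfulSMul.algebraMap_injective (𝓞 F) (𝓞 M)
      exact h2 (by rw [hx, map_zero])
    rw [h1]
    exact Ideal.zero_mem _)
  have hne : Q ≠ ⊥ := by
    rintro rfl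
    obtain ⟨x, hx, hx0⟩ := Submodule.exists_mem_ne_zero_of_ne_bot v.ne_bot
    rw [← hQ2, Ideal.mem_comap, Ideal.mem_bot] at hx
    have h2 : Function.Injective (algebraMap (𝓞 F) (𝓞 M)) :=
      FaithfulSMul.algebraMap_injective (𝓞 F) (𝓞 M)
    exact hx0 (h2 (by rw [hx, map_zero]))
  refine ⟨⟨Q, hQ, hne⟩, algebraMap (𝓞 F) (𝓞 M), fun x => rfl, fun x => ?_, fun x hx => ?_⟩
  · change algebraMap (𝓞 F) (𝓞 M) x ∈ Q ↔ _
    rw [← Ideal.mem_comap, hQ2]
  · have h1 : Ideal.map (algebraMap (𝓞 F) (𝓞 M)) v.asIdeal ≤ Q := by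
      rw [Ideal.map_le_iff_le_comap, hQ2]
    have h2 := Ideal.pow_right_mono h1 2
    apply h2
    rw [← Ideal.map_pow]
    exact Ideal.mem_map_of_mem _ hx

theorem ov_above {i : F →+* M} {v : HeightOneSpectrum (𝓞 F)} {w : HeightOneSpectrum (𝓞 M)}
    {f : 𝓞 F →+* 𝓞 M} (h : ∀ x, f x ∈ w.asIdeal ↔ x ∈ v.asIdeal) (P : ℤ) : Ov P w ↔ Ov P v := by
  unfold Ov
  have h1 := h ((P : ℤ) : 𝓞 F)
  rw [map_intCast] at h1
  simpa using h1

theorem sub_unr (i : F →+* M) {P : ℤ} (hP : P ≠ 0) (h : Unr M P) : Unr F P := by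
  intro v hv
  obtain ⟨w, f, hf, h1, h2⟩ := exists_above i v
  have hw : Ov P w := (ov_above (i := i) h1 P).2 hv
  have h3 := h w hw
  have e : ∀ {K : Type} [Field K] [NumberField K] (u : HeightOneSpectrum (𝓞 K)),
      u.valuation K ((P : ℤ) : K) = u.intValuation ((P : ℤ) : 𝓞 K) := by
    intro K _ _ u
    have h4 := HeightOneSpectrum.valuation_of_algebraMap (K := K) u ((P : ℤ) : 𝓞 K)
    have h5 : (((P : ℤ) : 𝓞 K) : K) = ((P : ℤ) : K) := by
      push_cast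
      rfl
    rw [← h5]
    exact h4
  rw [e] at h3 ⊢
  have a1 : v.intValuation ((P : ℤ) : 𝓞 F) ≤ WithZero.exp (-((1 : ℕ) : ℤ)) := by
    rw [HeightOneSpectrum.intValuation_le_pow_iff_mem, pow_one]
    have := hv
    unfold Ov at this
    simpa using this
  have a2 : ¬ v.intValuation ((P : ℤ) : 𝓞 F) ≤ WithZero.exp (-((2 : ℕ) : ℤ)) := by
    rw [HeightOneSpectrum.intValuation_le_pow_iff_mem]
    intro h4
    have h5 := h2 _ h4
    rw [map_intCast] at h5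
    have h6 : w.intValuation ((P : ℤ) : 𝓞 M) ≤ WithZero.exp (-((2 : ℕ) : ℤ)) := by
      rw [HeightOneSpectrum.intValuation_le_pow_iff_mem]
      exact h5
    rw [h3, WithZero.exp_le_exp] at h6
    norm_num at h6
  have h0 : v.intValuation ((P : ℤ) : 𝓞 F) ≠ 0 := by
    intro h0
    apply a2
    rw [h0]
    exact zero_le'
  rw [← WithZero.exp_log h0] at a1 a2 ⊢
  rw [WithZero.exp_le_exp] at a1 a2
  congr 1
  push_cast at a1 a2
  omega

theorem sub_spl (i : F →+* M) {Q : ℤ} (hQ : Q ≠ 0) (h : Spl M Q) : Spl F Q := by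
  intro v hv
  refine ⟨sub_unr i hQ (fun w hw => (h w hw).1) v hv, fun x => ?_⟩
  obtain ⟨w, f, hf, h1, h2⟩ := exists_above i v
  have hw : Ov Q w := (ov_above (i := i) h1 Q).2 hv
  obtain ⟨n, hn⟩ := (h w hw).2 (f x)
  refine ⟨n, ?_⟩
  rw [← h1, map_sub, map_intCast]
  exact hn

end sub

/-- The class of extensions, which may be ramified at `2`. -/
structure InClsB (N : ℕ) (S : Finset ℤ) (A B : ℤ) (M : Type) [Field M] [NumberField M] : Prop where
  gal : IsGalois ℚ M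
  deg : ∃ n : ℕ, Module.finrank ℚ M = 2 ^ n
  spl : ∀ Q ∈ S, Spl M Q
  ram : ∀ P : ℤ, IsPr P → ¬ Unr M P → P ≤ N ∨ P = 2 ∨ NZ A B P

/-- The rank over `F` of the twist. -/
noncomputable def rkF (F : Type) [Field F] (A B d : ℤ) : ℕ :=
  Module.finrank ℤ (Pt (sW (((A * d ^ 2 : ℤ)) : F) (((B * d ^ 3 : ℤ)) : F)) F)

/-- What is true for the twist by `d` of a good curve over a subfield of an extension in the class. -/
structure GoodF (F : Type) [Field F] [NumberField F] (A B d : ℤ) : Prop where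
  sel : SelLe (𝓞 F) (sW (((A * d ^ 2 : ℤ)) : F) (((B * d ^ 3 : ℤ)) : F)) (2 ^ Module.finrank ℚ F)
  fg : AddGroup.FG (Pt (sW (((A * d ^ 2 : ℤ)) : F) (((B * d ^ 3 : ℤ)) : F)) F)
  le : rkF F A B d ≤ Module.finrank ℚ F
  grow : ∀ (F' : Type) [Field F'] [NumberField F'] (j : F' →+* F),
    rkF F A B d + Module.finrank ℚ F' ≤ rkF F' A B d + Module.finrank ℚ F
  zero : (d % 4 = 1 ∨ d % 4 = 2) → ∀ (F' : Type) [Field F'] [NumberField F'] (j : F' →+* F),
    IsGalois ℚ F' → Unr F' 2 → rkF F A B d + Module.finrank ℚ F' ≤ Module.finrank ℚ F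

/-- The uniform theorem. -/
theorem mainB (N : ℕ) (K : Type) [Field K] [NumberField K] [IsGalois ℚ K] :
    ∃ S : Finset ℤ, (∀ Q ∈ S, IsPr Q ∧ Q % 8 = 1) ∧ (∀ Q ∈ S, Spl K Q) ∧
      ∃ c : ℝ, 0 < c ∧ ∃ H₀ : ℕ, ∀ H ≥ H₀, {p : ℤ × ℤ | Crv H p.1 p.2}.Finite ∧
        c * ({p : ℤ × ℤ | Crv H p.1 p.2}.ncard : ℝ) ≤
          ({p : ℤ × ℤ | Crv H p.1 p.2 ∧ ((∀ P : ℤ, IsPr P → ¬ Unr K P → NZ p.1 p.2 P) ∧
            (∀ P : ℤ, IsPr P → P ≤ N → NZ p.1 p.2 P) ∧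
            (∀ t : ℚ, t ^ 3 + (p.1 : ℚ) * t + (p.2 : ℚ) ≠ 0) ∧
            ∀ (M : Type) [Field M] [NumberField M], InClsB N S p.1 p.2 M →
              ∀ d : ℤ, Adm N p.1 p.2 d → ∀ (F : Type) [Field F] [NumberField F], (F →+* M) →
                GoodF F p.1 p.2 d)}.ncard : ℝ) := by
  obtain ⟨κ, S, T, s, A, B, hLB, hS, hT, hdis, hNT, hKT, hKS, hmain⟩ := mainC N K
  refine ⟨S, fun Q hQ => ⟨(hS Q hQ).1, (hS Q hQ).2.1⟩, hKS, hmain _ ?_⟩
  intro X' a b hF ha3 hb3 hnb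
  have H : Parts2 := parts2
  have ha : Odd a := Int.odd_iff.2 (by omega)
  have hb : Odd b := Int.odd_iff.2 (by omega)
  obtain ⟨L, i1, i2, θ, hc, hu, J, hJ, hsel⟩ := exists_base H hLB hS hF hnb hT
  have hD8 : (∏ Q ∈ J, Q) % 8 = 1 := prod_mod8 fun Q hQ => (hS Q (hJ hQ)).2.1
  have hT1 : ∀ P ∈ T, NZ (a * (∏ Q ∈ J, Q) ^ 2) (b * (∏ Q ∈ J, Q) ^ 3) P := by
    intro P hPT
    refine nz_up (hT.2.2 P hPT).1.2 ?_ (fam_nt hT hF hPT)
    intro hd
    obtain ⟨Q, hQ, hPQ⟩ := (hT.2.2 P hPT).1.2.exists_mem_finset_dvd hd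
    have h1 : Associated P Q := ((hT.2.2 P hPT).1.2.associated_of_dvd (hS Q (hJ hQ)).1.2 hPQ)
    have h2 : P = Q := by
      rcases Int.associated_iff.1 h1 with h | h
      · exact h
      · have := (hT.2.2 P hPT).1.1
        have := (hS Q (hJ hQ)).1.1
        omega
    exact Finset.disjoint_left.1 hdis (hJ hQ) (h2 ▸ hPT)
  refine ⟨J, hJ, fun P hP hu => hT1 P (hKT P hP hu), fun P hP hPN => hT1 P (hNT P hP hPN),
    fun t ht => ?_, ?_⟩
  · have h1 := no_root_tw' (F := ℚ) (a := a) (b := b) (fun t ht => ?_) (D := ∏ Q ∈ J, Q)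
      (by intro h0; rw [h0] at hD8; norm_num at hD8) t
    · exact h1 ht
    · refine no_root2 (fam_nt hT hF hT.1) (t : ℚ_[2]) ?_
      exact_mod_cast congrArg (fun x : ℚ => (x : ℚ_[2])) ht
  intro M _ _ hM d hadm F _ _ i
  haveI := hM.gal
  obtain ⟨n, hn⟩ := hM.deg
  have hN : ∀ P : ℤ, IsPr P → P ≤ N → NZ a b P := fun P hP h => fam_nt hT hF (hNT P hP h)
  have hram : ∀ P : ℤ, IsPr P → ¬ Unr M P → NZ a b P := by
    intro P hP h
    rcases hM.ram P hP h with h2 | h2 | h2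
    · exact hN P hP h2
    · rw [h2]
      exact fam_nt hT hF hT.1
    · exact nz_down h2
  have hdP := adm_nz hN hadm
  obtain ⟨Ω, j1, j2, j3, j4, htop, hr⟩ := exists_omega hu M (nr_M H ha hb M hn)
  obtain ⟨T', hmem⟩ := exists_T Pool.Agent.N40.PQ.gen H.p.ur M hadm.1 T
  have U : SU L M Ω a b θ X' S T J T' s A B d n := by
    refine ⟨hc, hS, hF, ha3, hb3, hJ, hsel, (hmem 2).2 (Or.inl hT.1), (hmem 3).2 (Or.inl hT.2.1),
      fun P hP => ?_, fun P hP => ?_, fun P hP hPT => ?_, hM.spl, ?_, hadm.1,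
      fun P hP hPd => (hmem P).2 (Or.inr ⟨hP, Or.inr hPd⟩), hn, hr, htop⟩
    · rcases (hmem P).1 hP with h | h
      · exact (hT.2.2 P h).1
      · exact h.1
    · rcases (hmem P).1 hP with h | ⟨h, h' | h'⟩
      · exact fam_nt hT hF h
      · exact hram P h h'
      · exact hdP P h h'
    · by_contra hn
      exact hPT ((hmem P).2 (Or.inr ⟨hP, Or.inl hn⟩))
    · rw [Finset.disjoint_left]
      intro Q hQ hQT
      rcases (hmem Q).1 hQT with h | ⟨h, h' | h'⟩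
      · exact Finset.disjoint_left.1 hdis hQ h
      · exact h' fun w hw => (hM.spl Q hQ w hw).1
      · refine hdP Q h h' 0 ?_
        have := hF.rb Q hQ
        simpa using this
  have e1 : a * (d * ∏ Q ∈ J, Q) ^ 2 = a * (∏ Q ∈ J, Q) ^ 2 * d ^ 2 := by ring
  have e2 : b * (d * ∏ Q ∈ J, Q) ^ 3 = b * (∏ Q ∈ J, Q) ^ 3 * d ^ 3 := by ring
  have hgrow : ∀ (F' : Type) [Field F'] [NumberField F'] (j : F' →+* F),
      rkF F (a * (∏ Q ∈ J, Q) ^ 2) (b * (∏ Q ∈ J, Q) ^ 3) d + Module.finrank ℚ F' ≤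
      rkF F' (a * (∏ Q ∈ J, Q) ^ 2) (b * (∏ Q ∈ J, Q) ^ 3) d + Module.finrank ℚ F := by
    intro F' _ _ j
    have h1 := U.grow_sub H i j
    rw [e1, e2] at h1
    exact h1
  have hrank := U.rank_sub H i
  rw [e1, e2] at hrank
  refine ⟨?_, hrank.1, hrank.2, hgrow, fun hd F' _ _ j hgal hu2 => ?_⟩
  · have h1 := U.sel_sub H hu i
    rw [e1, e2] at h1
    exact h1
  · haveI := hgal
    have hdeg : ∃ m, Module.finrank ℚ F' = 2 ^ m := by
      letI : Algebra F' M := (i.comp j).toAlgebra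
      have h1 := Module.finrank_mul_finrank ℚ F' M
      obtain ⟨m, -, hm⟩ := (Nat.dvd_prime_pow Nat.prime_two).1
        (Dvd.intro _ (h1.trans hn) : Module.finrank ℚ F' ∣ 2 ^ n)
      exact ⟨m, hm⟩
    obtain ⟨m, hm⟩ := hdeg
    have h1 := selT3 H Pool.Agent.N40.PQ.gen hS hF ha3 hb3 hT hdis hc hu hJ hsel F' hm hu2
      (fun Q hQ => sub_spl (i.comp j) (hS Q hQ).1.2.ne_zero (hM.spl Q hQ))
      (fun P hP h => hram P hP fun h' => h (sub_unr (i.comp j) hP.2.ne_zero h')) hd hdP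
    obtain ⟨⟨-, h2, -, -⟩, -⟩ := goodE_of F' hu2 ha3 hb3 hD8 hadm.1 hF.sq.ne_zero h1
    have h3 : rkF F' (a * (∏ Q ∈ J, Q) ^ 2) (b * (∏ Q ∈ J, Q) ^ 3) d = 0 := by
      haveI := h2
      unfold rkF
      rw [Module.finrank_eq_zero_iff_isTorsion]
      intro x
      obtain ⟨k, hk, hk0⟩ := isOfFinAddOrder_iff_nsmul_eq_zero.1 (isOfFinAddOrder_of_finite x)
      exact ⟨⟨(k : ℤ), mem_nonZeroDivisors_of_ne_zero (by exact_mod_cast hk.ne')⟩, by
        change (k : ℤ) • x = 0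
        rw [natCast_zsmul]
        exact hk0⟩
    have h4 := hgrow F' j
    rw [h3, zero_add] at h4
    exact h4

end Pool.Agent.K6.H88.TC
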