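import Pool.Agent.K6.H88.TC.Inf

/-!
# The class is closed under composita and contains infinitely many quadratic fields

Helper88 (project TC).
-/

set_option autoImplicit false
set_option linter.all false

open Polynomial NumberField IsDedekindDomain
open scoped Classical IntermediateField

namespace Pool.Agent.K6.H88.TC

open Pool.Agent.N922.PQ

/-- An integral element of `ℚ` approximated by integers. -/
theorem near_int {L : Type} [Field L] [NumberField L] {Q : ℤ} (hQ : Prime Q)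
    {w : HeightOneSpectrum (𝓞 L)} (hw : Ov Q w) (hsp : Spl L Q) {s : L}
    (hs : w.valuation L s ≤ 1) : ∃ n : ℤ, w.valuation L (s - (n : L)) < 1 := by
  by_cases h0 : s = 0
  · exact ⟨0, by rw [h0, Int.cast_zero, sub_zero, map_zero]; exact zero_lt_one⟩
  obtain ⟨z₀, hz₀⟩ := dens1 w (hsp w hw).1 (hsp w hw).2 s h0
  have hz₀' := lt_of_lt_of_le hz₀ hs
  have hv := val_rat hQ hw (hsp w hw).1
  set v := pr Q hQ with hvd
  have hz0 : v.valuation ℚ z₀ ≤ 1 := by
    rw [← hv]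
    have e : algebraMap ℚ L z₀ = s - (s - algebraMap ℚ L z₀) := by ring
    rw [e]
    exact (Valuation.map_sub _ _ _).trans (max_le hs hz₀'.le)
  obtain ⟨z₁, hz₁⟩ := poly_approx v hz0
  refine ⟨z₁, ?_⟩
  have e : s - (z₁ : L) = (s - algebraMap ℚ L z₀) + algebraMap ℚ L (z₀ - algebraMap ℤ ℚ z₁) := by
    rw [map_sub]
    simp
  rw [e]
  refine lt_of_le_of_lt (Valuation.map_add _ _ _) (max_lt hz₀' ?_)
  rw [hv]
  exact hz₁

section comp

variable {L M Ω : Type} [Field L] [NumberField L] [Field M] [NumberField M] [IsGalois ℚ M]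
  [Field Ω] [NumberField Ω] [Algebra L Ω] [Algebra M Ω]

theorem unr_comp {γ : L} (htop : M⟮algebraMap L Ω γ⟯ = ⊤) {P : ℤ} (hP : Prime P) (hM : Unr M P)
    (hL : Unr L P) : Unr Ω P := by
  intro 𝔓 h
  obtain ⟨𝔭, hv⟩ := down_val htop hP hM 𝔓 h
  have h1 := hv (P : L)
  rw [map_intCast] at h1
  rw [h1]
  refine hL 𝔭 ?_
  rw [ov_val (L := L), ← h1, ← ov_val (L := Ω)]
  exact h

theorem spl_comp {γ : L} (htop : M⟮algebraMap L Ω γ⟯ = ⊤) (hγ : IsIntegral ℤ γ) {Q : ℤ}
    (hQ : Prime Q) (hM : Spl M Q) (hL : Spl L Q) : Spl Ω Q := by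
  intro 𝔓 h
  refine ⟨unr_comp htop hQ (fun w hw => (hM w hw).1) (fun w hw => (hL w hw).1) 𝔓 h, fun x => ?_⟩
  by_cases hx : x ∈ 𝔓.asIdeal
  · exact ⟨0, by simpa using hx⟩
  have hx0 : (x : Ω) ≠ 0 := by
    intro h
    apply hx
    have h2 : x = 0 := by exact_mod_cast h
    rw [h2]
    exact Ideal.zero_mem _
  have hx1 : 𝔓.valuation Ω (x : Ω) ≤ 1 := 𝔓.valuation_le_one x
  obtain ⟨s₀, hs₀⟩ := dens_up htop hγ hQ hM 𝔓 h (x : Ω) hx0
  have hs₀' := lt_of_lt_of_le hs₀ hx1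
  obtain ⟨𝔭, hv⟩ := down_val htop hQ (fun w hw => (hM w hw).1) 𝔓 h
  have hO : Ov Q 𝔭 := by
    rw [ov_val (L := L), ← hv, map_intCast, ← ov_val (L := Ω)]
    exact h
  have hs1 : 𝔭.valuation L s₀ ≤ 1 := by
    rw [← hv]
    have e : algebraMap L Ω s₀ = (x : Ω) - ((x : Ω) - algebraMap L Ω s₀) := by ring
    rw [e]
    exact (Valuation.map_sub _ _ _).trans (max_le hx1 hs₀'.le)
  obtain ⟨n, hn⟩ := near_int hQ hO hL hs1
  refine ⟨n, ?_⟩
  have h2 : 𝔓.valuation Ω ((x : Ω) - (n : Ω)) < 1 := by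
    have e : (x : Ω) - (n : Ω) = ((x : Ω) - algebraMap L Ω s₀) + algebraMap L Ω (s₀ - (n : L)) := by
      rw [map_sub, map_intCast]
      ring
    rw [e]
    refine lt_of_le_of_lt (Valuation.map_add _ _ _) (max_lt hs₀' ?_)
    rw [hv]
    exact hn
  have e : (x : Ω) - (n : Ω) = algebraMap (𝓞 Ω) Ω (x - (n : 𝓞 Ω)) := by
    rw [map_sub, map_intCast]
  rw [e, HeightOneSpectrum.valuation_lt_one_iff_mem] at h2
  exact h2

theorem deg_comp {γ : L} (htop : M⟮algebraMap L Ω γ⟯ = ⊤) {n m : ℕ}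
    (hM : Module.finrank ℚ M = 2 ^ n) (hL : Module.finrank ℚ L = 2 ^ m) :
    ∃ k : ℕ, Module.finrank ℚ Ω = 2 ^ k := by
  haveI := gal_up htop
  haveI : FiniteDimensional L Ω := FiniteDimensional.right ℚ L Ω
  choose r hr using fun σ : Gal(Ω/L) => restr (M := M) σ
  have hinj : ∀ x y : M, algebraMap M Ω x = algebraMap M Ω y → x = y := fun x y h =>
    (algebraMap M Ω).injective h
  let f : Gal(Ω/L) →* Gal(M/ℚ) := MonoidHom.mk' r fun σ τ => by
    apply AlgEquiv.ext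
    intro x
    apply hinj
    change algebraMap M Ω ((r (σ * τ)) x) = algebraMap M Ω (r σ (r τ x))
    rw [hr, hr, hr]
    rfl
  have hf : Function.Injective f := by
    rw [injective_iff_map_eq_one]
    intro σ hσ
    apply gen_up htop
    intro x
    rw [← hr]
    change algebraMap M Ω (f σ x) = _
    rw [hσ]
    rfl
  have h1 : Nat.card Gal(Ω/L) ∣ Nat.card Gal(M/ℚ) := Subgroup.card_dvd_of_injective f hf
  rw [IsGalois.card_aut_eq_finrank, IsGalois.card_aut_eq_finrank, hM] at h1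
  obtain ⟨k, -, hk⟩ := (Nat.dvd_prime_pow Nat.prime_two).1 h1
  refine ⟨m + k, ?_⟩
  rw [← Module.finrank_mul_finrank ℚ L Ω, hL, hk, pow_add]

/-- The class is closed under composita. -/
theorem cls_comp [IsGalois ℚ Ω] {γ : L} (htop : M⟮algebraMap L Ω γ⟯ = ⊤) (hγ : IsIntegral ℤ γ)
    {N : ℕ} {S : Finset ℤ} {A B : ℤ} (hS : ∀ Q ∈ S, IsPr Q) (hM : InCls N S A B M)
    (hL : InCls N S A B L) : InCls N S A B Ω := by
  obtain ⟨n, hn⟩ := hM.deg
  obtain ⟨m, hm⟩ := hL.deg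
  refine ⟨inferInstance, deg_comp htop hn hm, unr_comp htop Int.prime_two hM.two hL.two,
    fun Q hQ => spl_comp htop hγ (hS Q hQ).2 (hM.spl Q hQ) (hL.spl Q hQ), fun P hP hu => ?_⟩
  by_cases h1 : Unr M P
  · by_cases h2 : Unr L P
    · exact absurd (unr_comp htop hP.2 h1 h2) hu
    · exact hL.ram P hP h2
  · exact hM.ram P hP h1

end comp

/-! ### quadratic fields -/

theorem quad_cls {N : ℕ} {S : Finset ℤ} {A B : ℤ} {q : ℕ} (hq : GoodQ A B S q)
    (hS : ∀ Q ∈ S, IsPr Q ∧ Q % 8 = 1) (M : Type) [Field M] [NumberField M]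
    (h2 : Module.finrank ℚ M = 2) {x : M} (hx : x ^ 2 = (q : M)) : InCls N S A B M := by
  obtain ⟨hp, hq4, hQ, hNZ⟩ := hq
  haveI : Algebra.IsQuadraticExtension ℚ M := ⟨h2⟩
  have hgal : IsGalois ℚ M := inferInstance
  obtain ⟨k, hk⟩ : ∃ k : ℤ, (q : ℤ) = 4 * k + 1 := ⟨q / 4, by omega⟩
  obtain ⟨γ, hγ⟩ : ∃ γ : M, γ = (1 + x) / 2 := ⟨_, rfl⟩
  have hγ2 : γ ^ 2 - γ - (k : M) = 0 := by
    have h3 : (q : M) = 4 * (k : M) + 1 := by exact_mod_cast congrArg (fun z : ℤ => (z : M)) hk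
    rw [hγ]
    field_simp
    rw [h3] at hx
    linear_combination hx
  have hx' : x = 2 * γ - 1 := by rw [hγ]; ring
  have htop : ℚ⟮γ⟯ = ⊤ := by
    have h3 : Module.finrank ℚ ℚ⟮γ⟯ ∣ 2 := by
      rw [← h2]
      exact ⟨_, (Module.finrank_mul_finrank ℚ ℚ⟮γ⟯ M).symm⟩
    rcases (Nat.dvd_prime Nat.prime_two).1 h3 with h4 | h4
    · exfalso
      have h5 := IntermediateField.finrank_eq_one_iff.1 h4
      have h6 : γ ∈ (⊥ : IntermediateField ℚ M) := by
        rw [← h5]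
        exact IntermediateField.mem_adjoin_simple_self ℚ γ
      obtain ⟨t, ht⟩ := IntermediateField.mem_bot.1 h6
      have h7 : algebraMap ℚ M ((2 * t - 1) ^ 2) = algebraMap ℚ M (q : ℚ) := by
        rw [map_pow, map_sub, map_mul, ht, map_ofNat, map_one, ← hx', hx, map_natCast]
      have h8 : (2 * t - 1) ^ 2 = (q : ℚ) := (algebraMap ℚ M).injective h7
      have h9 : IsSquare (q : ℚ) := ⟨2 * t - 1, by rw [← h8]; ring⟩
      have h10 : IsSquare q := by exact_mod_cast h9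
      exact hp.prime.irreducible.not_isSquare h10
    · exact IntermediateField.eq_of_le_of_finrank_eq le_top (by
        rw [h4, IntermediateField.finrank_top', h2])
  have hG : Gen ℚ γ (X ^ 2 - X - C k) (q : ℤ) := by
    refine ⟨htop, by monicity!, ?_, by exact_mod_cast hp.ne_zero, -4, 2 * X - 1, ?_⟩
    · simp only [map_sub, map_pow, aeval_X, aeval_C]
      simpa using hγ2
    · rw [hk]
      simp only [derivative_sub, derivative_pow, derivative_X, derivative_C, map_add, map_mul,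
        map_one]
      have : (C (4 : ℤ) : ℤ[X]) = 4 := rfl
      rw [this]
      push_cast
      simp only [map_ofNat]
      ring
  have hunr : ∀ P : ℤ, IsPr P → ¬ P ∣ (q : ℤ) → Unr M P := fun P hP hnd =>
    unr_of_gen Pool.Agent.N362.PQ.ur hG hP hnd
  refine ⟨hgal, ⟨1, by rw [h2, pow_one]⟩, hunr 2 ⟨by norm_num, Int.prime_two⟩ (by omega),
    fun Q hQS => ?_, fun P hP hu => ?_⟩
  · obtain ⟨h1, r, hr⟩ := hQ Q hQS
    obtain ⟨hQ1, hQ8⟩ := hS Q hQS
    refine spl_of_gen Pool.Agent.N362.PQ.ur Pool.Agent.N296.PQ.spd hG hQ1 h1 ?_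
    -- an odd square root
    obtain ⟨r', hr', hodd⟩ : ∃ r' : ℤ, Q ∣ r' ^ 2 - q ∧ r' % 2 = 1 := by
      rcases Int.emod_two_eq_zero_or_one r with h | h
      · refine ⟨r + Q, ?_, by omega⟩
        have e : (r + Q) ^ 2 - q = (r ^ 2 - q) + Q * (2 * r + Q) := by ring
        rw [e]
        exact dvd_add hr (dvd_mul_right _ _)
      · exact ⟨r, hr, h⟩
    obtain ⟨e, he⟩ : ∃ e, r' = 2 * e + 1 := ⟨r' / 2, by omega⟩
    have h4 : (4 : ℤ) * Q ∣ r' ^ 2 - q := by
      refine IsCoprime.mul_dvd ?_ ?_ hr'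
      · obtain ⟨u, hu⟩ : ∃ u, Q = 4 * u + 1 := ⟨Q / 4, by omega⟩
        exact ⟨-u, 1, by rw [hu]; ring⟩
      · rw [hk, he]
        exact ⟨e ^ 2 + e - k, by ring⟩
    obtain ⟨t, ht⟩ := h4
    refine ⟨{1 + e, -e}, C t, ?_⟩
    simp only [Multiset.insert_eq_cons, Multiset.map_cons, Multiset.map_singleton,
      Multiset.prod_cons, Multiset.prod_singleton]
    have h5 : k = e ^ 2 + e - Q * t := by
      have h6 : 4 * (e ^ 2 + e - k) = 4 * (Q * t) := by
        rw [hk, he] at ht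
        linear_combination ht
      have h7 := mul_left_cancel₀ (by norm_num : (4 : ℤ) ≠ 0) h6
      linear_combination -h7
    rw [h5]
    simp only [map_add, map_sub, map_mul, map_pow, map_neg, map_one]
    ring
  · right
    by_contra hn
    apply hu
    refine hunr P hP fun hd => hn ?_
    have h1 : P = q := by
      have h2 := hP.2.associated_of_dvd (Nat.prime_iff_prime_int.1 hp) hd
      rcases Int.associated_iff.1 h2 with h | h
      · exact h
      · have := hP.1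
        omega
    rw [h1]
    exact hNZ

end Pool.Agent.K6.H88.TC
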