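import Pool.Agent.K6.H88.TC.Sel
import Pool.Agent.K6.H88.TW.Main
import Pool.Agent.N922.PQ.Final2

/-!
# Counting, with an arbitrary property

Helper88 (project TC), adapted from `Pool.Agent.N922.PQ.Cnt2` (helper922).
-/

set_option autoImplicit false
set_option linter.all false

open Polynomial IsDedekindDomain WeierstrassCurve WeierstrassCurve.Affine NumberField
open Pool.Agent.TH115.GD
open scoped Classical IntermediateField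

namespace Pool.Agent.K6.H88.TC

open Pool.Agent.N922.PQ
open Pool.Agent.N874.PP (Tup chA chB gq tau Two Ev Sq1 U0 sW IsBeta Rt)
open Pool.Agent.N874.PM (PLoc Lies SelR ShaR)

/-- The prime `P` is unramified if it does not divide `δ`. -/
theorem unr_of_gen (hUR : S_UR) {M : Type} [Field M] [NumberField M] {γ : M} {g : ℤ[X]} {δ : ℤ}
    (hG : Gen ℚ γ g δ) {P : ℤ} (hP : IsPr P) (hnd : ¬ P ∣ δ) : Unr M P := by
  intro w hw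
  have hδ : ¬ Ov δ w := fun h =>
    one_mem_of ((hP.2.irreducible.coprime_iff_not_dvd).2 hnd) hw h
  obtain ⟨v, hv⟩ := (hUR ℚ M ℤ (𝓞 M) γ g δ hG).1 w hδ
  have h1 : w.valuation M (P : M) = v.valuation ℚ (P : ℚ) := by
    rw [← hv, map_intCast (algebraMap ℚ M)]
  refine le_antisymm (val_le_exp w ?_ ((ov_val P w).1 hw)) ?_
  · exact_mod_cast hP.2.ne_zero
  · rw [h1]
    exact val_sqfree hP.2.irreducible.squarefree v

/-- The prime `Q` splits completely if `g` splits modulo `Q`. -/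
theorem spl_of_gen (hUR : S_UR) (hSPD : S_SPD) {M : Type} [Field M] [NumberField M] {γ : M}
    {g : ℤ[X]} {δ : ℤ} (hG : Gen ℚ γ g δ) {Q : ℤ} (hQ : IsPr Q) (hnd : ¬ Q ∣ δ)
    (hsp : SplitMod Q g) : Spl M Q := by
  intro w hw
  have hu := unr_of_gen hUR hG hQ hnd w hw
  refine ⟨hu, fun x => ?_⟩
  by_cases hx : x ∈ w.asIdeal
  · exact ⟨0, by simpa using hx⟩
  have hδ : ¬ Ov δ w := fun h =>
    one_mem_of ((hQ.2.irreducible.coprime_iff_not_dvd).2 hnd) hw h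
  have hx0 : (x : M) ≠ 0 := by
    intro h
    apply hx
    have h2 : x = 0 := by exact_mod_cast h
    rw [h2]
    exact Ideal.zero_mem _
  have hx1 : w.valuation M (x : M) ≤ 1 := w.valuation_le_one x
  obtain ⟨z₀, hz₀⟩ := hSPD ℚ M (𝓞 M) γ g δ hG Q hQ.2 hsp w hw hδ (x : M) hx0
  have hz₀' := lt_of_lt_of_le hz₀ hx1
  have hv := val_rat hQ.2 hw hu
  set v := pr Q hQ.2 with hvd
  have hz0 : v.valuation ℚ z₀ ≤ 1 := by
    rw [← hv]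
    have e : algebraMap ℚ M z₀ = (x : M) - ((x : M) - algebraMap ℚ M z₀) := by ring
    rw [e]
    exact (Valuation.map_sub _ _ _).trans (max_le hx1 hz₀'.le)
  obtain ⟨z₁, hz₁⟩ := poly_approx v hz0
  refine ⟨z₁, ?_⟩
  have h2 : w.valuation M ((x : M) - (z₁ : M)) < 1 := by
    have e : (x : M) - (z₁ : M) = ((x : M) - algebraMap ℚ M z₀) +
        algebraMap ℚ M (z₀ - algebraMap ℤ ℚ z₁) := by
      rw [map_sub]
      simp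
    rw [e]
    refine lt_of_le_of_lt (Valuation.map_add _ _ _) (max_lt hz₀' ?_)
    rw [hv]
    exact hz₁
  have e : (x : M) - (z₁ : M) = algebraMap (𝓞 M) M (x - (z₁ : 𝓞 M)) := by
    rw [map_sub, map_intCast]
  rw [e, HeightOneSpectrum.valuation_lt_one_iff_mem] at h2
  exact h2

/-- Many curves of the family are not bad. -/
theorem good_cardC (κ : ℕ) {T : Finset ℤ} {A B : ℤ → ℤ}
    (hT : GoodT T A B) (Φ : ℤ → Prop)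
    (hEX : ∀ r : ℕ, ∃ (S : Finset ℤ) (s : ℤ → ℤ), GoodS S s ∧ S.card = r ∧ Disjoint S T ∧
      ∀ Q ∈ S, Φ Q) :
    ∃ (S : Finset ℤ) (s : ℤ → ℤ) (c : ℝ), GoodS S s ∧ Disjoint S T ∧ (∀ Q ∈ S, Φ Q) ∧
      0 < c ∧ ∃ X₀ : ℕ, ∀ X ≥ X₀,
      c * (X : ℝ) ^ 5 ≤ ({p : ℤ × ℤ | (Fam X S s T A B p.1 p.2 ∧ (p.1 % 4 = 3 ∧ p.2 % 4 = 3)) ∧
        ¬ LBad κ X S s p.1 p.2}.ncard : ℝ) := by
  obtain ⟨c, hc, hfam⟩ := Pool.Agent.K6.H88.TW.fam3 T A B hT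
  obtain ⟨K, hK⟩ := bad κ
  obtain ⟨r, hr⟩ : ∃ r : ℕ, 2 * (K : ℝ) / c < 2 ^ r :=
    pow_unbounded_of_one_lt _ (by norm_num)
  obtain ⟨S, s, hS, hcard, hdis, hΦ⟩ := hEX r
  obtain ⟨X₁, h1⟩ := hfam S s hS hdis
  obtain ⟨X₂, h2⟩ := hK S s hS
  set P : ℝ := ∏ Q ∈ S, (Q : ℝ) ^ 2 with hP
  have hP0 : 0 < P := Finset.prod_pos fun Q hQ => by
    have : (0 : ℝ) < Q := by exact_mod_cast (hS Q hQ).1.1
    positivity
  refine ⟨S, s, c / (2 * P), hS, hdis, hΦ, by positivity, max X₁ X₂, fun X hX => ?_⟩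
  have hF := h1 X ((le_max_left _ _).trans hX)
  obtain ⟨hfin, hB⟩ := h2 X ((le_max_right _ _).trans hX)
  have hd := Set.le_ncard_diff {p : ℤ × ℤ | LBad κ X S s p.1 p.2}
    {p : ℤ × ℤ | Fam X S s T A B p.1 p.2 ∧ (p.1 % 4 = 3 ∧ p.2 % 4 = 3)} hfin
  have e : {p : ℤ × ℤ | Fam X S s T A B p.1 p.2 ∧ (p.1 % 4 = 3 ∧ p.2 % 4 = 3)} \
      {p : ℤ × ℤ | LBad κ X S s p.1 p.2} =
      {p : ℤ × ℤ | (Fam X S s T A B p.1 p.2 ∧ (p.1 % 4 = 3 ∧ p.2 % 4 = 3)) ∧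
        ¬ LBad κ X S s p.1 p.2} := rfl
  rw [e] at hd
  set F : ℕ := {p : ℤ × ℤ | Fam X S s T A B p.1 p.2 ∧ (p.1 % 4 = 3 ∧ p.2 % 4 = 3)}.ncard
  set Bd : ℕ := {p : ℤ × ℤ | LBad κ X S s p.1 p.2}.ncard
  set G : ℕ := {p : ℤ × ℤ | (Fam X S s T A B p.1 p.2 ∧ (p.1 % 4 = 3 ∧ p.2 % 4 = 3)) ∧
    ¬ LBad κ X S s p.1 p.2}.ncard
  have hd' : (F : ℝ) ≤ Bd + G := by
    have : F ≤ Bd + G := by omega
    exact_mod_cast this
  have hB' : (2 : ℝ) ^ r * P * Bd ≤ K * (X : ℝ) ^ 5 := by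
    rw [hcard] at hB
    have h3 : ((2 ^ r * (∏ Q ∈ S, Q) ^ 2 * (Bd : ℤ) : ℤ) : ℝ) ≤ ((K * X ^ 5 : ℤ) : ℝ) := by
      exact_mod_cast hB
    have e2 : ((2 ^ r * (∏ Q ∈ S, Q) ^ 2 * (Bd : ℤ) : ℤ) : ℝ) = (2 : ℝ) ^ r * P * Bd := by
      rw [hP, Finset.prod_pow]
      push_cast
      ring
    rw [e2] at h3
    refine h3.trans (le_of_eq ?_)
    push_cast
    ring
  have hF' : c * (X : ℝ) ^ 5 ≤ P * F := hF
  rw [div_lt_iff₀ hc] at hr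
  have hPB : P * (Bd : ℝ) ≤ c / 2 * (X : ℝ) ^ 5 := by
    have h2r : (0 : ℝ) < 2 ^ r := by positivity
    rw [← mul_le_mul_iff_right₀ h2r]
    calc 2 ^ r * (P * (Bd : ℝ)) = 2 ^ r * P * Bd := by ring
      _ ≤ K * (X : ℝ) ^ 5 := hB'
      _ = (2 * (K : ℝ)) * ((X : ℝ) ^ 5 / 2) := by ring
      _ ≤ (2 ^ r * c) * ((X : ℝ) ^ 5 / 2) := by gcongr
      _ = 2 ^ r * (c / 2 * (X : ℝ) ^ 5) := by ring
  have hPG : c / 2 * (X : ℝ) ^ 5 ≤ P * G := by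
    have : (P : ℝ) * F ≤ P * Bd + P * G := by
      rw [← mul_add]
      exact mul_le_mul_of_nonneg_left hd' hP0.le
    linarith
  calc c / (2 * P) * (X : ℝ) ^ 5 = c / 2 * (X : ℝ) ^ 5 / P := by
        field_simp
    _ ≤ P * G / P := by gcongr
    _ = G := by field_simp

/-- A positive proportion of all curves is good if suitable twists of the curves of the family
are. -/
theorem mainC (N : ℕ) (K : Type) [Field K] [NumberField K] [IsGalois ℚ K] :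
    ∃ (κ : ℕ) (S T : Finset ℤ) (s A B : ℤ → ℤ), LBk κ ∧ GoodS S s ∧ GoodT T A B ∧ Disjoint S T ∧
      (∀ P : ℤ, IsPr P → P ≤ N → P ∈ T) ∧ (∀ P : ℤ, IsPr P → ¬ Unr K P → P ∈ T) ∧
      (∀ Q ∈ S, Spl K Q) ∧
      ∀ good : ℤ × ℤ → Prop,
        (∀ (X' : ℕ) (a b : ℤ), Fam X' S s T A B a b → a % 4 = 3 → b % 4 = 3 →
          ¬ LBad κ X' S s a b →
          ∃ J ⊆ S, good (a * (∏ Q ∈ J, Q) ^ 2, b * (∏ Q ∈ J, Q) ^ 3)) →
        ∃ c : ℝ, 0 < c ∧ ∃ H₀ : ℕ, ∀ H ≥ H₀, {p : ℤ × ℤ | Crv H p.1 p.2}.Finite ∧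
          c * ({p : ℤ × ℤ | Crv H p.1 p.2}.ncard : ℝ) ≤
            ({p : ℤ × ℤ | Crv H p.1 p.2 ∧ good p}.ncard : ℝ) := by
  obtain ⟨κ, hLB'⟩ := lb
  obtain ⟨γ, g, δ, hG, hdeg⟩ := Pool.Agent.N40.PQ.gen K
  obtain ⟨T₀, hT₀, hN₀, hδ₀⟩ : ∃ T : Finset ℤ, (∀ P ∈ T, IsPr P) ∧
      (∀ P : ℤ, IsPr P → P ≤ N → P ∈ T) ∧ ∀ P : ℤ, IsPr P → P ∣ δ → P ∈ T := by
    have hf : {P : ℤ | IsPr P ∧ (P ≤ N ∨ P ∣ δ)}.Finite := by
      refine (Set.finite_Icc 0 (max (N : ℤ) |δ|)).subset ?_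
      rintro P ⟨h, h2⟩
      refine ⟨h.1.le, ?_⟩
      rcases h2 with h2 | h2
      · exact h2.trans (le_max_left _ _)
      · exact (Int.le_of_dvd (abs_pos.2 hG.ne) ((dvd_abs _ _).2 h2)).trans (le_max_right _ _)
    refine ⟨hf.toFinset, fun P hP => ?_, fun P h1 h2 => ?_, fun P h1 h2 => ?_⟩
    · exact (hf.mem_toFinset.1 hP).1
    · exact hf.mem_toFinset.2 ⟨h1, Or.inl h2⟩
    · exact hf.mem_toFinset.2 ⟨h1, Or.inr h2⟩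
  obtain ⟨T, A, B, hTT, hT⟩ := Pool.Agent.N954.PQ.tch T₀ hT₀
  obtain ⟨S, s, c, hS, hdis, hsp, hc, X₀, hX₀⟩ := good_cardC κ hT (fun Q => SplitMod Q g)
    (Pool.Agent.N40.PQ.spl K γ g δ hG hdeg T)
  have hSpos : 0 < ∏ Q ∈ S, Q := Finset.prod_pos fun Q hQ => (hS Q hQ).1.1
  refine ⟨κ, S, T, s, A, B, hLB', hS, hT, hdis, fun P h1 h2 => hTT (hN₀ P h1 h2),
    fun P h1 h2 => ?_, fun Q hQ => ?_, fun good hgood => ?_⟩
  · by_contra hPT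
    exact h2 (unr_of_gen Pool.Agent.N362.PQ.ur hG h1 fun hd => hPT (hTT (hδ₀ P h1 hd)))
  · refine spl_of_gen Pool.Agent.N362.PQ.ur Pool.Agent.N296.PQ.spd hG (hS Q hQ).1 ?_ (hsp Q hQ)
    intro hd
    exact Finset.disjoint_left.1 hdis hQ (hTT (hδ₀ Q (hS Q hQ).1 hd))
  refine Pool.Agent.N607.PQ.cnt good
    (∏ Q ∈ S, Q).toNat X₀ (c / 2 ^ S.card)
    (by positivity) (by omega) fun X hX Hh hHh => ?_
  have hN := hX₀ X hX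
  set Hs := {p : ℤ × ℤ | Crv Hh p.1 p.2 ∧ good p} with hH
  set G := {p : ℤ × ℤ | (Fam X S s T A B p.1 p.2 ∧ (p.1 % 4 = 3 ∧ p.2 % 4 = 3)) ∧
    ¬ LBad κ X S s p.1 p.2} with hG'
  have hHf : Hs.Finite := (crv_fin Hh).subset fun p hp => hp.1
  have hbd : 27 * ((X : ℤ) * ∏ Q ∈ S, Q) ^ 6 ≤ Hh := by
    have h1 : ((27 * (X * (∏ Q ∈ S, Q).toNat) ^ 6 : ℕ) : ℤ) ≤ Hh := by exact_mod_cast hHh
    have e1 : (((∏ Q ∈ S, Q).toNat : ℕ) : ℤ) = ∏ Q ∈ S, Q := Int.toNat_of_nonneg hSpos.le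
    rw [Nat.cast_mul, Nat.cast_pow, Nat.cast_mul, e1] at h1
    exact_mod_cast h1
  have hcard := card_fib hHf S
    (fun (J : Finset ℤ) (p : ℤ × ℤ) => (p.1 * (∏ Q ∈ J, Q) ^ 2, p.2 * (∏ Q ∈ J, Q) ^ 3)) (G := G) (by
      rintro p ⟨⟨hpF, hp4, hp4'⟩, hnb⟩
      obtain ⟨J, hJ, hsel⟩ := hgood X p.1 p.2 hpF hp4 hp4' hnb
      exact ⟨J, hJ, Pool.Agent.N707.PQ.crv X Hh S T s A B p.1 p.2 hS hT hpF J hJ hbd, hsel⟩) (by
      intro J hJ x hx y hy hxy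
      have hD0 : (∏ Q ∈ J, Q) ≠ 0 := by
        rw [Finset.prod_ne_zero_iff]
        exact fun Q hQ => (hS Q (hJ hQ)).1.2.ne_zero
      rw [Prod.mk.injEq] at hxy
      exact twist_inj hD0 hxy.1 hxy.2)
  have hcard' : (G.ncard : ℝ) ≤ 2 ^ S.card * Hs.ncard := by exact_mod_cast hcard
  calc c / 2 ^ S.card * (X : ℝ) ^ 5
      = c * (X : ℝ) ^ 5 / 2 ^ S.card := by ring
    _ ≤ (G.ncard : ℝ) / 2 ^ S.card := by gcongr
    _ ≤ (2 ^ S.card * Hs.ncard) / 2 ^ S.card := by gcongr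
    _ = Hs.ncard := by field_simp

end Pool.Agent.K6.H88.TC
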