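import Pool.Agent.K6.H88.TC.Ram
import Pool.Agent.N922.PQ.Big5

/-!
# Density at completely split primes; the extension `L M / L` is Galois

Helper88 (project TC). `dens1`, `dens2`, `dens3` are adapted from `Pool.Agent.N874.TW.Gen`
(helper874).
-/

set_option autoImplicit false
set_option linter.all false

open Polynomial IsDedekindDomain NumberField
open scoped Classical IntermediateField Pointwise

namespace Pool.Agent.K6.H88.TC

open Pool.Agent.N922.PQ

section gal

variable {L M Ω : Type} [Field L] [NumberField L] [Field M] [NumberField M] [IsGalois ℚ M]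
  [Field Ω] [NumberField Ω] [Algebra L Ω] [Algebra M Ω]

theorem gal_up {θ : L} (htop : M⟮algebraMap L Ω θ⟯ = ⊤) : IsGalois L Ω := by
  obtain ⟨γ, hγ⟩ := Field.exists_primitive_element ℚ M
  have h1 := top_up (K := ℚ) hγ htop
  set p : L[X] := (minpoly ℚ γ).map (algebraMap ℚ L) with hp
  have hsep : p.Separable := by
    rw [hp]
    exact Polynomial.Separable.map (Algebra.IsSeparable.isSeparable ℚ γ)
  have h2 : p.map (algebraMap L Ω) = ((minpoly ℚ γ).map (algebraMap ℚ M)).map (algebraMap M Ω) := by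
    rw [hp, Polynomial.map_map, Polynomial.map_map]
    congr 1
    exact RingHom.ext_rat _ _
  haveI : p.IsSplittingField L Ω := by
    constructor
    · rw [h2]
      exact (Normal.splits inferInstance γ).map (algebraMap M Ω)
    · have hroot : algebraMap M Ω γ ∈ p.rootSet Ω := by
        rw [Polynomial.mem_rootSet']
        constructor
        · rw [h2]
          exact Polynomial.map_ne_zero (Polynomial.map_ne_zero
            (minpoly.ne_zero (Algebra.IsIntegral.isIntegral γ)))
        · rw [aeval_def, eval₂_eq_eval_map, h2, eval_map, eval₂_at_apply, eval_map,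
            ← aeval_def, minpoly.aeval, map_zero]
      have h3 : Algebra.adjoin L {algebraMap M Ω γ} = ⊤ := by
        rw [← IntermediateField.adjoin_simple_toSubalgebra_of_isAlgebraic
          (Algebra.IsAlgebraic.isAlgebraic _), h1, IntermediateField.top_toSubalgebra]
      rw [eq_top_iff, ← h3]
      exact Algebra.adjoin_mono (Set.singleton_subset_iff.2 hroot)
  exact IsGalois.of_separable_splitting_field hsep

theorem gen_up {θ : L} (htop : M⟮algebraMap L Ω θ⟯ = ⊤) (σ : Gal(Ω/L))
    (hσ : ∀ x : M, σ (algebraMap M Ω x) = algebraMap M Ω x) : σ = 1 := by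
  let E : IntermediateField M Ω :=
    { carrier := {x | σ x = x}
      mul_mem' := fun {x y} hx hy => by
        change σ (x * y) = x * y
        rw [map_mul, hx, hy]
      add_mem' := fun {x y} hx hy => by
        change σ (x + y) = x + y
        rw [map_add, hx, hy]
      algebraMap_mem' := fun x => hσ x
      inv_mem' := fun x hx => by
        change σ x⁻¹ = x⁻¹
        rw [map_inv₀, hx] }
  have h1 : M⟮algebraMap L Ω θ⟯ ≤ E := by
    rw [IntermediateField.adjoin_simple_le_iff]
    exact σ.commutes θ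
  rw [htop] at h1
  ext x
  exact h1 (IntermediateField.mem_top (x := x))

end gal

/-! ### Density -/

section dens

variable {F O K : Type} [Field K] [Field F] [Algebra K F] [CommRing O]
  [IsDedekindDomain O] [Algebra O F] [IsFractionRing O F]

/-- Complete splitting: approximation by rational numbers, first step. -/
theorem dens1 [CharZero F] {Q : ℤ} (w : HeightOneSpectrum O)
    (h1 : w.valuation F (Q : F) = WithZero.exp (-1 : ℤ))
    (h2 : ∀ x : O, ∃ n : ℤ, x - n ∈ w.asIdeal) (s : F) (hs : s ≠ 0) :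
    ∃ s₀ : ℚ, w.valuation F (s - algebraMap ℚ F s₀) < w.valuation F s := by
  have hQ0 : (Q : F) ≠ 0 := by
    intro h0
    rw [h0, map_zero] at h1
    exact WithZero.exp_ne_zero h1.symm
  obtain ⟨m, hm⟩ : ∃ m : ℤ, w.valuation F s = WithZero.exp m :=
    ⟨WithZero.log _, (WithZero.exp_log ((Valuation.ne_zero_iff _).2 hs)).symm⟩
  -- scaling
  set u : F := s * (Q : F) ^ m with hu
  have hwu : w.valuation F u = 1 := by
    rw [hu, map_mul, map_zpow₀, h1, hm, ← WithZero.exp_zsmul, ← WithZero.exp_add]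
    simp
  obtain ⟨a, ha⟩ := w.exists_valuation_sub_lt_of_integer hwu.le 1
  rw [Units.val_one] at ha
  obtain ⟨c, hc⟩ := h2 a
  have hca : w.valuation F (algebraMap O F a - (c : F)) < 1 := by
    have e : algebraMap O F a - (c : F) = algebraMap O F (a - c) := by
      rw [map_sub, map_intCast]
    rw [e, HeightOneSpectrum.valuation_lt_one_iff_mem]
    exact hc
  have huc : w.valuation F (u - (c : F)) < 1 := by
    have e : u - (c : F) = - (algebraMap O F a - u) + (algebraMap O F a - (c : F)) := by ring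
    rw [e]
    refine (Valuation.map_add _ _ _).trans_lt (max_lt ?_ hca)
    rw [Valuation.map_neg]
    exact ha
  have hQm : (Q : F) ^ m ≠ 0 := zpow_ne_zero _ hQ0
  refine ⟨(c : ℚ) * ((Q : ℚ) ^ m)⁻¹, ?_⟩
  have e1 : s - algebraMap ℚ F ((c : ℚ) * ((Q : ℚ) ^ m)⁻¹) =
      (u - (c : F)) * ((Q : F) ^ m)⁻¹ := by
    rw [map_mul, map_inv₀, map_zpow₀, map_intCast, map_intCast, hu, sub_mul, mul_assoc,
      mul_inv_cancel₀ hQm, mul_one]
  have e2 : s = u * ((Q : F) ^ m)⁻¹ := by
    rw [hu, mul_assoc, mul_inv_cancel₀ hQm, mul_one]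
  rw [e1]
  conv_rhs => rw [e2]
  rw [map_mul, map_mul, hwu]
  refine (mul_lt_mul_iff_left₀ ?_).2 huc
  rw [zero_lt_iff]
  exact (Valuation.ne_zero_iff _).2 (inv_ne_zero hQm)

/-- Approximation by elements of `K`. -/
theorem dens2 (w : HeightOneSpectrum O)
    (h : ∀ s : F, s ≠ 0 → ∃ s₀ : K, w.valuation F (s - algebraMap K F s₀) < w.valuation F s)
    (s : F) {ε : WithZero (Multiplicative ℤ)} (hε : ε ≠ 0) :
    ∃ s₀ : K, w.valuation F (s - algebraMap K F s₀) < ε := by
  obtain ⟨b, rfl⟩ : ∃ b : ℤ, ε = WithZero.exp b := ⟨WithZero.log ε, (WithZero.exp_log hε).symm⟩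
  have key : ∀ (n : ℕ) (s : F), w.valuation F s < WithZero.exp (b + n) →
      ∃ s₀ : K, w.valuation F (s - algebraMap K F s₀) < WithZero.exp b := by
    intro n
    induction n with
    | zero =>
      intro s hs
      refine ⟨0, ?_⟩
      rw [map_zero, sub_zero]
      simpa using hs
    | succ n ih =>
      intro s hs
      by_cases h0 : s = 0
      · refine ⟨0, ?_⟩
        rw [h0, map_zero, sub_zero, map_zero]
        exact WithZero.exp_pos
      · obtain ⟨s₁, hs₁⟩ := h s h0
        have h3 : w.valuation F (s - algebraMap K F s₁) < WithZero.exp (b + n) := by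
          by_cases h4 : s - algebraMap K F s₁ = 0
          · rw [h4, map_zero]
            exact WithZero.exp_pos
          · have a1 : w.valuation F (s - algebraMap K F s₁) ≠ 0 := (Valuation.ne_zero_iff _).2 h4
            have a2 : w.valuation F s ≠ 0 := (Valuation.ne_zero_iff _).2 h0
            rw [← WithZero.exp_log a1, ← WithZero.exp_log a2, WithZero.exp_lt_exp] at hs₁
            rw [← WithZero.exp_log a2, WithZero.exp_lt_exp] at hs
            rw [← WithZero.exp_log a1, WithZero.exp_lt_exp]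
            push_cast at hs
            omega
        obtain ⟨s₂, hs₂⟩ := ih _ h3
        refine ⟨s₁ + s₂, ?_⟩
        rw [map_add, ← sub_sub]
        exact hs₂
  by_cases h0 : s = 0
  · refine ⟨0, ?_⟩
    rw [h0, map_zero, sub_zero, map_zero]
    exact WithZero.exp_pos
  · have a2 : w.valuation F s ≠ 0 := (Valuation.ne_zero_iff _).2 h0
    refine key (WithZero.log (w.valuation F s) - b + 1).toNat s ?_
    conv_lhs => rw [← WithZero.exp_log a2]
    rw [WithZero.exp_lt_exp]
    have := Int.self_le_toNat (WithZero.log (w.valuation F s) - b + 1)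
    omega

end dens

section dens3

variable {L M Ω : Type} [Field L] [NumberField L] [Field M] [NumberField M] [Field Ω]
  [NumberField Ω] [Algebra L Ω] [Algebra M Ω]

/-- Approximation by elements of `L`. -/
theorem dens3 {θ : L} (hθ : M⟮algebraMap L Ω θ⟯ = ⊤)
    (𝔓 : HeightOneSpectrum (𝓞 Ω)) (w : HeightOneSpectrum (𝓞 M)) [𝔓.asIdeal.LiesOver w.asIdeal]
    (hint : 𝔓.valuation Ω (algebraMap L Ω θ) ≤ 1)
    (h : ∀ s : M, s ≠ 0 → ∃ s₀ : ℚ, w.valuation M (s - algebraMap ℚ M s₀) < w.valuation M s)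
    (s : Ω) (hs : s ≠ 0) :
    ∃ s₀ : L, 𝔓.valuation Ω (s - algebraMap L Ω s₀) < 𝔓.valuation Ω s := by
  have hε : 𝔓.valuation Ω s ≠ 0 := (Valuation.ne_zero_iff _).2 hs
  have h1 : s ∈ Algebra.adjoin M {algebraMap L Ω θ} := by
    have h2 := IntermediateField.adjoin_simple_toSubalgebra_of_isAlgebraic
      (Algebra.IsAlgebraic.isAlgebraic (R := M) (algebraMap L Ω θ))
    rw [← h2, hθ]
    trivial
  rw [Algebra.adjoin_singleton_eq_range_aeval] at h1
  obtain ⟨p, rfl⟩ := h1
  have hp : (aeval (algebraMap L Ω θ)) p ≠ 0 := hs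
  change 𝔓.valuation Ω (aeval (algebraMap L Ω θ) p) ≠ 0 at hε
  obtain ⟨b, hb⟩ : ∃ b : ℤ, 𝔓.valuation Ω (aeval (algebraMap L Ω θ) p) = WithZero.exp b :=
    ⟨WithZero.log _, (WithZero.exp_log hε).symm⟩
  haveI := w.isPrime
  haveI := 𝔓.isPrime
  set e : ℕ := w.asIdeal.ramificationIdx' 𝔓.asIdeal with he
  have he0 : e ≠ 0 := Ideal.IsDedekindDomain.ramificationIdx'_ne_zero_of_liesOver 𝔓.asIdeal w.ne_bot
  have hw : ∀ x : M, 𝔓.valuation Ω (algebraMap M Ω x) = w.valuation M x ^ e := fun x =>
    (HeightOneSpectrum.valuation_liesOver Ω w 𝔓 x).symm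
  have hpow : WithZero.exp (-|b|) ^ e ≤ WithZero.exp b := by
    rw [← WithZero.exp_nsmul, WithZero.exp_le_exp, nsmul_eq_mul]
    have h3 : (1 : ℤ) ≤ e := by
      have := Nat.one_le_iff_ne_zero.2 he0
      exact_mod_cast this
    have h4 : (e : ℤ) * -|b| ≤ 1 * -|b| := by
      apply mul_le_mul_of_nonpos_right h3
      simp
    have h5 := neg_abs_le b
    linarith
  choose a ha using fun i => dens2 w h (p.coeff i) (WithZero.exp_ne_zero (a := -|b|))
  refine ⟨∑ i ∈ Finset.range (p.natDegree + 1), algebraMap ℚ L (a i) * θ ^ i, ?_⟩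
  change 𝔓.valuation Ω (aeval (algebraMap L Ω θ) p - _) < 𝔓.valuation Ω (aeval (algebraMap L Ω θ) p)
  have e1 : aeval (algebraMap L Ω θ) p - algebraMap L Ω
      (∑ i ∈ Finset.range (p.natDegree + 1), algebraMap ℚ L (a i) * θ ^ i) =
      ∑ i ∈ Finset.range (p.natDegree + 1), algebraMap M Ω (p.coeff i - algebraMap ℚ M (a i)) *
        (algebraMap L Ω θ) ^ i := by
    conv_lhs => rw [aeval_eq_sum_range]
    rw [map_sum, ← Finset.sum_sub_distrib]
    refine Finset.sum_congr rfl fun i _ => ?_
    rw [map_mul, map_pow, ← IsScalarTower.algebraMap_apply ℚ L Ω, map_sub,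
      ← IsScalarTower.algebraMap_apply ℚ M Ω, sub_mul, Algebra.smul_def]
  rw [e1]
  refine Valuation.map_sum_lt _ hε fun i _ => ?_
  rw [map_mul, hw, map_pow, hb]
  refine lt_of_le_of_lt ?_ ((pow_lt_pow_left₀ (ha i) zero_le' he0).trans_le hpow)
  exact mul_le_of_le_one_right' (pow_le_one' hint i)

end dens3

end Pool.Agent.K6.H88.TC
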