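import Pool.Agent.K6.H88.TC.Cls

/-!
# The compositum of all fields in the class

Helper88 (project TC).
-/

set_option autoImplicit false
set_option linter.all false

open Polynomial NumberField IsDedekindDomain
open scoped Classical IntermediateField

namespace Pool.Agent.K6.H88.TC

open Pool.Agent.N922.PQ

/-- The algebraic closure of `ℚ`. -/
abbrev QB : Type := AlgebraicClosure ℚ

theorem nf_of (F : IntermediateField ℚ QB) [FiniteDimensional ℚ F] : NumberField F :=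
  { to_charZero := inferInstance, to_finiteDimensional := inferInstance }

/-- The fields in the class. -/
def ClsSet (N : ℕ) (S : Finset ℤ) (A B : ℤ) : Set (IntermediateField ℚ QB) :=
  {F | ∃ _ : NumberField F, InCls N S A B F}

theorem top_of_sup (F G : IntermediateField ℚ QB) [NumberField F] [NumberField G]
    (iF : Algebra F ↥(F ⊔ G)) (iG : Algebra G ↥(F ⊔ G))
    (hF : ∀ x : F, ((algebraMap F ↥(F ⊔ G) x : ↥(F ⊔ G)) : QB) = x)
    (hG : ∀ x : G, ((algebraMap G ↥(F ⊔ G) x : ↥(F ⊔ G)) : QB) = x) {γ : G} (hγ : ℚ⟮γ⟯ = ⊤) :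
    F⟮algebraMap G ↥(F ⊔ G) γ⟯ = ⊤ := by
  set K' := F⟮algebraMap G ↥(F ⊔ G) γ⟯ with hK
  have hrat : ∀ (q : ℚ), algebraMap ℚ ↥(F ⊔ G) q ∈ K' := by
    intro q
    have h1 : algebraMap ℚ ↥(F ⊔ G) q = algebraMap F ↥(F ⊔ G) (algebraMap ℚ F q) := by
      have h2 : (algebraMap ℚ ↥(F ⊔ G)) = (algebraMap F ↥(F ⊔ G)).comp (algebraMap ℚ F) :=
        RingHom.ext_rat _ _
      rw [h2]
      rfl
    rw [h1]
    exact K'.algebraMap_mem _
  let W : IntermediateField ℚ QB :=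
    { carrier := {x | ∃ h : x ∈ F ⊔ G, (⟨x, h⟩ : ↥(F ⊔ G)) ∈ K'}
      mul_mem' := by
        rintro x y ⟨hx, hx'⟩ ⟨hy, hy'⟩
        exact ⟨mul_mem hx hy, mul_mem hx' hy'⟩
      add_mem' := by
        rintro x y ⟨hx, hx'⟩ ⟨hy, hy'⟩
        exact ⟨add_mem hx hy, add_mem hx' hy'⟩
      algebraMap_mem' := fun q => ⟨IntermediateField.algebraMap_mem _ q, hrat q⟩
      inv_mem' := by
        rintro x ⟨hx, hx'⟩
        exact ⟨inv_mem hx, inv_mem hx'⟩ }
  have h1 : F ≤ W := by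
    intro x hx
    refine ⟨le_sup_left (a := F) (b := G) hx, ?_⟩
    have h2 : (⟨x, le_sup_left (a := F) (b := G) hx⟩ : ↥(F ⊔ G)) =
        algebraMap F ↥(F ⊔ G) ⟨x, hx⟩ := by
      apply Subtype.ext
      rw [hF]
    rw [h2]
    exact K'.algebraMap_mem _
  let V : IntermediateField ℚ G :=
    { carrier := {x | algebraMap G ↥(F ⊔ G) x ∈ K'}
      mul_mem' := fun {x y} hx hy => by
        change algebraMap G ↥(F ⊔ G) (x * y) ∈ K'
        rw [map_mul]
        exact mul_mem hx hy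
      add_mem' := fun {x y} hx hy => by
        change algebraMap G ↥(F ⊔ G) (x + y) ∈ K'
        rw [map_add]
        exact add_mem hx hy
      algebraMap_mem' := fun q => by
        change algebraMap G ↥(F ⊔ G) (algebraMap ℚ G q) ∈ K'
        have h1 : algebraMap ℚ ↥(F ⊔ G) q = algebraMap G ↥(F ⊔ G) (algebraMap ℚ G q) := by
          have h2 : (algebraMap ℚ ↥(F ⊔ G)) = (algebraMap G ↥(F ⊔ G)).comp (algebraMap ℚ G) :=
            RingHom.ext_rat _ _
          rw [h2]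
          rfl
        rw [← h1]
        exact hrat q
      inv_mem' := fun x hx => by
        change algebraMap G ↥(F ⊔ G) x⁻¹ ∈ K'
        rw [map_inv₀]
        exact inv_mem hx }
  have h3 : V = ⊤ := by
    rw [eq_top_iff, ← hγ, IntermediateField.adjoin_simple_le_iff]
    exact IntermediateField.mem_adjoin_simple_self F _
  have h2 : G ≤ W := by
    intro x hx
    refine ⟨le_sup_right (a := F) (b := G) hx, ?_⟩
    have h4 : (⟨x, le_sup_right (a := F) (b := G) hx⟩ : ↥(F ⊔ G)) =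
        algebraMap G ↥(F ⊔ G) ⟨x, hx⟩ := by
      apply Subtype.ext
      rw [hG]
    rw [h4]
    have h5 : (⟨x, hx⟩ : G) ∈ V := by
      rw [h3]
      exact IntermediateField.mem_top
    exact h5
  rw [eq_top_iff]
  rintro ⟨x, hx⟩ -
  obtain ⟨h, h'⟩ := (sup_le h1 h2 : F ⊔ G ≤ W) hx
  exact h'

theorem sup_mem {N : ℕ} {S : Finset ℤ} {A B : ℤ} (hS : ∀ Q ∈ S, IsPr Q)
    {F G : IntermediateField ℚ QB} (hF : F ∈ ClsSet N S A B) (hG : G ∈ ClsSet N S A B) :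
    F ⊔ G ∈ ClsSet N S A B := by
  obtain ⟨iF, hF⟩ := hF
  obtain ⟨iG, hG⟩ := hG
  haveI := hF.gal
  haveI := hG.gal
  haveI : FiniteDimensional ℚ ↥(F ⊔ G) := inferInstance
  haveI iΩ : NumberField ↥(F ⊔ G) := nf_of _
  have n1 : @Normal ℚ F _ _ F.algebra' := hF.gal.to_normal
  have n2 : @Normal ℚ G _ _ G.algebra' := hG.gal.to_normal
  have n3 : @Normal ℚ ↥(F ⊔ G) _ _ (F ⊔ G).algebra' :=
    @IntermediateField.normal_sup ℚ QB _ _ _ F G n1 n2
  haveI : Normal ℚ ↥(F ⊔ G) := n3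
  haveI : IsGalois ℚ ↥(F ⊔ G) := ⟨⟩
  letI a1 : Algebra F ↥(F ⊔ G) := (IntermediateField.inclusion (le_sup_left)).toAlgebra
  letI a2 : Algebra G ↥(F ⊔ G) := (IntermediateField.inclusion (le_sup_right)).toAlgebra
  obtain ⟨γ, g, δ, hGen, -⟩ := Pool.Agent.N40.PQ.gen G
  have htop := top_of_sup F G a1 a2 (fun x => rfl) (fun x => rfl) hGen.top
  refine ⟨iΩ, cls_comp (M := F) (L := G) htop ?_ hS hF hG⟩
  refine ⟨g, hGen.monic, ?_⟩
  have h1 := hGen.root
  rw [aeval_def] at h1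
  exact h1

/-- The class is closed under isomorphisms. -/
theorem cls_equiv {N : ℕ} {S : Finset ℤ} {A B : ℤ} (hS : ∀ Q ∈ S, IsPr Q) {K F : Type} [Field K]
    [NumberField K] [Field F] [NumberField F] (e : K ≃+* F) (hK : InCls N S A B K) :
    InCls N S A B F := by
  haveI := hK.gal
  haveI : IsGalois ℚ F := IsGalois.of_algEquiv e.toRatAlgEquiv
  letI : Algebra K F := e.toRingHom.toAlgebra
  obtain ⟨γ, g, δ, hGen, -⟩ := Pool.Agent.N40.PQ.gen K
  have htop : K⟮algebraMap K F γ⟯ = ⊤ := by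
    rw [eq_top_iff]
    rintro x -
    obtain ⟨y, rfl⟩ := e.surjective x
    exact (K⟮algebraMap K F γ⟯).algebraMap_mem y
  refine cls_comp (M := K) (L := K) htop ?_ hS hK hK
  refine ⟨g, hGen.monic, ?_⟩
  have h1 := hGen.root
  rw [aeval_def] at h1
  exact h1

/-- The compositum of all fields in the class. -/
noncomputable def MX (N : ℕ) (S : Finset ℤ) (A B : ℤ) : IntermediateField ℚ QB :=
  sSup (ClsSet N S A B)

theorem range_mem {N : ℕ} {S : Finset ℤ} {A B : ℤ} (hS : ∀ Q ∈ S, IsPr Q) {K : Type} [Field K]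
    [NumberField K] (φ : K →+* QB) (hK : InCls N S A B K) :
    φ.toRatAlgHom.fieldRange ∈ ClsSet N S A B := by
  let e : K ≃ₐ[ℚ] φ.toRatAlgHom.fieldRange := AlgEquiv.ofInjectiveField φ.toRatAlgHom
  haveI : FiniteDimensional ℚ φ.toRatAlgHom.fieldRange := e.toLinearEquiv.finiteDimensional
  haveI : NumberField φ.toRatAlgHom.fieldRange := nf_of _
  exact ⟨inferInstance, cls_equiv hS (e : K ≃+* φ.toRatAlgHom.fieldRange) hK⟩

theorem emb_MX {N : ℕ} {S : Finset ℤ} {A B : ℤ} (hS : ∀ Q ∈ S, IsPr Q) {K : Type} [Field K]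
    [NumberField K] (φ : K →+* QB) (hK : InCls N S A B K) (x : K) : φ x ∈ MX N S A B :=
  (le_sSup (range_mem hS φ hK) : _ ≤ MX N S A B) ⟨x, rfl⟩

theorem mem_MX {N : ℕ} {S : Finset ℤ} {A B : ℤ} (hS : ∀ Q ∈ S, IsPr Q)
    (hne : (ClsSet N S A B).Nonempty) {x : QB} (hx : x ∈ MX N S A B) :
    ∃ F ∈ ClsSet N S A B, x ∈ F := by
  haveI : Nonempty (ClsSet N S A B) := hne.to_subtype
  rw [MX, sSup_eq_iSup'] at hx
  have hdir : Directed (· ≤ ·) fun F : ClsSet N S A B => (F : IntermediateField ℚ QB) := by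
    rintro ⟨F, hF⟩ ⟨G, hG⟩
    exact ⟨⟨F ⊔ G, sup_mem hS hF hG⟩, le_sup_left, le_sup_right⟩
  rw [← SetLike.mem_coe, IntermediateField.coe_iSup_of_directed hdir, Set.mem_iUnion] at hx
  obtain ⟨⟨F, hF⟩, hx⟩ := hx
  exact ⟨F, hF, hx⟩

/-- There are no points over the compositum. -/
theorem none_MX {N : ℕ} {S : Finset ℤ} {A B : ℤ} (hS : ∀ Q ∈ S, IsPr Q)
    (hne : (ClsSet N S A B).Nonempty) (hd : 4 * A ^ 3 + 27 * B ^ 2 ≠ 0)
    (hall : ∀ (M : Type) [Field M] [NumberField M], InCls N S A B M → GoodE M A B 1) (x y : QB)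
    (hx : x ∈ MX N S A B) (hy : y ∈ MX N S A B) : y ^ 2 ≠ x ^ 3 + A * x + B := by
  intro hxy
  obtain ⟨F, hF, hxF⟩ := mem_MX hS hne hx
  obtain ⟨G, hG, hyG⟩ := mem_MX hS hne hy
  obtain ⟨iΩ, hΩ⟩ := sup_mem hS hF hG
  have h1 := (hall ↥(F ⊔ G) hΩ).one (by norm_num)
  obtain ⟨x', hx'⟩ : ∃ x' : ↥(F ⊔ G), (x' : QB) = x := ⟨⟨x, le_sup_left (a := F) (b := G) hxF⟩, rfl⟩
  obtain ⟨y', hy'⟩ : ∃ y' : ↥(F ⊔ G), (y' : QB) = y := ⟨⟨y, le_sup_right (a := F) (b := G) hyG⟩, rfl⟩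
  have hxy' : y' ^ 2 = x' ^ 3 + A * x' + B := by
    apply Subtype.ext
    push_cast
    rw [hx', hy', hxy]
  have hΔ : ((Pool.Agent.N874.PP.sW (((A * 1 ^ 2 : ℤ)) : ↥(F ⊔ G))
      (((B * 1 ^ 3 : ℤ)) : ↥(F ⊔ G))).baseChange ↥(F ⊔ G)).toAffine.Δ ≠ 0 := by
    have e : ((Pool.Agent.N874.PP.sW (((A * 1 ^ 2 : ℤ)) : ↥(F ⊔ G))
      (((B * 1 ^ 3 : ℤ)) : ↥(F ⊔ G))).baseChange ↥(F ⊔ G)).toAffine.Δ =
        (((-16 * (4 * A ^ 3 + 27 * B ^ 2) : ℤ)) : ↥(F ⊔ G)) := by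
      simp only [Pool.Agent.N874.PP.sW, WeierstrassCurve.baseChange, WeierstrassCurve.Δ,
        WeierstrassCurve.b₂, WeierstrassCurve.b₄, WeierstrassCurve.b₆, WeierstrassCurve.b₈,
        WeierstrassCurve.toAffine, WeierstrassCurve.map]
      simp only [map_zero, map_intCast]
      push_cast
      ring
    rw [e, Int.cast_ne_zero]
    exact mul_ne_zero (by norm_num) hd
  have heq : ((Pool.Agent.N874.PP.sW (((A * 1 ^ 2 : ℤ)) : ↥(F ⊔ G))
      (((B * 1 ^ 3 : ℤ)) : ↥(F ⊔ G))).baseChange ↥(F ⊔ G)).toAffine.Equation x' y' := by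
    rw [WeierstrassCurve.Affine.equation_iff]
    simp only [Pool.Agent.N874.PP.sW, WeierstrassCurve.baseChange, WeierstrassCurve.toAffine,
      WeierstrassCurve.map]
    simp only [map_zero, map_intCast]
    push_cast
    linear_combination hxy'
  have hns := (WeierstrassCurve.Affine.equation_iff_nonsingular_of_Δ_ne_zero hΔ).1 heq
  exact WeierstrassCurve.Affine.Point.some_ne_zero hns (h1.elim _ _)

/-- The square roots of infinitely many primes. -/
theorem sqrt_MX {N : ℕ} {S : Finset ℤ} {A B : ℤ} (hS : ∀ Q ∈ S, IsPr Q ∧ Q % 8 = 1) {q : ℕ}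
    (hq : GoodQ A B S q) : ∃ r : QB, r ∈ MX N S A B ∧ r ^ 2 = q := by
  obtain ⟨r, hr⟩ := IsAlgClosed.exists_pow_nat_eq (q : QB) (n := 2) (by norm_num)
  refine ⟨r, ?_, hr⟩
  have hint : IsIntegral ℚ r := by
    refine ⟨X ^ 2 - C (q : ℚ), by monicity!, ?_⟩
    rw [← aeval_def]
    simp [hr]
  haveI : FiniteDimensional ℚ ℚ⟮r⟯ := IntermediateField.adjoin.finiteDimensional hint
  haveI : NumberField ℚ⟮r⟯ := nf_of _
  have hmin : minpoly ℚ r = X ^ 2 - C (q : ℚ) := by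
    refine (minpoly.eq_of_irreducible_of_monic ?_ ?_ (by monicity!)).symm
    · rw [X_pow_sub_C_irreducible_iff_of_prime Nat.prime_two]
      intro b hb
      have h9 : IsSquare (q : ℚ) := ⟨b, by rw [← hb]; ring⟩
      have h10 : IsSquare q := by exact_mod_cast h9
      exact hq.1.prime.irreducible.not_isSquare h10
    · simp [hr]
  have h2 : Module.finrank ℚ ℚ⟮r⟯ = 2 := by
    rw [IntermediateField.adjoin.finrank hint, hmin, natDegree_X_pow_sub_C]
  have hx : (IntermediateField.AdjoinSimple.gen ℚ r) ^ 2 = (q : ℚ⟮r⟯) := by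
    apply Subtype.ext
    push_cast
    rw [IntermediateField.AdjoinSimple.coe_gen, hr]
  have hcls : InCls N S A B ℚ⟮r⟯ := quad_cls hq hS ℚ⟮r⟯ h2 hx
  exact (le_sSup (⟨inferInstance, hcls⟩ : ℚ⟮r⟯ ∈ ClsSet N S A B) : _ ≤ MX N S A B)
    (IntermediateField.mem_adjoin_simple_self ℚ r)

end Pool.Agent.K6.H88.TC
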