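import Pool.Agent.K6.H88.TC.Fin
import Pool.Agent.K6.H88.TC.Max
import Pool.Agent.K6.H88.SC.Cnt

/-!
# The uniform theorem with the congruences for the section conjecture

Helper88 (project TC).
-/

set_option autoImplicit false
set_option linter.all false

open Polynomial IsDedekindDomain WeierstrassCurve WeierstrassCurve.Affine NumberField
open Pool.Agent.TH115.GD
open scoped Classical IntermediateField

namespace Pool.Agent.K6.H88.TC

open Pool.Agent.N922.PQ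
open Pool.Agent.N874.PP (Tup chA chB gq tau Two Ev Sq1 U0 sW IsBeta Rt)
open Pool.Agent.N874.PM (PLoc Lies SelR ShaR)
open Pool.Agent.K6.H88.TW (RkZero rkZero_of Adm)

/-- The uniform theorem, with the congruences at the prime `2`. -/
theorem mainE (N : ℕ) (K : Type) [Field K] [NumberField K] [IsGalois ℚ K] :
    ∃ S : Finset ℤ, (∀ Q ∈ S, IsPr Q ∧ Q % 8 = 1) ∧ (∀ Q ∈ S, Spl K Q) ∧
      ∃ c : ℝ, 0 < c ∧ ∃ H₀ : ℕ, ∀ H ≥ H₀, {p : ℤ × ℤ | Crv H p.1 p.2}.Finite ∧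
        c * ({p : ℤ × ℤ | Crv H p.1 p.2}.ncard : ℝ) ≤
          ({p : ℤ × ℤ | Crv H p.1 p.2 ∧ ((∀ P : ℤ, IsPr P → ¬ Unr K P → NZ p.1 p.2 P) ∧
            (∀ P : ℤ, IsPr P → P ≤ N → NZ p.1 p.2 P) ∧
            (∀ t : ℚ, t ^ 3 + (p.1 : ℚ) * t + (p.2 : ℚ) ≠ 0) ∧
            (Odd p.1 ∧ (4 : ℤ) ∣ p.1 - p.2) ∧
            ∀ (M : Type) [Field M] [NumberField M], InCls N S p.1 p.2 M →
              ∀ d : ℤ, (d % 4 = 1 ∨ d % 4 = 2) → Adm N p.1 p.2 d →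
                GoodE M p.1 p.2 d)}.ncard : ℝ) := by
  obtain ⟨κ, S, T, s, A, B, hLB, hS, hT, hdis, hNT, hKT, hKS, hmain⟩ := mainC N K
  refine ⟨S, fun Q hQ => ⟨(hS Q hQ).1, (hS Q hQ).2.1⟩, hKS, hmain _ ?_⟩
  intro X' a b hF ha3 hb3 hnb
  have H : Parts2 := parts2
  have ha : Odd a := Int.odd_iff.2 (by omega)
  have hb : Odd b := Int.odd_iff.2 (by omega)
  obtain ⟨L, i1, i2, θ, hc, hu, J, hJ, hsel⟩ := exists_base H hLB hS hF hnb hT
  have hD8 : (∏ Q ∈ J, Q) % 8 = 1 := prod_mod8 fun Q hQ => (hS Q (hJ hQ)).2.1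
  have hT1 : ∀ P ∈ T, NZ (a * (∏ Q ∈ J, Q) ^ 2) (b * (∏ Q ∈ J, Q) ^ 3) P := by
    intro P hPT
    refine nz_up (hT.2.2 P hPT).1.2 ?_ (fam_nt hT hF hPT)
    intro hd
    obtain ⟨Q, hQ, hPQ⟩ := (hT.2.2 P hPT).1.2.exists_mem_finset_dvd hd
    have h1 : Associated P Q := ((hT.2.2 P hPT).1.2.associated_of_dvd (hS Q (hJ hQ)).1.2 hPQ)
    have h2 : P = Q := by
      rcases Int.associated_iff.1 h1 with h | h
      · exact h
      · have := (hT.2.2 P hPT).1.1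
        have := (hS Q (hJ hQ)).1.1
        omega
    exact Finset.disjoint_left.1 hdis (hJ hQ) (h2 ▸ hPT)
  refine ⟨J, hJ, fun P hP hu => hT1 P (hKT P hP hu), fun P hP hPN => hT1 P (hNT P hP hPN),
    fun t ht => ?_, ?_, ?_⟩
  · have h1 := no_root_tw' (F := ℚ) (a := a) (b := b) (fun t ht => ?_) (D := ∏ Q ∈ J, Q)
      (by intro h0; rw [h0] at hD8; norm_num at hD8) t
    · exact h1 ht
    · refine no_root2 (fam_nt hT hF hT.1) (t : ℚ_[2]) ?_
      exact_mod_cast congrArg (fun x : ℚ => (x : ℚ_[2])) ht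
  · obtain ⟨D, hD⟩ : ∃ D, D = ∏ Q ∈ J, Q := ⟨_, rfl⟩
    rw [← hD] at hD8 ⊢
    obtain ⟨k, hk⟩ : ∃ k, D = 8 * k + 1 := ⟨D / 8, by omega⟩
    obtain ⟨i, hi⟩ : ∃ i, a = b + 4 * i := ⟨(a - b) / 4, by omega⟩
    have hDo : Odd D := Int.odd_iff.2 (by omega)
    refine ⟨ha.mul hDo.pow, ?_⟩
    change (4 : ℤ) ∣ a * D ^ 2 - b * D ^ 3
    have e : a * D ^ 2 - b * D ^ 3 = 4 * (i * D ^ 2 - 2 * k * b * D ^ 2) := by
      have h3 : a * D ^ 2 - b * D ^ 3 = (a - b) * D ^ 2 - b * D ^ 2 * (D - 1) := by ring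
      have h4 : a - b = 4 * i := by rw [hi]; ring
      have h5 : D - 1 = 8 * k := by rw [hk]; ring
      rw [h3, h4, h5]
      ring
    rw [e]
    exact dvd_mul_right _ _
  intro M _ _ hM d hd hadm
  haveI := hM.gal
  obtain ⟨n, hn⟩ := hM.deg
  have hN : ∀ P : ℤ, IsPr P → P ≤ N → NZ a b P := fun P hP h => fam_nt hT hF (hNT P hP h)
  have h1 := selT3 H Pool.Agent.N40.PQ.gen hS hF ha3 hb3 hT hdis hc hu hJ hsel M hn hM.two hM.spl
    (fun P hP h => by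
      rcases hM.ram P hP h with h2 | h2
      · exact hN P hP h2
      · exact nz_down h2) hd (adm_nz hN hadm)
  exact goodE_of M hM.two ha3 hb3 hD8 hadm.1 hF.sq.ne_zero h1

/-- The twists are good for the section conjecture. -/
theorem goodC_of {M : Type} [Field M] [NumberField M] {A B d : ℤ} (hA : Odd A)
    (hAB : (4 : ℤ) ∣ A - B) (hd : d % 4 = 1) (h : GoodE M A B d) :
    SC.GoodC (M := M) (𝓞 M) (A * d ^ 2, B * d ^ 3) := by
  obtain ⟨⟨h1, -, -, h2⟩, h3⟩ := h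
  have hdo : Odd d := Int.odd_iff.2 (by omega)
  refine ⟨⟨h1, h3 hd, h2⟩, hA.mul hdo.pow, ?_⟩
  obtain ⟨i, hi⟩ := hAB
  obtain ⟨l, hl⟩ : ∃ l, d = 4 * l + 1 := ⟨d / 4, by omega⟩
  change (4 : ℤ) ∣ A * d ^ 2 - B * d ^ 3
  have e : A * d ^ 2 - B * d ^ 3 = 4 * (i * d ^ 2 - l * B * d ^ 2) := by
    have h3 : A * d ^ 2 - B * d ^ 3 = (A - B) * d ^ 2 - B * d ^ 2 * (d - 1) := by ring
    have h5 : d - 1 = 4 * l := by rw [hl]; ring
    rw [h3, hi, h5]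
    ring
  rw [e]
  exact dvd_mul_right _ _

/-- A quadratic field in the class. -/
theorem quad_field {N : ℕ} {S : Finset ℤ} {A B : ℤ} (hS : ∀ Q ∈ S, IsPr Q ∧ Q % 8 = 1) {q : ℕ}
    (hq : GoodQ A B S q) : ∃ (M : Type) (_ : Field M) (_ : NumberField M),
      InCls N S A B M ∧ ∃ x : M, x ^ 2 = (q : M) := by
  obtain ⟨r, hr⟩ := IsAlgClosed.exists_pow_nat_eq (q : QB) (n := 2) (by norm_num)
  have hint : IsIntegral ℚ r := by
    refine ⟨X ^ 2 - C (q : ℚ), by monicity!, ?_⟩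
    rw [← aeval_def]
    simp [hr]
  haveI : FiniteDimensional ℚ ℚ⟮r⟯ := IntermediateField.adjoin.finiteDimensional hint
  haveI : NumberField ℚ⟮r⟯ := nf_of _
  have hmin : minpoly ℚ r = X ^ 2 - C (q : ℚ) := by
    refine (minpoly.eq_of_irreducible_of_monic ?_ ?_ (by monicity!)).symm
    · rw [X_pow_sub_C_irreducible_iff_of_prime Nat.prime_two]
      intro b hb
      have h9 : IsSquare (q : ℚ) := ⟨b, by rw [← hb]; ring⟩
      have h10 : IsSquare q := by exact_mod_cast h9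
      exact hq.1.prime.irreducible.not_isSquare h10
    · simp [hr]
  have h2 : Module.finrank ℚ ℚ⟮r⟯ = 2 := by
    rw [IntermediateField.adjoin.finrank hint, hmin, natDegree_X_pow_sub_C]
  have hx : (IntermediateField.AdjoinSimple.gen ℚ r) ^ 2 = (q : ℚ⟮r⟯) := by
    apply Subtype.ext
    push_cast
    rw [IntermediateField.AdjoinSimple.coe_gen, hr]
  exact ⟨ℚ⟮r⟯, inferInstance, inferInstance, quad_cls hq hS ℚ⟮r⟯ h2 hx, _, hx⟩

end Pool.Agent.K6.H88.TC
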