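import Pool.Agent.K6.H88.TC.PtsB

/-!
# The growth of the rank

Helper88 (project TC).
-/

set_option autoImplicit false
set_option linter.all false

open Polynomial IsDedekindDomain WeierstrassCurve WeierstrassCurve.Affine NumberField
open Pool.Agent.TH115.GD
open scoped Classical IntermediateField

namespace Pool.Agent.K6.H88.TC

open Pool.Agent.N922.PQ
open Pool.Agent.N874.PP (sW)

section descent

variable {A B : ℤ} {M : Type} [Field M] [NumberField M] [IsGalois ℚ M]

theorem act_act {K Ω₁ Ω₂ Ω₃ : Type} [Field K] [Field Ω₁] [Field Ω₂] [Field Ω₃] [Algebra K Ω₁]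
    [Algebra K Ω₂] [Algebra K Ω₃] (W : WeierstrassCurve K) (f : Ω₁ →ₐ[K] Ω₂) (g : Ω₂ →ₐ[K] Ω₃)
    (P : Pt W Ω₁) : act W g (act W f P) = act W (g.comp f) P :=
  Point.map_map (W' := W.toAffine) f g P

theorem act_inj {K Ω₁ Ω₂ : Type} [Field K] [Field Ω₁] [Field Ω₂] [Algebra K Ω₁]
    [Algebra K Ω₂] (W : WeierstrassCurve K) (f : Ω₁ →ₐ[K] Ω₂) : Function.Injective (act W f) :=
  Point.map_injective (W' := W.toAffine) (f := f)

variable {F : Type} [Field F] [NumberField F]

/-- Galois descent for points. -/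
theorem desc_pt (W : WeierstrassCurve ℚ) (i : F →ₐ[ℚ] M) (P : Pt W M)
    (h : ∀ τ ∈ i.fieldRange.fixingSubgroup, act W (ak τ) P = P) : ∃ Q : Pt W F, act W i Q = P := by
  rcases P with _ | ⟨x, y, hn⟩
  · exact ⟨0, map_zero _⟩
  · have hx : ∀ τ ∈ i.fieldRange.fixingSubgroup, τ x = x ∧ τ y = y := by
      intro τ hτ
      have h1 := h τ hτ
      have h2 : act W (ak τ) (Point.some x y hn) = Point.some (τ x) (τ y) _ :=
        Point.map_some (W' := W.toAffine) (f := ak τ) hn
      rw [h2] at h1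
      exact Point.some.inj h1
    have hmem : ∀ z : M, (∀ τ ∈ i.fieldRange.fixingSubgroup, τ z = z) → ∃ z' : F, i z' = z := by
      intro z hz
      rw [← AlgHom.mem_fieldRange, ← IsGalois.fixedField_fixingSubgroup i.fieldRange]
      exact fun τ => hz τ τ.2
    obtain ⟨x', hx'⟩ := hmem x fun τ hτ => (hx τ hτ).1
    obtain ⟨y', hy'⟩ := hmem y fun τ hτ => (hx τ hτ).2
    subst hx'
    subst hy'
    exact ⟨Point.some x' y' ((W.toAffine.baseChange_nonsingular i.injective x' y').mp hn),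
      Point.map_some (W' := W.toAffine) (f := i) _⟩

/-- The trace of points. -/
theorem exists_tr (W : WeierstrassCurve ℚ) (i : F →ₐ[ℚ] M) :
    ∃ tr : Pt W M →+ Pt W F, ∀ P, act W i (tr P) =
      ∑ h : i.fieldRange.fixingSubgroup, act W (ak (h : Gal(M/ℚ))) P := by
  have h1 : ∀ P : Pt W M, ∃ Q : Pt W F, act W i Q =
      ∑ h : i.fieldRange.fixingSubgroup, act W (ak (h : Gal(M/ℚ))) P := by
    intro P
    apply desc_pt
    intro τ hτ
    rw [map_sum]
    refine Fintype.sum_equiv (Equiv.mulLeft (⟨τ, hτ⟩ : i.fieldRange.fixingSubgroup)) _ _ fun h => ?_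
    rw [act_act]
    rfl
  choose f hf using h1
  refine ⟨{ toFun := f, map_zero' := ?_, map_add' := ?_ }, hf⟩
  · apply act_inj W i
    rw [hf, map_zero]
    exact Finset.sum_eq_zero fun h _ => map_zero _
  · intro P Q
    apply act_inj W i
    rw [hf, map_add, hf, hf, ← Finset.sum_add_distrib]
    exact Finset.sum_congr rfl fun h _ => map_add _ _ _

/-- The rank grows at most as much as the degree. -/
theorem grow_of (W : WeierstrassCurve ℚ) (hfg : AddGroup.FG (Pt W M)) (ψ : Pt W M →+ ZMod 2)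
    (hψ : ∀ P : Pt W M, (∀ τ : Gal(M/ℚ), ψ (act W (ak τ) P) = 0) → ∃ Q : Pt W M, P = (2 : ℕ) • Q)
    (i : F →ₐ[ℚ] M) (hfgF : AddGroup.FG (Pt W F))
    (h2F : ∀ P : Pt W F, (2 : ℕ) • P = 0 → P = 0) :
    Module.finrank ℤ (Pt W M) + Module.finrank ℚ F ≤
      Module.finrank ℤ (Pt W F) + Module.finrank ℚ M := by
  obtain ⟨tr, htr⟩ := exists_tr W i
  obtain ⟨c, hc⟩ := exists_coord hfgF h2F
  obtain ⟨R, hR, hR2⟩ := exists_sel i.fieldRange.fixingSubgroup
  have hFi : Module.finrank ℚ i.fieldRange = Module.finrank ℚ F :=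
    ((AlgEquiv.ofInjectiveField i).toLinearEquiv.finrank_eq).symm
  rw [← IntermediateField.finrank_eq_fixingSubgroup_index, IsGalois.card_aut_eq_finrank, hFi] at hR
  have h1 := rank_card hfg (W := (Fin (Module.finrank ℤ (Pt W F)) → ZMod 2) × (R → ZMod 2))
    ((c.comp tr).prod (Pi.addMonoidHom fun ρ : R => ψ.comp (act W (ak (ρ : Gal(M/ℚ))))))
    (fun P hP => by
      have hP1 : c (tr P) = 0 := congrArg Prod.fst hP
      have hP2 : ∀ ρ ∈ R, ψ (act W (ak ρ) P) = 0 := fun ρ hρ =>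
        congrFun (congrArg Prod.snd hP) ⟨ρ, hρ⟩
      apply hψ
      refine hR2 (fun τ => ψ (act W (ak τ) P)) (fun τ => ?_) hP2
      obtain ⟨Q, hQ⟩ := hc _ hP1
      have h3 := htr P
      rw [hQ, map_nsmul] at h3
      have h4 : ∑ h : i.fieldRange.fixingSubgroup, ψ (act W (ak (τ * (h : Gal(M/ℚ)))) P) =
          ψ (act W (ak τ) (∑ h : i.fieldRange.fixingSubgroup, act W (ak (h : Gal(M/ℚ))) P)) := by
        rw [map_sum, map_sum]
        refine Finset.sum_congr rfl fun h _ => ?_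
        rw [act_act]
        rfl
      rw [h4, ← h3, map_nsmul, map_nsmul]
      have h5 : ∀ z : ZMod 2, (2 : ℕ) • z = 0 := by decide
      exact h5 _)
  rw [Nat.card_prod, Nat.card_fun, Nat.card_fun, Nat.card_zmod, Nat.card_eq_fintype_card,
    Fintype.card_fin, ← pow_add] at h1
  have h2 := (Nat.pow_le_pow_iff_right (by norm_num : 1 < 2)).1 h1
  omega

end descent

end Pool.Agent.K6.H88.TC
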