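import Pool.Agent.W401.Cheb.Main
import Pool.Agent.K6.H88.TC.Fin

/-!
# Infinitely many quadratic fields in the class

Helper88 (project TC).
-/

set_option autoImplicit false
set_option linter.all false

open Polynomial NumberField
open scoped Classical IntermediateField

namespace Pool.Agent.K6.H88.TC

open Pool.Agent.W401.Cheb (xp HasFrob infinite_frob)

/-- an element fixed by the Frobenius automorphism -/
theorem fixed_frob {q : ℕ} [hq : Fact q.Prime] {k : Type*} [Field k] [Algebra (ZMod q) k] (x : k)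
    (hx : x ^ q = x) : ∃ c : ZMod q, algebraMap (ZMod q) k c = x := by
  have hne : (Polynomial.X ^ q - Polynomial.X : Polynomial k) ≠ 0 :=
    FiniteField.X_pow_card_sub_X_ne_zero k hq.out.one_lt
  set S : Finset k := Finset.univ.image (algebraMap (ZMod q) k) with hS
  have hSc : S.card = q := by
    rw [hS, Finset.card_image_of_injective _ (algebraMap (ZMod q) k).injective, Finset.card_univ,
      ZMod.card]
  have hmem : ∀ y : k, y ∈ (Polynomial.X ^ q - Polynomial.X : Polynomial k).roots.toFinset ↔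
      y ^ q = y := by
    intro y
    rw [Multiset.mem_toFinset, Polynomial.mem_roots hne, Polynomial.IsRoot.def]
    simp [sub_eq_zero]
  have hsub : S ⊆ (Polynomial.X ^ q - Polynomial.X : Polynomial k).roots.toFinset := by
    intro y hy
    obtain ⟨c, -, rfl⟩ := Finset.mem_image.1 hy
    rw [hmem, ← map_pow, ZMod.pow_card]
  have hcard : (Polynomial.X ^ q - Polynomial.X : Polynomial k).roots.toFinset.card ≤ S.card := by
    rw [hSc]
    calc _ ≤ Multiset.card (Polynomial.X ^ q - Polynomial.X : Polynomial k).roots :=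
          Multiset.toFinset_card_le _
      _ ≤ (Polynomial.X ^ q - Polynomial.X : Polynomial k).natDegree := Polynomial.card_roots' _
      _ = q := FiniteField.X_pow_card_sub_X_natDegree_eq k hq.out.one_lt
  have he := Finset.eq_of_subset_of_card_le hsub hcard
  have hxS : x ∈ S := by rw [he, hmem]; exact hx
  obtain ⟨c, -, hc⟩ := Finset.mem_image.1 hxS
  exact ⟨c, hc⟩

/-- a homomorphism with given Frobenius -/
theorem exists_hom {L : Type} [Field L] [NumberField L] (g : Gal(L/ℚ)) {p : ℕ} (hp : p.Prime)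
    (h : xp L g p ≠ 0) : haveI : Fact p.Prime := ⟨hp⟩
    ∃ φ : 𝓞 L →+* AlgebraicClosure (ZMod p), ∀ x : 𝓞 L, φ (g • x) = φ x ^ p := by
  have : Fact p.Prime := ⟨hp⟩
  unfold xp at h
  rw [dif_pos hp] at h
  have h1 : Nonempty {φ : 𝓞 L →+* AlgebraicClosure (ZMod p) // HasFrob p φ g} := by
    by_contra hcon
    rw [not_nonempty_iff] at hcon
    exact h Nat.card_of_isEmpty
  obtain ⟨φ, hφ⟩ := h1
  exact ⟨φ, hφ⟩

/-- An automorphism of order three fixes square roots. -/
theorem ord3 {L : Type} [Field L] [CharZero L] [Algebra ℚ L] {τ : Gal(L/ℚ)} (h3 : τ ^ 3 = 1) {x : L}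
    (hx : τ (x ^ 2) = x ^ 2) : τ x = x := by
  have h1 : (τ x - x) * (τ x + x) = 0 := by
    rw [map_pow] at hx
    linear_combination hx
  rcases mul_eq_zero.1 h1 with h | h
  · exact sub_eq_zero.1 h
  · have h2 : τ x = -x := eq_neg_of_add_eq_zero_left h
    have h4 : (τ ^ 3) x = -x := by
      change τ (τ (τ x)) = -x
      rw [h2, map_neg, h2, neg_neg, h2]
    rw [h3] at h4
    change x = -x at h4
    have h5 : x = 0 := by
      have : (2 : L) * x = 0 := by linear_combination h4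
      exact (mul_eq_zero.1 this).resolve_left two_ne_zero
    rw [h5, map_zero]

/-- The polynomial. -/
noncomputable def bigF (A B : ℤ) (S : Finset ℤ) : ℚ[X] :=
  (X ^ 3 + C (A : ℚ) * X + C (B : ℚ)) * ((X ^ 2 + 1) * ∏ Q ∈ S, (X ^ 2 - C (Q : ℚ)))

theorem bigF_ne (A B : ℤ) (S : Finset ℤ) : bigF A B S ≠ 0 := by
  unfold bigF
  refine mul_ne_zero ?_ (mul_ne_zero ?_ ?_)
  · exact (by monicity! : (X ^ 3 + C (A : ℚ) * X + C (B : ℚ) : ℚ[X]).Monic).ne_zero
  · exact (by monicity! : (X ^ 2 + 1 : ℚ[X]).Monic).ne_zero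
  · exact Finset.prod_ne_zero_iff.2 fun Q _ =>
      (by monicity! : (X ^ 2 - C (Q : ℚ) : ℚ[X]).Monic).ne_zero

/-- The field and the automorphism. -/
theorem exists_tau (A B : ℤ) (hirr : ∀ t : ℚ, t ^ 3 + (A : ℚ) * t + (B : ℚ) ≠ 0) (S : Finset ℤ) :
    ∃ (L : Type) (_ : Field L) (_ : NumberField L) (_ : IsGalois ℚ L) (τ : Gal(L/ℚ)) (α : L),
      α ^ 3 + (A : L) * α + (B : L) = 0 ∧
      (∀ x : L, x ^ 3 + (A : L) * x + (B : L) = 0 → τ x ≠ x) ∧ τ ^ 3 = 1 ∧
      (∃ i : L, i ^ 2 = -1 ∧ τ i = i) ∧ ∀ Q ∈ S, ∃ r : L, r ^ 2 = (Q : L) ∧ τ r = r := by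
  set f : ℚ[X] := bigF A B S with hf
  have hspl : IsSplittingField ℚ f.SplittingField f := by
    convert IsSplittingField.splittingField f
    exact Subsingleton.elim _ _
  have hnor : Normal ℚ f.SplittingField := Normal.of_isSplittingField f
  have hsep : Algebra.IsSeparable ℚ f.SplittingField :=
    Algebra.IsAlgebraic.isSeparable_of_perfectField
  have hgal : IsGalois ℚ f.SplittingField := ⟨⟩
  have hnum : NumberField f.SplittingField :=
    { to_charZero := inferInstance, to_finiteDimensional := inferInstance }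
  obtain ⟨L, hL⟩ : ∃ L : Type, L = f.SplittingField := ⟨_, rfl⟩
  obtain ⟨iF, iN, iG, iS⟩ : ∃ (_ : Field L) (_ : NumberField L) (_ : IsGalois ℚ L),
      IsSplittingField ℚ L f := by
    subst hL
    exact ⟨inferInstance, hnum, hgal, hspl⟩
  have hs := iS.splits'
  have hmap : f.map (algebraMap ℚ L) ≠ 0 := by
    rw [Ne, Polynomial.map_eq_zero]
    exact bigF_ne A B S
  have s1 : ((X ^ 3 + C (A : ℚ) * X + C (B : ℚ) : ℚ[X]).map (algebraMap ℚ L)).Splits :=
    hs.of_dvd hmap (Polynomial.map_dvd _ (dvd_mul_right _ _))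
  have s2 : ((X ^ 2 + 1 : ℚ[X]).map (algebraMap ℚ L)).Splits :=
    hs.of_dvd hmap (Polynomial.map_dvd _ (Dvd.dvd.mul_left (dvd_mul_right _ _) _))
  have s3 : ∀ Q ∈ S, ((X ^ 2 - C (Q : ℚ) : ℚ[X]).map (algebraMap ℚ L)).Splits := fun Q hQ =>
    hs.of_dvd hmap (Polynomial.map_dvd _ (Dvd.dvd.mul_left (Dvd.dvd.mul_left
      (Finset.dvd_prod_of_mem (fun Q : ℤ => (X ^ 2 - C (Q : ℚ) : ℚ[X])) hQ) _) _))
  obtain ⟨α, hα⟩ := s1.exists_eval_eq_zero (by
    rw [degree_map]
    have : (X ^ 3 + C (A : ℚ) * X + C (B : ℚ) : ℚ[X]).degree = 3 := by compute_degree!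
    rw [this]; decide)
  obtain ⟨i, hi⟩ := s2.exists_eval_eq_zero (by
    rw [degree_map]
    have : (X ^ 2 + 1 : ℚ[X]).degree = 2 := by compute_degree!
    rw [this]; decide)
  have hα' : α ^ 3 + (A : L) * α + (B : L) = 0 := by simpa using hα
  have hi' : i ^ 2 = -1 := by
    have : i ^ 2 + 1 = 0 := by simpa using hi
    linear_combination this
  -- degree
  have hirr' : Irreducible (X ^ 3 + C (A : ℚ) * X + C (B : ℚ) : ℚ[X]) := Pool.Agent.N922.PQ.irr_tw' hirr
  have hmin : minpoly ℚ α = X ^ 3 + C (A : ℚ) * X + C (B : ℚ) := by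
    refine (minpoly.eq_of_irreducible_of_monic hirr' ?_ (by monicity!)).symm
    simpa using hα'
  have hdeg : Module.finrank ℚ ℚ⟮α⟯ = 3 := by
    rw [IntermediateField.adjoin.finrank (Algebra.IsIntegral.isIntegral α), hmin]
    compute_degree!
  have h3 : 3 ∣ Nat.card Gal(L/ℚ) := by
    rw [IsGalois.card_aut_eq_finrank, ← hdeg]
    exact ⟨_, (Module.finrank_mul_finrank ℚ ℚ⟮α⟯ L).symm⟩
  haveI := Fact.mk Nat.prime_three
  obtain ⟨τ, hτ⟩ := exists_prime_orderOf_dvd_card' 3 h3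
  have hτ3 : τ ^ 3 = 1 := by
    rw [← hτ]
    exact pow_orderOf_eq_one τ
  have hτ1 : τ ≠ 1 := by
    intro h
    rw [h, orderOf_one] at hτ
    norm_num at hτ
  have hint : ∀ (n : ℤ), τ (n : L) = n := fun n => map_intCast τ n
  refine ⟨L, iF, iN, iG, τ, α, hα', ?_, hτ3, ⟨i, hi', ?_⟩, ?_⟩
  · intro x hx hτx
    apply hτ1
    -- all the zeros of `f` are fixed
    have hfix : ∀ y : L, y ^ 3 + (A : L) * y + (B : L) = 0 → τ y = y := by
      intro y hy
      have h4 : (y - x) * (y ^ 2 + x * y + x ^ 2 + A) = 0 := by linear_combination hy - hx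
      rcases mul_eq_zero.1 h4 with h | h
      · rw [sub_eq_zero.1 h, hτx]
      · have h5 : τ (2 * y + x) = 2 * y + x := by
          apply ord3 hτ3
          have h6 : (2 * y + x) ^ 2 = -3 * x ^ 2 - 4 * (A : L) := by linear_combination 4 * h
          rw [h6, map_sub, map_mul, map_mul, map_pow, hτx, hint, map_neg, map_ofNat, map_ofNat]
        rw [map_add, map_mul, hτx, map_ofNat] at h5
        have h7 : (2 : L) * (τ y - y) = 0 := by linear_combination h5
        exact sub_eq_zero.1 ((mul_eq_zero.1 h7).resolve_left two_ne_zero)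
    have key : (τ : L →ₐ[ℚ] L) = ((1 : Gal(L/ℚ)) : L →ₐ[ℚ] L) := by
      refine AlgHom.ext_of_adjoin_eq_top iS.adjoin_rootSet' fun y hy => ?_
      have h8 := (Polynomial.mem_rootSet.1 hy).2
      change τ y = y
      rw [hf, bigF, map_mul, map_mul, map_prod] at h8
      rcases mul_eq_zero.1 h8 with h | h
      · exact hfix y (by simpa using h)
      rcases mul_eq_zero.1 h with h | h
      · apply ord3 hτ3
        have h9 : y ^ 2 = -1 := by
          have : y ^ 2 + 1 = 0 := by simpa using h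
          linear_combination this
        rw [h9, map_neg, map_one]
      · obtain ⟨Q, hQ, h9⟩ := Finset.prod_eq_zero_iff.1 h
        apply ord3 hτ3
        have h10 : y ^ 2 = (Q : L) := by
          have : y ^ 2 - (Q : L) = 0 := by simpa using h9
          linear_combination this
        rw [h10, hint]
    exact AlgEquiv.ext fun y => DFunLike.congr_fun key y
  · apply ord3 hτ3
    rw [hi', map_neg, map_one]
  · intro Q hQ
    obtain ⟨r, hr⟩ := (s3 Q hQ).exists_eval_eq_zero (by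
      rw [degree_map]
      have : (X ^ 2 - C (Q : ℚ) : ℚ[X]).degree = 2 := by compute_degree!
      rw [this]; decide)
    have hr' : r ^ 2 = (Q : L) := by
      have : r ^ 2 - (Q : L) = 0 := by simpa using hr
      linear_combination this
    exact ⟨r, hr', ord3 hτ3 (by rw [hr', hint])⟩

/-- The integral element. -/
noncomputable def mkInt {L : Type} [Field L] [NumberField L] (x : L) (hx : IsIntegral ℤ x) : 𝓞 L :=
  ⟨x, hx⟩

theorem int_of_sq {L : Type} [Field L] [NumberField L] {x : L} {n : ℤ} (h : x ^ 2 = (n : L)) :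
    IsIntegral ℤ x := by
  refine ⟨X ^ 2 - C n, by monicity!, ?_⟩
  rw [← aeval_def]
  simp only [map_sub, map_pow, aeval_X, aeval_C, h]
  simp

/-- The primes. -/
def GoodQ (A B : ℤ) (S : Finset ℤ) (q : ℕ) : Prop :=
  q.Prime ∧ q % 4 = 1 ∧ (∀ Q ∈ S, ¬ Q ∣ (q : ℤ) ∧ ∃ r : ℤ, Q ∣ r ^ 2 - q) ∧ NZ A B q

theorem inf_q {A B : ℤ} (hd : 4 * A ^ 3 + 27 * B ^ 2 ≠ 0)
    (hirr : ∀ t : ℚ, t ^ 3 + (A : ℚ) * t + (B : ℚ) ≠ 0) {S : Finset ℤ}
    (hS : ∀ Q ∈ S, Pool.Agent.N922.PQ.IsPr Q ∧ Q % 8 = 1) : {q : ℕ | GoodQ A B S q}.Infinite := by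
  obtain ⟨L, iF, iN, iG, τ, α, hα, hτn, hτ3, ⟨i, hi, hτi⟩, hr⟩ := exists_tau A B hirr S
  have hinf := infinite_frob L τ
  -- the excluded primes
  obtain ⟨D, hD⟩ : ∃ D : ℤ, D = 2 * (4 * A ^ 3 + 27 * B ^ 2) * ∏ Q ∈ S, Q := ⟨_, rfl⟩
  have hD0 : D ≠ 0 := by
    rw [hD]
    refine mul_ne_zero (mul_ne_zero two_ne_zero hd) (Finset.prod_ne_zero_iff.2 fun Q hQ => ?_)
    exact (hS Q hQ).1.1.ne'
  have hfin : {p : ℕ | (p : ℤ) ∣ D}.Finite := by
    refine (Set.finite_Iic D.natAbs).subset fun p hp => ?_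
    have h1 : p ∣ D.natAbs := Int.natCast_dvd.1 hp
    exact Nat.le_of_dvd (Int.natAbs_pos.2 hD0) h1
  refine (hinf.diff hfin).mono ?_
  rintro p ⟨⟨hp, hxp⟩, hpD⟩
  have hpD' : ¬ (p : ℤ) ∣ D := hpD
  haveI : Fact p.Prime := ⟨hp⟩
  obtain ⟨φ, hφ⟩ := exists_hom τ hp hxp
  have hint : ∀ (n : ℤ), φ (n : 𝓞 L) = n := fun n => map_intCast φ n
  have hp0 : ∀ n : ℤ, ((n : ℤ) : AlgebraicClosure (ZMod p)) = 0 → (p : ℤ) ∣ n := by
    intro n hn
    exact (CharP.intCast_eq_zero_iff (AlgebraicClosure (ZMod p)) p n).1 hn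
  have hp2 : p ≠ 2 := by
    rintro rfl
    apply hpD'
    rw [hD]
    exact Dvd.intro _ (by push_cast; ring : ((2 : ℕ) : ℤ) * ((4 * A ^ 3 + 27 * B ^ 2) * ∏ Q ∈ S, Q) = _)
  have hpd : ¬ (p : ℤ) ∣ 4 * A ^ 3 + 27 * B ^ 2 := by
    intro h
    apply hpD'
    rw [hD]
    exact Dvd.dvd.mul_right (Dvd.dvd.mul_left h _) _
  -- square roots
  have hsq : ∀ (x : L) (n : ℤ), x ^ 2 = (n : L) → τ x = x → ∃ c : ZMod p, c ^ 2 = (n : ZMod p) := by
    intro x n hx hτx
    obtain ⟨y, hy⟩ : ∃ y : 𝓞 L, y = mkInt x (int_of_sq hx) := ⟨_, rfl⟩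
    have hy1 : (y : L) = x := by rw [hy]; rfl
    have hy2 : y ^ 2 = (n : 𝓞 L) := by
      apply FaithfulSMul.algebraMap_injective (𝓞 L) L
      rw [map_pow, map_intCast]
      change (y : L) ^ 2 = _
      rw [hy1, hx]
    have hy3 : τ • y = y := by
      apply RingOfIntegers.ext
      change τ (y : L) = (y : L)
      rw [hy1, hτx]
    have h1 := hφ y
    rw [hy3] at h1
    obtain ⟨c, hc⟩ := fixed_frob (φ y) h1.symm
    refine ⟨c, ?_⟩
    apply (algebraMap (ZMod p) (AlgebraicClosure (ZMod p))).injective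
    rw [map_pow, hc, ← map_pow, hy2, hint, map_intCast]
  have h4 : p % 4 = 1 := by
    obtain ⟨c, hc⟩ := hsq i (-1) (by rw [hi]; norm_num) hτi
    have h1 : IsSquare (-1 : ZMod p) := ⟨c, by rw [← pow_two, hc]; norm_num⟩
    have h2 := ZMod.exists_sq_eq_neg_one_iff.1 h1
    have h3 := hp.eq_two_or_odd
    omega
  refine ⟨hp, h4, fun Q hQ => ?_, ?_⟩
  · obtain ⟨hQ1, hQ8⟩ := hS Q hQ
    obtain ⟨Q', rfl⟩ : ∃ Q' : ℕ, Q = Q' := ⟨Q.toNat, by have := hQ1.1; omega⟩
    have hQp : Q'.Prime := Nat.prime_iff_prime_int.2 hQ1.2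
    haveI : Fact Q'.Prime := ⟨hQp⟩
    have hne : Q' ≠ p := by
      rintro rfl
      apply hpD'
      rw [hD]
      exact Dvd.dvd.mul_left (Finset.dvd_prod_of_mem (fun Q : ℤ => Q) hQ) _
    refine ⟨fun h => hne ?_, ?_⟩
    · have h1 : Q' ∣ p := by exact_mod_cast h
      exact (Nat.prime_dvd_prime_iff_eq hQp hp).1 h1
    · obtain ⟨r, hr1, hr2⟩ := hr _ hQ
      obtain ⟨c, hc⟩ := hsq r (Q' : ℤ) hr1 hr2
      have h1 : IsSquare (Q' : ZMod p) := ⟨c, by rw [← pow_two, hc]; push_cast; rfl⟩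
      have hQ4 : Q' % 4 = 1 := by omega
      have h2 : IsSquare (p : ZMod Q') :=
        (ZMod.exists_sq_eq_prime_iff_of_mod_four_eq_one (p := p) (q := Q') h4 (by
          rintro rfl
          norm_num at hQ4)).1 h1
      obtain ⟨e, he⟩ := h2
      obtain ⟨r', hr'⟩ : ∃ r' : ℤ, (r' : ZMod Q') = e := ZMod.intCast_surjective e
      refine ⟨r', ?_⟩
      rw [← ZMod.intCast_zmod_eq_zero_iff_dvd]
      push_cast
      rw [hr', he]
      ring
  · -- no zero
    intro z hz
    have hαi : ∀ x : L, x ^ 3 + (A : L) * x + (B : L) = 0 → IsIntegral ℤ x := by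
      intro x hx
      refine ⟨X ^ 3 + C A * X + C B, by monicity!, ?_⟩
      rw [← aeval_def]
      simp only [map_add, map_mul, map_pow, aeval_X, aeval_C]
      simpa using hx
    have hτr : ∀ x : L, x ^ 3 + (A : L) * x + (B : L) = 0 →
        (τ x) ^ 3 + (A : L) * τ x + (B : L) = 0 := by
      intro x hx
      have h1 := congrArg τ hx
      rw [map_zero, map_add, map_add, map_mul, map_pow, map_intCast, map_intCast] at h1
      exact h1
    have hβ := hτr α hα
    have hγ := hτr _ hβ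
    obtain ⟨β, hβd⟩ : ∃ β, β = τ α := ⟨_, rfl⟩
    obtain ⟨γ, hγd⟩ : ∃ γ, γ = τ (τ α) := ⟨_, rfl⟩
    have n1 : β ≠ α := by rw [hβd]; exact hτn α hα
    have n2 : γ ≠ β := by rw [hβd, hγd]; exact hτn _ hβ
    have n3 : α ≠ γ := by
      intro h
      have h1 : τ γ = α := by
        rw [hγd]
        change (τ ^ 3) α = α
        rw [hτ3]
        rfl
      rw [← h] at h1
      exact hτn α hα h1
    rw [← hγd] at hγ
    rw [← hβd] at hβ
    have q1 : α ^ 2 + α * β + β ^ 2 + A = 0 := by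
      have h1 : (β - α) * (α ^ 2 + α * β + β ^ 2 + A) = 0 := by linear_combination hβ - hα
      exact (mul_eq_zero.1 h1).resolve_left (sub_ne_zero.2 n1)
    have q2 : α ^ 2 + α * γ + γ ^ 2 + A = 0 := by
      have h1 : (γ - α) * (α ^ 2 + α * γ + γ ^ 2 + A) = 0 := by linear_combination hγ - hα
      exact (mul_eq_zero.1 h1).resolve_left (sub_ne_zero.2 n3.symm)
    have q3 : α + β + γ = 0 := by
      have h1 : (γ - β) * (α + β + γ) = 0 := by linear_combination q2 - q1
      exact (mul_eq_zero.1 h1).resolve_left (sub_ne_zero.2 n2)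
    -- the factorisation
    have hfac : ((z : L) - α) * ((z : L) - β) * ((z : L) - γ) = (z : L) ^ 3 + A * z + B := by
      have e : γ = -α - β := by linear_combination q3
      rw [e]
      linear_combination ((z : L) - α) * (-q1) - hα
    -- reduction modulo `p`
    have hred : ∀ (u : L), u ^ 3 + (A : L) * u + (B : L) = 0 →
        ∀ (y : 𝓞 L), (y : L) = u → φ y = (z : AlgebraicClosure (ZMod p)) → False := by
      intro u hu y hy hyz
      obtain ⟨v, hv⟩ : ∃ v : 𝓞 L, v = τ • y := ⟨_, rfl⟩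
      have hv1 : (v : L) = τ u := by
        rw [hv, ← hy]
        rfl
      have hv2 : φ v = (z : AlgebraicClosure (ZMod p)) := by
        rw [hv, hφ, hyz]
        have h1 : ((z : ZMod p)) ^ p = (z : ZMod p) := ZMod.pow_card _
        have h2 := congrArg (algebraMap (ZMod p) (AlgebraicClosure (ZMod p))) h1
        rw [map_pow, map_intCast] at h2
        exact h2
      have h1 : y ^ 2 + y * v + v ^ 2 + (A : 𝓞 L) = 0 := by
        apply FaithfulSMul.algebraMap_injective (𝓞 L) L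
        rw [map_zero, map_add, map_add, map_add, map_mul, map_pow, map_pow, map_intCast]
        change (y : L) ^ 2 + (y : L) * (v : L) + (v : L) ^ 2 + (A : L) = 0
        rw [hy, hv1]
        have h2 : (τ u - u) * (u ^ 2 + u * τ u + (τ u) ^ 2 + A) = 0 := by
          linear_combination hτr u hu - hu
        exact (mul_eq_zero.1 h2).resolve_left (sub_ne_zero.2 (hτn u hu))
      have h2 := congrArg φ h1
      rw [map_zero, map_add, map_add, map_add, map_mul, map_pow, map_pow, hyz, hv2, hint] at h2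
      have h3 : (p : ℤ) ∣ 3 * z ^ 2 + A := by
        apply hp0
        push_cast
        linear_combination h2
      apply hpd
      have e : 4 * A ^ 3 + 27 * B ^ 2 = (4 * A ^ 2 + 3 * (2 * A * z - 3 * B) * z) * (3 * z ^ 2 + A) -
          9 * (2 * A * z - 3 * B) * (z ^ 3 + A * z + B) := by ring
      rw [e]
      exact dvd_sub (h3.mul_left _) (hz.mul_left _)
    obtain ⟨a', ha'⟩ : ∃ y : 𝓞 L, (y : L) = α := ⟨mkInt α (hαi α hα), rfl⟩
    obtain ⟨b', hb'⟩ : ∃ y : 𝓞 L, (y : L) = β := ⟨mkInt β (hαi β hβ), rfl⟩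
    obtain ⟨c', hc'⟩ : ∃ y : 𝓞 L, (y : L) = γ := ⟨mkInt γ (hαi γ hγ), rfl⟩
    have h5 : ((z : 𝓞 L) - a') * ((z : 𝓞 L) - b') * ((z : 𝓞 L) - c') =
        ((z ^ 3 + A * z + B : ℤ) : 𝓞 L) := by
      apply FaithfulSMul.algebraMap_injective (𝓞 L) L
      rw [map_mul, map_mul, map_sub, map_sub, map_sub, map_intCast, map_intCast]
      change ((z : L) - (a' : L)) * ((z : L) - (b' : L)) * ((z : L) - (c' : L)) = _
      rw [ha', hb', hc', hfac]
      push_cast
      rfl
    have h6 := congrArg φ h5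
    have h7 : ((z ^ 3 + A * z + B : ℤ) : AlgebraicClosure (ZMod p)) = 0 :=
      (CharP.intCast_eq_zero_iff (AlgebraicClosure (ZMod p)) p _).2 hz
    rw [hint, h7, map_mul, map_mul, map_sub, map_sub, map_sub, hint] at h6
    rcases mul_eq_zero.1 h6 with h | h
    · rcases mul_eq_zero.1 h with h | h
      · exact hred α hα a' ha' (sub_eq_zero.1 h).symm
      · exact hred β hβ b' hb' (sub_eq_zero.1 h).symm
    · exact hred γ hγ c' hc' (sub_eq_zero.1 h).symm

end Pool.Agent.K6.H88.TC
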