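import Pool.Agent.K6.H88.TC.SelT

/-!
# The explicit 2-descent map

Helper88 (project TC).
-/

set_option autoImplicit false
set_option linter.all false

open Polynomial WeierstrassCurve WeierstrassCurve.Affine
open scoped Classical

namespace Pool.Agent.K6.H88.TC

section kum

variable {M : Type} [Field M] [CharZero M] {A B : M}

/-- The curve `y ^ 2 = x ^ 3 + A x + B`. -/
def cW (A B : M) : Affine M := ⟨0, 0, 0, A, B⟩

theorem cW_eq {x y : M} : (cW A B).Equation x y ↔ y ^ 2 = x ^ 3 + A * x + B := by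
  rw [WeierstrassCurve.Affine.equation_iff]
  simp only [cW]
  constructor
  · intro h
    linear_combination h
  · intro h
    linear_combination h

variable {Ω : Type} [Field Ω] [Algebra M Ω] {t : Ω}

/-- The map `P ↦ x(P) - t`. -/
noncomputable def kap (A B : M) (t : Ω) : (cW A B).Point → Ω
  | .zero => 1
  | .some x _ _ => algebraMap M Ω x - t

theorem kap_zero : kap A B t 0 = 1 := rfl

theorem kap_some {x y : M} (h : (cW A B).Nonsingular x y) :
    kap A B t (.some x y h) = algebraMap M Ω x - t := rfl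

theorem kap_neg (P : (cW A B).Point) : kap A B t (-P) = kap A B t P := by
  rcases P with _ | ⟨x, y, h⟩
  · rfl
  · rfl

/-- The map is a homomorphism modulo squares. -/
theorem kap_add (ht : t ^ 3 + algebraMap M Ω A * t + algebraMap M Ω B = 0)
    (P Q : (cW A B).Point) : IsSquare (kap A B t P * kap A B t Q * kap A B t (P + Q)) := by
  rcases P with _ | ⟨x₁, y₁, h₁⟩
  · change IsSquare (kap A B t 0 * kap A B t Q * kap A B t (0 + Q))
    rw [zero_add, kap_zero, one_mul]
    exact ⟨_, rfl⟩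
  rcases Q with _ | ⟨x₂, y₂, h₂⟩
  · change IsSquare (kap A B t _ * kap A B t 0 * kap A B t (_ + 0))
    rw [add_zero, kap_zero, mul_one]
    exact ⟨_, rfl⟩
  by_cases hxy : x₁ = x₂ ∧ y₁ = (cW A B).negY x₂ y₂
  · have h0 : (Point.some x₁ y₁ h₁ : (cW A B).Point) + Point.some x₂ y₂ h₂ = 0 :=
      Point.add_of_Y_eq hxy.1 hxy.2
    rw [h0, kap_zero, kap_some, kap_some, hxy.1, mul_one]
    exact ⟨_, rfl⟩
  · rw [Point.add_some hxy, kap_some, kap_some, kap_some]
    have h1 := addPolynomial_slope h₁.1 h₂.1 hxy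
    set ℓ := (cW A B).slope x₁ x₂ y₁ y₂ with hℓ
    set x₃ := (cW A B).addX x₁ x₂ ℓ with hx₃
    have h2 := congrArg (fun p : M[X] => aeval t p) h1
    simp only [addPolynomial_eq] at h2
    simp only [cW, Cubic.toPoly, map_neg, map_add, map_sub, map_mul, map_pow, aeval_X, aeval_C,
      map_zero, map_one, map_ofNat] at h2
    refine ⟨algebraMap M Ω ℓ * (t - algebraMap M Ω x₁) + algebraMap M Ω y₁, ?_⟩
    linear_combination -h2 - ht

theorem kap_ne (hne : ∀ x : M, algebraMap M Ω x ≠ t) (P : (cW A B).Point) : kap A B t P ≠ 0 := by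
  rcases P with _ | ⟨x, y, h⟩
  · exact one_ne_zero
  · rw [kap_some]
    exact sub_ne_zero.2 (hne x)

/-- The product of values. -/
theorem kap_add' (ht : t ^ 3 + algebraMap M Ω A * t + algebraMap M Ω B = 0)
    (hne : ∀ x : M, algebraMap M Ω x ≠ t) (P Q : (cW A B).Point) {x y : Ω}
    (hx : IsSquare (x * kap A B t P)) (hy : IsSquare (y * kap A B t Q)) :
    IsSquare (x * y * kap A B t (P + Q)) := by
  obtain ⟨u, hu⟩ := hx
  obtain ⟨v, hv⟩ := hy
  obtain ⟨w, hw⟩ := kap_add ht P Q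
  have h1 := kap_ne (A := A) (B := B) hne P
  have h2 := kap_ne (A := A) (B := B) hne Q
  refine ⟨u * v * w / (kap A B t P * kap A B t Q), ?_⟩
  field_simp
  linear_combination (y * kap A B t Q * kap A B t P * kap A B t Q * kap A B t (P + Q)) * hu +
    (u * u * kap A B t P * kap A B t Q * kap A B t (P + Q)) * hv + (u * u * v * v) * hw

/-- The kernel is the group of points divisible by two. -/
theorem kap_ker {P : (cW A B).Point} {u v w : M}
    (hlin : ∀ a b c : M, algebraMap M Ω a + algebraMap M Ω b * t + algebraMap M Ω c * t ^ 2 = 0 →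
      a = 0 ∧ b = 0 ∧ c = 0)
    (ht : t ^ 3 + algebraMap M Ω A * t + algebraMap M Ω B = 0)
    (hP : kap A B t P = (algebraMap M Ω u + algebraMap M Ω v * t + algebraMap M Ω w * t ^ 2) ^ 2) :
    ∃ Q : (cW A B).Point, P = (2 : ℕ) • Q := by
  rcases P with _ | ⟨x₀, y₀, h₀⟩
  · exact ⟨0, by rw [smul_zero]; rfl⟩
  rw [kap_some] at hP
  have h1 : algebraMap M Ω (u ^ 2 - 2 * B * v * w - x₀) +
      algebraMap M Ω (2 * u * v - 2 * A * v * w - B * w ^ 2 + 1) * t +
      algebraMap M Ω (v ^ 2 + 2 * u * w - A * w ^ 2) * t ^ 2 = 0 := by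
    simp only [map_sub, map_add, map_mul, map_pow, map_ofNat, map_one]
    linear_combination -hP - (algebraMap M Ω w ^ 2 * t + 2 * algebraMap M Ω v * algebraMap M Ω w) * ht
  obtain ⟨e0, e1, e2⟩ := hlin _ _ _ h1
  have hw : w ≠ 0 := by
    rintro rfl
    have hv : v = 0 := by
      have : v ^ 2 = 0 := by linear_combination e2
      exact pow_eq_zero_iff (two_ne_zero) |>.1 this
    rw [hv] at e1
    norm_num at e1
  -- the point
  obtain ⟨X₁, hX⟩ : ∃ X₁, X₁ = v / w := ⟨_, rfl⟩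
  obtain ⟨Y₁, hY⟩ : ∃ Y₁, Y₁ = 1 / w := ⟨_, rfl⟩
  have hv : v = X₁ * w := by rw [hX]; field_simp
  have hYw : Y₁ * w = 1 := by rw [hY]; field_simp
  have hu : 2 * u = (A - X₁ ^ 2) * w := by
    have h2 : w * (2 * u - (A - X₁ ^ 2) * w) = 0 := by
      rw [hv] at e2
      linear_combination e2
    exact sub_eq_zero.1 ((mul_eq_zero.1 h2).resolve_left hw)
  have hf : (X₁ ^ 3 + A * X₁ + B) * w ^ 2 = 1 := by
    rw [hv] at e1
    linear_combination -e1 + (X₁ * w) * hu
  have hE : Y₁ ^ 2 = X₁ ^ 3 + A * X₁ + B := by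
    have h2 : w ^ 2 * (Y₁ ^ 2 - (X₁ ^ 3 + A * X₁ + B)) = 0 := by
      linear_combination (Y₁ * w + 1) * hYw - hf
    exact sub_eq_zero.1 ((mul_eq_zero.1 h2).resolve_left (pow_ne_zero _ hw))
  have hY0 : Y₁ ≠ 0 := by
    intro h
    rw [h, zero_mul] at hYw
    exact zero_ne_one hYw
  have hns : (cW A B).Nonsingular X₁ Y₁ := by
    rw [WeierstrassCurve.Affine.nonsingular_iff]
    refine ⟨cW_eq.2 hE, Or.inr ?_⟩
    simp only [cW]
    intro h
    apply hY0
    have : (2 : M) * Y₁ = 0 := by linear_combination h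
    exact (mul_eq_zero.1 this).resolve_left two_ne_zero
  have hyne : Y₁ ≠ (cW A B).negY X₁ Y₁ := by
    simp only [negY, cW]
    intro h
    apply hY0
    have : (2 : M) * Y₁ = 0 := by linear_combination h
    exact (mul_eq_zero.1 this).resolve_left two_ne_zero
  have hxy : ¬ (X₁ = X₁ ∧ Y₁ = (cW A B).negY X₁ Y₁) := fun h => hyne h.2
  have hsl : (cW A B).slope X₁ X₁ Y₁ Y₁ = (3 * X₁ ^ 2 + A) * w / 2 := by
    rw [slope_of_Y_ne rfl hyne]
    simp only [negY, cW]
    rw [hY]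
    field_simp
    ring
  have hx3 : (cW A B).addX X₁ X₁ ((cW A B).slope X₁ X₁ Y₁ Y₁) = x₀ := by
    rw [hsl]
    simp only [addX, cW]
    have h3 : (4 : M) * (((3 * X₁ ^ 2 + A) * w / 2) ^ 2 + 0 * ((3 * X₁ ^ 2 + A) * w / 2) - 0 - X₁ - X₁) =
        4 * x₀ := by
      rw [hv] at e0
      field_simp
      linear_combination (8 * X₁) * hf + (-(2 * u + (A - X₁ ^ 2) * w)) * hu + 4 * e0
    exact mul_left_cancel₀ (by norm_num) h3
  have h2Q : (2 : ℕ) • (Point.some X₁ Y₁ hns : (cW A B).Point) =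
      Point.some _ _ (nonsingular_add hns hns hxy) := by
    rw [two_nsmul, Point.add_some hxy]
  obtain ⟨y₃, hy₃⟩ : ∃ y₃, y₃ = (cW A B).addY X₁ X₁ Y₁ ((cW A B).slope X₁ X₁ Y₁ Y₁) := ⟨_, rfl⟩
  have hns3 := nonsingular_add hns hns hxy
  have h2Q' : ∀ (h' : (cW A B).Nonsingular x₀ y₃),
      (2 : ℕ) • (Point.some X₁ Y₁ hns : (cW A B).Point) = Point.some x₀ y₃ h' := by
    intro h'
    rw [h2Q]
    congr 1
    exact hy₃.symm
  have hns' : (cW A B).Nonsingular x₀ y₃ := by
    rw [← hx3, hy₃]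
    exact hns3
  have hsq : (y₀ - y₃) * (y₀ + y₃) = 0 := by
    have a1 := cW_eq.1 h₀.1
    have a2 := cW_eq.1 hns'.1
    linear_combination a1 - a2
  rcases mul_eq_zero.1 hsq with h | h
  · refine ⟨Point.some X₁ Y₁ hns, ?_⟩
    rw [h2Q' hns']
    congr 1
    exact sub_eq_zero.1 h
  · refine ⟨-Point.some X₁ Y₁ hns, ?_⟩
    rw [smul_neg, h2Q' hns', Point.neg_some]
    congr 1
    simp only [negY, cW]
    linear_combination h

end kum

end Pool.Agent.K6.H88.TC
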