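import Mathlib

/-!
# Algebra for the rank bounds

Helper88 (project TC).
-/

set_option autoImplicit false
set_option linter.all false

open scoped Classical

namespace Pool.Agent.K6.H88.TC

/-- A character of order two which is not trivial on an element which is not divisible by two. -/
theorem exists_char {A : Type*} [AddCommGroup A] (u : A) (hu : ∀ v : A, u ≠ (2 : ℕ) • v) :
    ∃ f : A →+ ZMod 2, f u = 1 := by
  let R : AddSubgroup A := (nsmulAddMonoidHom (α := A) 2).range
  have h2 : ∀ x : A ⧸ R, (2 : ℕ) • x = 0 := by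
    intro x
    obtain ⟨a, rfl⟩ := QuotientAddGroup.mk_surjective x
    rw [← QuotientAddGroup.mk_nsmul, QuotientAddGroup.eq_zero_iff]
    exact ⟨a, rfl⟩
  letI : Module (ZMod 2) (A ⧸ R) := AddCommGroup.zmodModule h2
  have hne : (QuotientAddGroup.mk u : A ⧸ R) ≠ 0 := by
    intro h
    rw [QuotientAddGroup.eq_zero_iff] at h
    obtain ⟨v, hv⟩ := h
    exact hu v hv.symm
  have h3 := (Module.forall_dual_apply_eq_zero_iff (ZMod 2) (QuotientAddGroup.mk u : A ⧸ R)).not.2 hne
  push Not at h3
  obtain ⟨φ, hφ⟩ := h3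
  refine ⟨(φ.toAddMonoidHom).comp (QuotientAddGroup.mk' R), ?_⟩
  have h4 : ∀ z : ZMod 2, z ≠ 0 → z = 1 := by decide
  exact h4 _ hφ

/-- A bound for the rank. -/
theorem rank_card {G W : Type*} [AddCommGroup G] (hG : AddGroup.FG G) [AddCommGroup W] [Finite W]
    (f : G →+ W) (h : ∀ x, f x = 0 → ∃ z, x = (2 : ℕ) • z) :
    2 ^ Module.finrank ℤ G ≤ Nat.card W := by
  haveI : Module.Finite ℤ G := Module.Finite.iff_addGroup_fg.2 hG
  let T := Submodule.torsion ℤ G
  have hr : Module.finrank ℤ (G ⧸ T) = Module.finrank ℤ G := by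
    unfold Module.finrank
    rw [rank_quotient_eq_of_le_torsion (le_refl _)]
  haveI : Module.Free ℤ (G ⧸ T) := inferInstance
  let b := Module.finBasis ℤ (G ⧸ T)
  rw [← hr]
  set r := Module.finrank ℤ (G ⧸ T) with hrr
  choose x hx using fun i : Fin r => Submodule.Quotient.mk_surjective T (b i)
  let g : (Fin r → Fin 2) → G := fun ε => ∑ i, ((ε i : ℕ) : ℤ) • x i
  have hco : ∀ (ε : Fin r → Fin 2) (i : Fin r),
      b.repr (Submodule.Quotient.mk (g ε)) i = ((ε i : ℕ) : ℤ) := by
    intro ε i
    have e : (Submodule.Quotient.mk (g ε) : G ⧸ T) = ∑ i, ((ε i : ℕ) : ℤ) • b i := by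
      have e1 : (Submodule.Quotient.mk (g ε) : G ⧸ T) = T.mkQ (g ε) := rfl
      rw [e1, map_sum]
      refine Finset.sum_congr rfl fun j _ => ?_
      rw [map_smul, Submodule.mkQ_apply, hx]
    rw [e, Module.Basis.repr_sum_self]
  have hinj : Function.Injective fun ε : Fin r → Fin 2 => f (g ε) := by
    intro ε ε' he
    have h1 : f (g ε - g ε') = 0 := by
      rw [map_sub, sub_eq_zero]
      exact he
    obtain ⟨z, hz⟩ := h _ h1
    funext i
    have h2 : b.repr (Submodule.Quotient.mk (g ε - g ε')) i = 2 * b.repr (Submodule.Quotient.mk z) i := by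
      rw [hz]
      have e : (Submodule.Quotient.mk ((2 : ℕ) • z) : G ⧸ T) = (2 : ℤ) • Submodule.Quotient.mk z := by
        rw [← Submodule.Quotient.mk_smul]
        congr 1
        rw [two_nsmul, two_zsmul]
      rw [e, map_smul, Finsupp.smul_apply, smul_eq_mul]
    rw [Submodule.Quotient.mk_sub, map_sub, Finsupp.sub_apply, hco, hco] at h2
    have h3 := (ε i).2
    have h4 := (ε' i).2
    apply Fin.ext
    omega
  have h5 := Nat.card_le_card_of_injective _ hinj
  rw [Nat.card_fun, Nat.card_eq_fintype_card, Nat.card_eq_fintype_card, Fintype.card_fin,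
    Fintype.card_fin] at h5
  exact h5

/-- Coordinates modulo two. -/
theorem exists_coord {G : Type*} [AddCommGroup G] (hG : AddGroup.FG G)
    (h2 : ∀ x : G, (2 : ℕ) • x = 0 → x = 0) :
    ∃ f : G →+ (Fin (Module.finrank ℤ G) → ZMod 2), ∀ x, f x = 0 → ∃ z, x = (2 : ℕ) • z := by
  haveI : Module.Finite ℤ G := Module.Finite.iff_addGroup_fg.2 hG
  let T := Submodule.torsion ℤ G
  have hr : Module.finrank ℤ (G ⧸ T) = Module.finrank ℤ G := by
    unfold Module.finrank
    rw [rank_quotient_eq_of_le_torsion (le_refl _)]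
  haveI : Module.Free ℤ (G ⧸ T) := inferInstance
  rw [← hr]
  let b := Module.finBasis ℤ (G ⧸ T)
  let f : G →+ (Fin (Module.finrank ℤ (G ⧸ T)) → ZMod 2) :=
    { toFun := fun x i => ((b.repr (T.mkQ x) i : ℤ) : ZMod 2)
      map_zero' := by
        funext i
        rw [map_zero, map_zero, Finsupp.zero_apply, Int.cast_zero]
        rfl
      map_add' := by
        intro x y
        funext i
        rw [map_add, map_add, Finsupp.add_apply, Int.cast_add]
        rfl }
  refine ⟨f, fun x hx => ?_⟩
  have h3 : ∀ i, (2 : ℤ) ∣ b.repr (T.mkQ x) i := by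
    intro i
    have h4 : ((b.repr (T.mkQ x) i : ℤ) : ZMod 2) = 0 := congrFun hx i
    exact (ZMod.intCast_zmod_eq_zero_iff_dvd _ 2).1 h4
  choose c hc using h3
  obtain ⟨y, hy⟩ := T.mkQ_surjective (∑ i, c i • b i)
  have h5 : T.mkQ x = T.mkQ ((2 : ℤ) • y) := by
    rw [map_smul, hy, Finset.smul_sum, ← b.sum_repr (T.mkQ x)]
    refine Finset.sum_congr rfl fun i _ => ?_
    rw [smul_smul, ← hc]
  have h6 : x - (2 : ℤ) • y ∈ T := by
    rw [← Submodule.ker_mkQ T, LinearMap.mem_ker, map_sub, h5, sub_self]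
  -- the torsion element is divisible by two
  obtain ⟨w, hw⟩ : ∃ w, w = x - (2 : ℤ) • y := ⟨_, rfl⟩
  rw [← hw] at h6
  have hfo : ∃ n : ℕ, 0 < n ∧ n • w = 0 := by
    obtain ⟨a, ha⟩ := (Submodule.mem_torsion_iff w).1 h6
    have ha0 : (a : ℤ) ≠ 0 := nonZeroDivisors.ne_zero a.2
    refine ⟨(a : ℤ).natAbs, Int.natAbs_pos.2 ha0, ?_⟩
    have h7 : (a : ℤ) • w = 0 := ha
    rcases Int.natAbs_eq (a : ℤ) with h8 | h8
    · rw [h8, natCast_zsmul] at h7
      exact h7
    · rw [h8, neg_smul, natCast_zsmul, neg_eq_zero] at h7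
      exact h7
  have hodd : Odd (addOrderOf w) := by
    have hpos : 0 < addOrderOf w := by
      rw [addOrderOf_pos_iff, isOfFinAddOrder_iff_nsmul_eq_zero]
      exact hfo
    by_contra hne
    rw [Nat.not_odd_iff_even] at hne
    obtain ⟨k, hk⟩ := hne
    have h8 : (2 : ℕ) • (k • w) = 0 := by
      rw [smul_smul, two_mul, ← hk, addOrderOf_nsmul_eq_zero]
    have h9 := h2 _ h8
    have h10 : addOrderOf w ∣ k := addOrderOf_dvd_of_nsmul_eq_zero h9
    have h11 : k ≠ 0 := by
      rintro rfl
      omega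
    have h12 := Nat.le_of_dvd (Nat.pos_of_ne_zero h11) h10
    omega
  obtain ⟨k, hk⟩ := hodd
  have h13 : w = (2 : ℕ) • (-(k • w)) := by
    have h14 := addOrderOf_nsmul_eq_zero w
    rw [hk, add_smul, one_smul, mul_smul] at h14
    rw [smul_neg]
    exact eq_neg_of_add_eq_zero_right h14
  refine ⟨y + -(k • w), ?_⟩
  rw [smul_add, ← h13, hw, two_nsmul, two_zsmul]
  abel

/-- A set which contains all but one elements of every coset. -/
theorem exists_sel {G : Type*} [Group G] [Finite G] (H : Subgroup G) [Fintype H] :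
    ∃ R : Set G, Nat.card R + H.index = Nat.card G ∧ ∀ φ : G → ZMod 2,
      (∀ τ, ∑ h : H, φ (τ * h) = 0) → (∀ τ ∈ R, φ τ = 0) → ∀ τ, φ τ = 0 := by
  let R : Set G := (Set.range (Quotient.out : G ⧸ H → G))ᶜ
  refine ⟨R, ?_, fun φ h1 h2 τ => ?_⟩
  · have hinj : Function.Injective (Quotient.out : G ⧸ H → G) := Quotient.out_injective
    have h3 : Nat.card (Set.range (Quotient.out : G ⧸ H → G)) = H.index := by
      rw [Nat.card_range_of_injective hinj]
      rfl
    have h4 := Set.ncard_add_ncard_compl (Set.range (Quotient.out : G ⧸ H → G))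
    rw [← h3]
    have h5 : Nat.card R = R.ncard := rfl
    have h6 : Nat.card (Set.range (Quotient.out : G ⧸ H → G)) =
      (Set.range (Quotient.out : G ⧸ H → G)).ncard := rfl
    rw [h5, h6, add_comm]
    exact h4
  · by_cases hτ : τ ∈ R
    · exact h2 τ hτ
    · have hτ' : τ ∈ Set.range (Quotient.out : G ⧸ H → G) := by
        by_contra h
        exact hτ h
      obtain ⟨q, rfl⟩ := hτ'
      have h3 := h1 (Quotient.out q)
      rw [Finset.sum_eq_single (1 : H)] at h3
      · simpa using h3
      · intro h _ hne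
        apply h2
        rintro ⟨q', hq'⟩
        apply hne
        have h4 : q' = q := by
          have h5 : (QuotientGroup.mk (Quotient.out q' : G) : G ⧸ H) = q' := Quotient.out_eq q'
          have h6 : (QuotientGroup.mk (Quotient.out q : G) : G ⧸ H) = q := Quotient.out_eq q
          rw [← h5, hq', ← h6]
          rw [QuotientGroup.eq]
          simp
        rw [h4] at hq'
        have h7 : (h : G) = 1 := by
          have := hq'.symm
          simpa using this
        exact Subtype.ext h7
      · intro h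
        exact absurd (Finset.mem_univ _) h

end Pool.Agent.K6.H88.TC
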