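import Pool.Agent.K6.H88.TC.NfB
import Pool.Agent.K6.H88.TC.RkB

/-!
# The character

Helper88 (project TC).
-/

set_option autoImplicit false
set_option linter.all false

open Polynomial IsDedekindDomain WeierstrassCurve WeierstrassCurve.Affine NumberField
open Pool.Agent.TH115.GD
open scoped Classical IntermediateField

namespace Pool.Agent.K6.H88.TC

open Pool.Agent.N922.PQ
open Pool.Agent.N874.PP (Tup chA chB gq tau Two Ev Sq1 U0 sW IsBeta Rt)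
open Pool.Agent.N874.PM (PLoc Lies SelR ShaR)

/-- A character of order two of the multiplicative group which is not trivial on a nonsquare. -/
theorem exists_chi {Ω : Type} [Field Ω] {u : Ω} (hu : u ≠ 0) (hsq : ¬ IsSquare u) :
    ∃ χ : Ω → ZMod 2, (∀ x y : Ω, x ≠ 0 → y ≠ 0 → χ (x * y) = χ x + χ y) ∧ χ u = 1 := by
  obtain ⟨f, hf⟩ := exists_char (A := Additive Ωˣ) (Additive.ofMul (Units.mk0 u hu)) (by
    intro v hv
    apply hsq
    refine ⟨((Additive.toMul v : Ωˣ) : Ω), ?_⟩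
    have h1 := congrArg (fun w : Additive Ωˣ => ((Additive.toMul w : Ωˣ) : Ω)) hv
    simp only [toMul_ofMul, toMul_nsmul, Units.val_pow_eq_pow_val, Units.val_mk0] at h1
    rw [h1, pow_two])
  refine ⟨fun x => if h : x ≠ 0 then f (Additive.ofMul (Units.mk0 x h)) else 0, ?_, ?_⟩
  · intro x y hx hy
    simp only [dif_pos hx, dif_pos hy, dif_pos (mul_ne_zero hx hy)]
    rw [← map_add, ← ofMul_mul, Units.mk0_mul]
  · simp only [dif_pos hu]
    exact hf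

section lam

variable {L M Ω : Type} [Field L] [NumberField L] [Field M] [NumberField M]
  [Field Ω] [NumberField Ω] [Algebra L Ω] [Algebra M Ω] [IsGalois ℚ M]

/-- The character which detects all the relaxed Selmer classes. -/
theorem exists_lam (H : Parts2) {a b : ℤ} {θ : L} {X' : ℕ}
    {S T : Finset ℤ} {s A B : ℤ → ℤ} (hc : IsCub a b θ) (hS : GoodS S s)
    (hF : Fam X' S s T A B a b) (ha3 : a % 4 = 3) (hb3 : b % 4 = 3) {J : Finset ℤ} (hJ : J ⊆ S)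
    (hsel : Base a b θ J)
    {T' : Finset ℤ} (hT' : ∀ P ∈ T', IsPr P)
    (hnt : ∀ P ∈ T', ∀ z : ℤ, ¬ P ∣ z ^ 3 + a * z + b)
    (hur : ∀ P : ℤ, IsPr P → P ∉ T' → Unr M P) (hsp : ∀ Q ∈ S, Spl M Q)
    {n : ℕ} (hM : Module.finrank ℚ M = 2 ^ n) (hΩ : Module.finrank M Ω = 3)
    (htop : M⟮algebraMap L Ω θ⟯ = ⊤) :
    ∃ χ : Ω → ZMod 2, (∀ x y : Ω, x ≠ 0 → y ≠ 0 → χ (x * y) = χ x + χ y) ∧
      ∀ x : Ω, x ≠ 0 → Cnd (𝓞 Ω) J T' (algebraMap L Ω θ) x → IsSquare (Algebra.norm M x) →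
        (∀ σ : Gal(Ω/L), χ (σ x) = 0) → IsSquare x := by
  have h2K : (2 : ℚ) ≠ 0 := by norm_num
  have hθi : IsIntegral ℤ θ := by
    refine ⟨X ^ 3 + C a * X + C b, by monicity!, ?_⟩
    rw [← aeval_def]
    simp only [map_add, map_mul, map_pow, aeval_X, aeval_C]
    have h1 := hc.root
    simpa using h1
  have hmul : ∀ x y : Ω, x ≠ 0 → y ≠ 0 → Cnd (𝓞 Ω) J T' (algebraMap L Ω θ) x →
      Cnd (𝓞 Ω) J T' (algebraMap L Ω θ) y → Cnd (𝓞 Ω) J T' (algebraMap L Ω θ) (x * y) := by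
    intro x y hx hy h h'
    exact cnd_mul H.p.cls (fun Q hQ => ⟨(hS Q (hJ hQ)).1.2,
        not_dvd_two (hS Q (hJ hQ)).2.1 (hS Q (hJ hQ)).1.1 (hS Q (hJ hQ)).1.2⟩)
      (fun Q hQ 𝔓 h1 h2 => odd_top' H.p.exq htop hc hF.sq (hS Q (hJ hQ)).1.2
        (fun w hw => (hsp Q (hJ hQ) w hw).1)
        (hF.rb Q (hJ hQ)) (fam_ns hS hF (hJ hQ)) 𝔓 h1 h2) hx hy h h'
  have hbase : ∀ x : L, x ≠ 0 → Cnd (𝓞 Ω) J T' (algebraMap L Ω θ) (algebraMap L Ω x) →
      Loc2 a b θ x → IsSquare (Algebra.norm ℚ x) → IsSquare x := by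
    intro x hx hC hl hN
    exact base_sq' htop hθi hsel
      (fun Q hQ => ⟨(hS Q (hJ hQ)).1.2, hsp Q (hJ hQ)⟩) hur
      (fun P hP => H.p.p3 L (𝓞 L) a b θ hc hF.sq P (hT' P hP).2 (hnt P hP))
      hx hC hl hN
  -- the choice of the character
  obtain ⟨χ, hχ, hχ2⟩ : ∃ χ : Ω → ZMod 2, (∀ x y : Ω, x ≠ 0 → y ≠ 0 → χ (x * y) = χ x + χ y) ∧
      ∀ x : L, x ≠ 0 → IsSquare (Algebra.norm ℚ x) →
        Cnd (𝓞 Ω) J T' (algebraMap L Ω θ) (algebraMap L Ω x) → ¬ Loc2 a b θ x →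
        χ (algebraMap L Ω x) = 1 := by
    by_cases hex : ∃ x : L, x ≠ 0 ∧ IsSquare (Algebra.norm ℚ x) ∧
        Cnd (𝓞 Ω) J T' (algebraMap L Ω θ) (algebraMap L Ω x) ∧ ¬ Loc2 a b θ x
    · obtain ⟨u, hu, huN, huC, hul⟩ := hex
      have hu' : algebraMap L Ω u ≠ 0 := (_root_.map_ne_zero _).2 hu
      have hns : ¬ IsSquare (algebraMap L Ω u) := by
        intro h
        obtain ⟨y, rfl⟩ := inj_sq hc htop hΩ hu huN h
        exact hul (loc2_sq hc y)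
      obtain ⟨χ, h1, h2⟩ := exists_chi hu' hns
      refine ⟨χ, h1, fun x hx hN hC hl => ?_⟩
      have hx' : algebraMap L Ω x ≠ 0 := (_root_.map_ne_zero _).2 hx
      have h3 : IsSquare (u * x) := by
        refine hbase (u * x) (mul_ne_zero hu hx) ?_ (loc2_mul hc ha3 hb3 hu hx huN hN hul hl) ?_
        · rw [map_mul]
          exact hmul _ _ hu' hx' huC hC
        · rw [map_mul]
          exact huN.mul hN
      obtain ⟨y, hy⟩ := h3
      have hy0 : y ≠ 0 := by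
        rintro rfl
        rw [mul_zero] at hy
        exact (mul_ne_zero hu hx) hy
      have hy' : algebraMap L Ω y ≠ 0 := (_root_.map_ne_zero _).2 hy0
      have h4 := h1 _ _ hu' hx'
      rw [← map_mul, hy, map_mul, h1 _ _ hy' hy', h2] at h4
      have h5 : ∀ p q : ZMod 2, p + p = 1 + q → q = 1 := by decide
      exact h5 _ _ h4
    · push Not at hex
      exact ⟨fun _ => 0, fun _ _ _ _ => (add_zero 0).symm, fun x hx hN hC hl => absurd (hex x hx hN hC) hl⟩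
  refine ⟨χ, hχ, fun x hx hC hN hσ => ?_⟩
  have hsq0 : ∀ y : Ω, y ≠ 0 → χ (y ^ 2) = 0 := by
    intro y hy
    rw [pow_two, hχ y y hy hy]
    exact CharTwo.add_self_eq_zero _
  refine H.p.tow n ℚ L M Ω h2K hM hc.rank hΩ
    (fun x => Cnd (𝓞 Ω) J T' (algebraMap L Ω θ) x ∧ ∀ σ : Gal(Ω/L), χ (σ x) = 0)
    (fun x hx => ⟨cnd_sq hx, fun σ => ?_⟩)
    (fun x y hx hy h h' => ⟨hmul x y hx hy h.1 h'.1, fun σ => ?_⟩)
    (fun σ x h => ⟨cnd_sig H.p.sig rfl σ h.1, fun τ => ?_⟩)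
    (fun x hx hC hN => ?_) x hx ⟨hC, hσ⟩ hN
  · rw [map_pow]
    exact hsq0 _ ((_root_.map_ne_zero _).2 hx)
  · rw [map_mul, hχ _ _ ((_root_.map_ne_zero _).2 hx) ((_root_.map_ne_zero _).2 hy), h.2, h'.2, add_zero]
  · exact h.2 (τ * σ)
  · by_cases hl : Loc2 a b θ x
    · exact hbase x hx hC.1 hl hN
    · exfalso
      have h1 := hχ2 x hx hN hC.1 hl
      have h2 := hC.2 1
      rw [AlgEquiv.one_apply, h1] at h2
      exact absurd h2 (by decide)

end lam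

end Pool.Agent.K6.H88.TC
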