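import Pool.Agent.K6.H88.TC.Nrm

/-!
# Normal forms at `2` of products

Helper88 (project TC).
-/

set_option autoImplicit false
set_option linter.all false

open Polynomial
open scoped Classical

namespace Pool.Agent.K6.H88.TC

open Pool.Agent.N922.PQ Pool.Agent.K6.H88.TW Pool.Agent.N323.PV

theorem pol_mul (F : Type) [Field F] (a b g₁ g₂ g₁' g₂' : ℤ) (r s t r' s' t' : F) :
    ff F a b ∣ pol F g₁ g₂ r s t * pol F g₁' g₂' r' s' t' -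
      pol F (g₁ + g₁') (g₂ + g₂')
        (r + r' + 4 * r * r' - b * ((g₁ + 2 * s) * (g₂' + 2 * t') + (g₂ + 2 * t) * (g₁' + 2 * s')))
        (s + s' + 2 * r * (g₁' + 2 * s') + 2 * r' * (g₁ + 2 * s) -
          a * ((g₁ + 2 * s) * (g₂' + 2 * t') + (g₂ + 2 * t) * (g₁' + 2 * s')) -
          b * ((g₂ + 2 * t) * (g₂' + 2 * t')))
        (t + t' + 2 * r * (g₂' + 2 * t') + 2 * r' * (g₂ + 2 * t) + (g₁ + 2 * s) * (g₁' + 2 * s') -
          a * ((g₂ + 2 * t) * (g₂' + 2 * t'))) := by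
  refine ⟨C (4 * ((g₁ + 2 * s) * (g₂' + 2 * t') + (g₂ + 2 * t) * (g₁' + 2 * s'))) +
    C (4 * ((g₂ + 2 * t) * (g₂' + 2 * t'))) * X, ?_⟩
  unfold ff pol
  simp only [map_add, map_sub, map_mul, map_ofNat, C_eq_intCast, Int.cast_add]
  ring

/-- The polynomial is `1 + 2 (g₁ X + g₂ X ^ 2)` modulo `4`. -/
def NP (a b g₁ g₂ : ℤ) (h : ℚ_[2][X]) : Prop :=
  ∃ r s t : ℤ_[2], ff ℚ_[2] a b ∣ h - pol ℚ_[2] g₁ g₂ (r : ℚ_[2]) s t

theorem np_mul {a b g₁ g₂ g₁' g₂' : ℤ} {h h' : ℚ_[2][X]} (H : NP a b g₁ g₂ h)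
    (H' : NP a b g₁' g₂' h') : NP a b (g₁ + g₁') (g₂ + g₂') (h * h') := by
  obtain ⟨r, s, t, h1⟩ := H
  obtain ⟨r', s', t', h2⟩ := H'
  refine ⟨r + r' + 4 * r * r' - b * ((g₁ + 2 * s) * (g₂' + 2 * t') + (g₂ + 2 * t) * (g₁' + 2 * s')),
    s + s' + 2 * r * (g₁' + 2 * s') + 2 * r' * (g₁ + 2 * s) -
          a * ((g₁ + 2 * s) * (g₂' + 2 * t') + (g₂ + 2 * t) * (g₁' + 2 * s')) -
          b * ((g₂ + 2 * t) * (g₂' + 2 * t')),
    t + t' + 2 * r * (g₂' + 2 * t') + 2 * r' * (g₂ + 2 * t) + (g₁ + 2 * s) * (g₁' + 2 * s') -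
          a * ((g₂ + 2 * t) * (g₂' + 2 * t')), ?_⟩
  have h3 := pol_mul ℚ_[2] a b g₁ g₂ g₁' g₂' (r : ℚ_[2]) s t r' s' t'
  have h4 := dvd_add (dvd_add (dvd_mul_of_dvd_right h1 h') (dvd_mul_of_dvd_right h2
    (pol ℚ_[2] g₁ g₂ (r : ℚ_[2]) s t))) h3
  push_cast [co2, co4]
  convert h4 using 1
  ring

theorem np_sq {a b g₁ g₂ : ℤ} (ha : a % 4 = 3) (hb : b % 4 = 3) {k : ℚ_[2][X]}
    (H : NP a b g₁ g₂ (k ^ 2)) : Even g₂ := by
  obtain ⟨r, s, t, h1⟩ := H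
  obtain ⟨T0, T1, T2, e0, e1, e2⟩ := sq_form (a := a) (b := b)
      (1 + 4 * (r : ℚ_[2])) (2 * g₁ + 4 * s) (2 * g₂ + 4 * t) k (by
        have h5 := (dvd_neg).2 h1
        convert h5 using 1
        unfold pol
        simp only [map_add, map_sub, map_mul, map_ofNat, C_eq_intCast, map_one]
        ring)
  obtain ⟨-, -, h6, -⟩ := calc0 ha hb (g₁ := g₁) (g₂ := g₂) (u := 1) (v := 0) (n := 1) (r := r)
      (s := s) (t := t) (Or.inl rfl) (by ring) (T0 := T0) (T1 := T1) (T2 := T2)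
      (by push_cast; linear_combination e0) (by push_cast; linear_combination e1)
      (by push_cast; linear_combination e2)
  exact h6 (by rw [mul_zero, map_zero]; decide)

theorem np_of (a b g₁ g₂ : ℤ) {m : ℤ} {r s t : ℚ} (hr : Odd r.den) (hs : Odd s.den)
    (ht : Odd t.den) :
    NP a b g₁ g₂ ((pol ℚ g₁ g₂ ((m : ℤ) + 2 * r) s t).map (algebraMap ℚ ℚ_[2])) := by
  obtain ⟨z, hz⟩ := odd_lift hr
  obtain ⟨z1, hz1⟩ := odd_lift hs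
  obtain ⟨z2, hz2⟩ := odd_lift ht
  refine ⟨(m : ℤ) + 2 * z, z1, z2, ?_⟩
  rw [Pool.Agent.N951.PV.pol_map]
  have e : pol ℚ_[2] g₁ g₂ ((((m : ℤ) : ℚ) + 2 * r : ℚ) : ℚ_[2]) (s : ℚ_[2]) (t : ℚ_[2]) =
      pol ℚ_[2] g₁ g₂ ((((m : ℤ) : ℤ_[2]) + 2 * z : ℤ_[2]) : ℚ_[2]) z1 z2 := by
    push_cast [co2]
    rw [hz, hz1, hz2]
  rw [e, sub_self]
  exact dvd_zero _

variable {L : Type} [Field L] [NumberField L] {a b : ℤ} {θ : L}

/-- The classes of a product. -/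
theorem nf_mul (hc : IsCub a b θ) (ha : a % 4 = 3) (hb : b % 4 = 3) {x c x' c' c'' : L}
    {g₁ g₂ g₁' g₂' g₁'' g₂'' : ℤ} {r s t r' s' t' r'' s'' t'' : ℚ}
    (H : NFm θ x c g₁ g₂ r s t) (H' : NFm θ x' c' g₁' g₂' r' s' t')
    (H'' : NFm θ (x * x') c'' g₁'' g₂'' r'' s'' t'') : Even (g₂'' + (g₂ + g₂')) := by
  obtain ⟨hc0, hr, hs, ht, hα⟩ := H
  obtain ⟨hc0', hr', hs', ht', hα'⟩ := H'
  obtain ⟨hc0'', hr'', hs'', ht'', hα''⟩ := H''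
  obtain ⟨k, hk⟩ := hc.exists_poly (c * c' * aeval θ (pol ℚ g₁ g₂ ((g₁ * (1 + g₂) : ℤ) + 2 * r) s t) *
    aeval θ (pol ℚ g₁' g₂' ((g₁' * (1 + g₂') : ℤ) + 2 * r') s' t') / c'')
  have e : aeval θ (pol ℚ g₁'' g₂'' ((g₁'' * (1 + g₂'') : ℤ) + 2 * r'') s'' t'' *
      (pol ℚ g₁ g₂ ((g₁ * (1 + g₂) : ℤ) + 2 * r) s t *
        pol ℚ g₁' g₂' ((g₁' * (1 + g₂') : ℤ) + 2 * r') s' t')) = aeval θ (k ^ 2) := by
    rw [map_mul, map_mul, map_pow, hk, div_pow, eq_div_iff (pow_ne_zero _ hc0'')]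
    rw [hα, hα'] at hα''
    linear_combination (-(aeval θ (pol ℚ g₁ g₂ ((g₁ * (1 + g₂) : ℤ) + 2 * r) s t) *
      aeval θ (pol ℚ g₁' g₂' ((g₁' * (1 + g₂') : ℤ) + 2 * r') s' t'))) * hα''
  have h3 := Pool.Agent.N951.PV.cast_congr hc ℚ_[2] e
  rw [Polynomial.map_mul, Polynomial.map_mul, Polynomial.map_pow] at h3
  obtain ⟨R, S', T', h4⟩ := np_mul (np_of a b g₁'' g₂'' (m := g₁'' * (1 + g₂'')) hr'' hs'' ht'')
    (np_mul (np_of a b g₁ g₂ (m := g₁ * (1 + g₂)) hr hs ht)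
      (np_of a b g₁' g₂' (m := g₁' * (1 + g₂')) hr' hs' ht'))
  refine np_sq (g₁ := g₁'' + (g₁ + g₁')) (k := k.map (algebraMap ℚ ℚ_[2])) ha hb ⟨R, S', T', ?_⟩
  have h5 := dvd_sub h4 h3
  convert h5 using 1
  ring

/-- If two elements of square norm do not satisfy the condition at `2`, then their product does. -/
theorem loc2_mul (hc : IsCub a b θ) (ha : a % 4 = 3) (hb : b % 4 = 3) {x x' : L} (hx : x ≠ 0)
    (hx' : x' ≠ 0) (hN : IsSquare (Algebra.norm ℚ x)) (hN' : IsSquare (Algebra.norm ℚ x'))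
    (h : ¬ Loc2 a b θ x) (h' : ¬ Loc2 a b θ x') : Loc2 a b θ (x * x') := by
  have hao : Odd a := Int.odd_iff.2 (by omega)
  have hbo : Odd b := Int.odd_iff.2 (by omega)
  obtain ⟨c, g₁, g₂, r, s, t, hc0, hr, hs, ht, hα⟩ :=
    Pool.Agent.N907.PV.t_NF2 L a b θ hc hao hbo x hx hN
  obtain ⟨c', g₁', g₂', r', s', t', hc0', hr', hs', ht', hα'⟩ :=
    Pool.Agent.N907.PV.t_NF2 L a b θ hc hao hbo x' hx' hN'
  obtain ⟨c'', g₁'', g₂'', r'', s'', t'', hc0'', hr'', hs'', ht'', hα''⟩ :=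
    Pool.Agent.N907.PV.t_NF2 L a b θ hc hao hbo (x * x') (mul_ne_zero hx hx') (by
      rw [map_mul]
      exact hN.mul hN')
  have H : NFm θ x c g₁ g₂ r s t := ⟨hc0, hr, hs, ht, hα⟩
  have H' : NFm θ x' c' g₁' g₂' r' s' t' := ⟨hc0', hr', hs', ht', hα'⟩
  have H'' : NFm θ (x * x') c'' g₁'' g₂'' r'' s'' t'' := ⟨hc0'', hr'', hs'', ht'', hα''⟩
  have h1 : Odd g₂ := by
    rw [← Int.not_even_iff_odd]
    exact fun hg => h (loc2_of_nf hc ha hb H hg)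
  have h2 : Odd g₂' := by
    rw [← Int.not_even_iff_odd]
    exact fun hg => h' (loc2_of_nf hc ha hb H' hg)
  have h3 := nf_mul hc ha hb H H' H''
  have h4 : Even (g₂ + g₂') := h1.add_odd h2
  exact loc2_of_nf hc ha hb H'' ((Int.even_add.1 h3).2 h4)

/-- The condition at `2` is satisfied by squares. -/
theorem loc2_sq (hc : IsCub a b θ) (y : L) : Loc2 a b θ (y * y) := by
  intro h hh
  left
  obtain ⟨k, hk⟩ := hc.exists_poly y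
  refine ⟨k.map (algebraMap ℚ ℚ_[2]), ?_⟩
  have h1 : aeval θ h = aeval θ (k ^ 2) := by
    rw [hh, map_pow, hk, pow_two]
  have h2 := Pool.Agent.N951.PV.cast_congr hc ℚ_[2] h1
  rw [Polynomial.map_pow] at h2
  exact h2

end Pool.Agent.K6.H88.TC
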