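import Pool.Agent.K6.H88.TC.Kum

/-!
# Norms, and an element of `L` which is a square in `L M`

Helper88 (project TC).
-/

set_option autoImplicit false
set_option linter.all false

open Polynomial NumberField
open scoped Classical IntermediateField

namespace Pool.Agent.K6.H88.TC

open Pool.Agent.N922.PQ

section cubic

variable {K E : Type} [Field K] [Field E] [Algebra K E]

/-- `1`, `t`, `t ^ 2` is a basis of `E` over `K`. -/
structure Bas3 (K : Type) {E : Type} [Field K] [Field E] [Algebra K E] (A B : K) (t : E) : Prop where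
  root : t ^ 3 + algebraMap K E A * t + algebraMap K E B = 0
  gen : ∀ y : E, ∃ r s u : K, y = algebraMap K E r + algebraMap K E s * t + algebraMap K E u * t ^ 2
  lin : ∀ r s u : K, algebraMap K E r + algebraMap K E s * t + algebraMap K E u * t ^ 2 = 0 →
    r = 0 ∧ s = 0 ∧ u = 0

/-- The basis. -/
noncomputable def Bas3.basis {A B : K} {t : E} (h : Bas3 K A B t) : Module.Basis (Fin 3) K E :=
  Module.Basis.mk (v := ![1, t, t ^ 2]) (by
    rw [Fintype.linearIndependent_iff]
    intro g hg
    rw [Fin.sum_univ_three] at hg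
    simp only [Matrix.cons_val_zero, Matrix.cons_val_one, Matrix.cons_val_two, Matrix.head_cons,
      Matrix.tail_cons, Algebra.smul_def, mul_one, Matrix.cons_val] at hg
    obtain ⟨h0, h1, h2⟩ := h.lin _ _ _ hg
    intro i
    fin_cases i
    · exact h0
    · exact h1
    · exact h2) (by
    rintro y -
    obtain ⟨r, s, u, rfl⟩ := h.gen y
    rw [← mul_one (algebraMap K E r), ← Algebra.smul_def, ← Algebra.smul_def, ← Algebra.smul_def]
    refine add_mem (add_mem ?_ ?_) ?_
    · exact Submodule.smul_mem _ _ (Submodule.subset_span ⟨0, rfl⟩)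
    · exact Submodule.smul_mem _ _ (Submodule.subset_span ⟨1, rfl⟩)
    · exact Submodule.smul_mem _ _ (Submodule.subset_span ⟨2, rfl⟩))

theorem Bas3.b0 {A B : K} {t : E} (h : Bas3 K A B t) : h.basis 0 = 1 := by
  rw [Bas3.basis, Module.Basis.mk_apply]
  rfl

theorem Bas3.b1 {A B : K} {t : E} (h : Bas3 K A B t) : h.basis 1 = t := by
  rw [Bas3.basis, Module.Basis.mk_apply]
  rfl

theorem Bas3.b2 {A B : K} {t : E} (h : Bas3 K A B t) : h.basis 2 = t ^ 2 := by
  rw [Bas3.basis, Module.Basis.mk_apply]
  rfl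

theorem Bas3.repr {A B : K} {t : E} (h : Bas3 K A B t) (r s u : K) (i : Fin 3) :
    h.basis.repr (algebraMap K E r + algebraMap K E s * t + algebraMap K E u * t ^ 2) i =
      ![r, s, u] i := by
  have e : algebraMap K E r + algebraMap K E s * t + algebraMap K E u * t ^ 2 =
      r • h.basis 0 + s • h.basis 1 + u • h.basis 2 := by
    rw [h.b0, h.b1, h.b2, Algebra.smul_def, Algebra.smul_def, Algebra.smul_def, mul_one]
  rw [e, map_add, map_add, map_smul, map_smul, map_smul, Module.Basis.repr_self,
    Module.Basis.repr_self, Module.Basis.repr_self]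
  fin_cases i <;> simp

/-- The norm. -/
theorem norm3 {A B : K} {t : E} (h : Bas3 K A B t) (u v w : K) :
    Algebra.norm K (algebraMap K E u + algebraMap K E v * t + algebraMap K E w * t ^ 2) =
      Matrix.det !![u, -(B * w), -(B * v); v, u - A * w, -(A * v) - B * w; w, v, u - A * w] := by
  rw [Algebra.norm_eq_matrix_det h.basis]
  congr 1
  ext i j
  rw [Algebra.leftMulMatrix_eq_repr_mul]
  fin_cases j
  · change h.basis.repr (_ * h.basis 0) i = _
    rw [h.b0, mul_one, h.repr]
    fin_cases i <;> rfl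
  · change h.basis.repr (_ * h.basis 1) i = _
    have e : (algebraMap K E u + algebraMap K E v * t + algebraMap K E w * t ^ 2) * h.basis 1 =
        algebraMap K E (-(B * w)) + algebraMap K E (u - A * w) * t + algebraMap K E v * t ^ 2 := by
      rw [h.b1]
      simp only [map_neg, map_mul, map_sub]
      linear_combination (algebraMap K E w) * h.root
    rw [e, h.repr]
    fin_cases i <;> rfl
  · change h.basis.repr (_ * h.basis 2) i = _
    have e : (algebraMap K E u + algebraMap K E v * t + algebraMap K E w * t ^ 2) * h.basis 2 =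
        algebraMap K E (-(B * v)) + algebraMap K E (-(A * v) - B * w) * t +
          algebraMap K E (u - A * w) * t ^ 2 := by
      rw [h.b2]
      simp only [map_neg, map_mul, map_sub]
      linear_combination (algebraMap K E v + algebraMap K E w * t) * h.root
    rw [e, h.repr]
    fin_cases i <;> rfl

/-- The norm of `x - t`. -/
theorem norm_sub {A B : K} {t : E} (h : Bas3 K A B t) (x : K) :
    Algebra.norm K (algebraMap K E x - t) = x ^ 3 + A * x + B := by
  have e : algebraMap K E x - t = algebraMap K E x + algebraMap K E (-1) * t +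
      algebraMap K E 0 * t ^ 2 := by
    simp only [map_neg, map_one, map_zero]
    ring
  rw [e, norm3 h, Matrix.det_fin_three]
  simp only [Matrix.of_apply, Matrix.cons_val', Matrix.cons_val_zero, Matrix.cons_val_one,
    Matrix.cons_val, Matrix.cons_val_fin_one]
  ring

end cubic

section two

variable {L M Ω : Type} [Field L] [NumberField L] [Field M] [NumberField M]
  [Field Ω] [NumberField Ω] [Algebra L Ω] [Algebra M Ω]

/-- The basis over `M`. -/
theorem bas_M {a b : ℤ} {θ : L} (hc : IsCub a b θ) (htop : M⟮algebraMap L Ω θ⟯ = ⊤)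
    (hΩ : Module.finrank M Ω = 3) : Bas3 M ((a : ℤ) : M) ((b : ℤ) : M) (algebraMap L Ω θ) := by
  have hmin := min_tw hc htop hΩ
  have hroot : (algebraMap L Ω θ) ^ 3 + (a : Ω) * algebraMap L Ω θ + (b : Ω) = 0 := by
    have h1 := congrArg (algebraMap L Ω) hc.root
    rw [map_zero, map_add, map_add, map_mul, map_pow, map_intCast, map_intCast] at h1
    exact h1
  haveI : FiniteDimensional M Ω := FiniteDimensional.of_finrank_pos (by rw [hΩ]; norm_num)
  refine ⟨by rw [map_intCast, map_intCast]; exact hroot, fun y => ?_, fun r s u h => ?_⟩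
  · have hy : y ∈ M⟮algebraMap L Ω θ⟯ := by
      rw [htop]
      exact IntermediateField.mem_top
    have hy2 : y ∈ Algebra.adjoin M {algebraMap L Ω θ} := by
      rw [← IntermediateField.adjoin_simple_toSubalgebra_of_isAlgebraic
        (Algebra.IsAlgebraic.isAlgebraic _)]
      exact hy
    rw [Algebra.adjoin_singleton_eq_range_aeval] at hy2
    obtain ⟨g, hg⟩ := hy2
    have hg' : aeval (algebraMap L Ω θ) g = y := hg
    have hm := ff_monic M a b
    have hd : (g %ₘ ff M a b).natDegree < 3 := by
      have := Polynomial.natDegree_modByMonic_lt g hm (by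
        intro h1
        have := ff_deg M a b
        rw [h1] at this
        simp at this)
      rwa [ff_deg] at this
    obtain ⟨ρ, hρ⟩ : ∃ ρ, ρ = g %ₘ ff M a b := ⟨_, rfl⟩
    have h2 : ρ = C (ρ.coeff 0) + C (ρ.coeff 1) * X + C (ρ.coeff 2) * X ^ 2 := by
      rw [← hρ] at hd
      conv_lhs => rw [Polynomial.as_sum_range' ρ 3 hd]
      simp [Finset.sum_range_succ, ← C_mul_X_pow_eq_monomial]
    have h3 : aeval (algebraMap L Ω θ) ρ = y := by
      have h4 := Polynomial.modByMonic_add_div g (ff M a b)
      rw [← hρ] at h4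
      rw [← hg', ← h4, map_add, map_mul, ← hmin, minpoly.aeval, zero_mul, add_zero]
    refine ⟨ρ.coeff 0, ρ.coeff 1, ρ.coeff 2, ?_⟩
    rw [← h3]
    conv_lhs => rw [h2]
    simp only [map_add, map_mul, map_pow, aeval_C, aeval_X]
  · have h1 : ff M a b ∣ C r + C s * X + C u * X ^ 2 := by
      rw [← hmin]
      apply minpoly.dvd
      simp only [map_add, map_mul, map_pow, aeval_C, aeval_X]
      exact h
    exact Pool.Agent.N323.PV.zero_of_dvd h1

/-- The basis over `ℚ`. -/
theorem bas_Q {a b : ℤ} {θ : L} (hc : IsCub a b θ) :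
    Bas3 ℚ ((a : ℤ) : ℚ) ((b : ℤ) : ℚ) θ := by
  refine ⟨by rw [map_intCast, map_intCast]; exact hc.root, fun y => ?_, fun r s u h => ?_⟩
  · obtain ⟨r, s, u, h⟩ := hc.gen y
    exact ⟨r, s, u, by simpa using h⟩
  · have h1 : ff ℚ a b ∣ C r + C s * X + C u * X ^ 2 := by
      rw [← hc.minpoly_eq]
      apply minpoly.dvd
      simp only [map_add, map_mul, map_pow, aeval_C, aeval_X]
      exact h
    exact Pool.Agent.N323.PV.zero_of_dvd h1

/-- The norm does not change. -/
theorem norm_up {a b : ℤ} {θ : L} (hc : IsCub a b θ) (htop : M⟮algebraMap L Ω θ⟯ = ⊤)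
    (hΩ : Module.finrank M Ω = 3) (x : L) :
    Algebra.norm M (algebraMap L Ω x) = algebraMap ℚ M (Algebra.norm ℚ x) := by
  obtain ⟨u, v, w, hx⟩ := (bas_Q hc).gen x
  have hx' : algebraMap L Ω x = algebraMap M Ω (algebraMap ℚ M u) +
      algebraMap M Ω (algebraMap ℚ M v) * algebraMap L Ω θ +
      algebraMap M Ω (algebraMap ℚ M w) * (algebraMap L Ω θ) ^ 2 := by
    have e : ∀ q : ℚ, algebraMap L Ω (algebraMap ℚ L q) = algebraMap M Ω (algebraMap ℚ M q) := by
      intro q
      have h1 : (algebraMap L Ω).comp (algebraMap ℚ L) = (algebraMap M Ω).comp (algebraMap ℚ M) :=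
        RingHom.ext_rat _ _
      exact DFunLike.congr_fun h1 q
    rw [hx, map_add, map_add, map_mul, map_mul, map_pow, e, e, e]
  rw [hx', norm3 (bas_M hc htop hΩ), hx, norm3 (bas_Q hc), RingHom.map_det]
  congr 1
  ext i j
  fin_cases i <;> fin_cases j <;> simp

/-- An element of `L` of square norm which is a square in `L M` is a square. -/
theorem inj_sq [IsGalois ℚ M] {a b : ℤ} {θ : L} (hc : IsCub a b θ)
    (htop : M⟮algebraMap L Ω θ⟯ = ⊤) (hΩ : Module.finrank M Ω = 3) {x : L} (hx : x ≠ 0)
    (hN : IsSquare (Algebra.norm ℚ x)) (hsq : IsSquare (algebraMap L Ω x)) : IsSquare x := by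
  haveI := gal_up htop
  haveI : FiniteDimensional L Ω := FiniteDimensional.right ℚ L Ω
  obtain ⟨z, hz⟩ := hsq
  obtain ⟨r, hr⟩ := hN
  have hz0 : z ≠ 0 := by
    rintro rfl
    rw [mul_zero] at hz
    exact hx ((map_eq_zero _).1 hz)
  obtain ⟨e, he⟩ : ∃ e, e = Algebra.norm M z := ⟨_, rfl⟩
  have he2 : e * e = algebraMap ℚ M r * algebraMap ℚ M r := by
    rw [he, ← map_mul, ← hz, norm_up hc htop hΩ, hr, map_mul]
  have hrat : ∃ s : ℚ, e = algebraMap ℚ M s := by
    have h1 : (e - algebraMap ℚ M r) * (e + algebraMap ℚ M r) = 0 := by linear_combination he2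
    rcases mul_eq_zero.1 h1 with h | h
    · exact ⟨r, sub_eq_zero.1 h⟩
    · exact ⟨-r, by rw [map_neg]; exact eq_neg_of_add_eq_zero_left h⟩
  obtain ⟨s, hs⟩ := hrat
  have he0 : e ≠ 0 := by
    rw [he]
    exact (Algebra.norm_ne_zero_iff).2 hz0
  have hfix : ∀ σ : Gal(Ω/L), σ z = z := by
    intro σ
    have h1 : (σ z - z) * (σ z + z) = 0 := by
      have h2 := congrArg σ hz
      rw [σ.commutes, map_mul] at h2
      linear_combination hz - h2
    rcases mul_eq_zero.1 h1 with h | h
    · exact sub_eq_zero.1 h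
    · exfalso
      have hσz : σ z = -z := eq_neg_of_add_eq_zero_left h
      obtain ⟨τ, hτ⟩ := restr (M := M) σ
      have h3 := Algebra.norm_eq_of_equiv_equiv (τ : M ≃+* M) (σ : Ω ≃+* Ω) (by
        ext y
        exact hτ y) z
      have h4 : (σ : Ω ≃+* Ω) z = -z := hσz
      rw [h4] at h3
      have h5 : Algebra.norm M (-z) = -e := by
        have h6 : -z = algebraMap M Ω (-1) * z := by rw [map_neg, map_one]; ring
        rw [h6, map_mul, Algebra.norm_algebraMap, hΩ, he]
        ring
      rw [h5, ← he] at h3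
      have h6 := congrArg (τ : M ≃+* M) h3
      rw [RingEquiv.apply_symm_apply] at h6
      have h7 : (τ : M ≃+* M) e = e := by
        rw [hs]
        exact τ.commutes s
      rw [h7] at h6
      have h8 : (2 : M) * e = 0 := by linear_combination h6
      exact he0 ((mul_eq_zero.1 h8).resolve_left two_ne_zero)
  obtain ⟨y, hy⟩ := (IsGalois.mem_range_algebraMap_iff_fixed z).2 hfix
  refine ⟨y, ?_⟩
  apply (algebraMap L Ω).injective
  rw [hz, map_mul, hy]

end two

end Pool.Agent.K6.H88.TC
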