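import Pool.Agent.K6.H88.TC.Lam

/-!
# The points over the extensions

Helper88 (project TC).
-/

set_option autoImplicit false
set_option linter.all false

open Polynomial IsDedekindDomain WeierstrassCurve WeierstrassCurve.Affine NumberField
open Pool.Agent.TH115.GD
open scoped Classical IntermediateField

namespace Pool.Agent.K6.H88.TC

open Pool.Agent.N922.PQ
open Pool.Agent.N874.PP (sW)

/-- Equal curves have the same points. -/
noncomputable def ptEq {F : Type} [Field F] {W W' : Affine F} (h : W = W') : W.Point ≃+ W'.Point := by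
  subst h
  exact AddEquiv.refl _

theorem ptEq_some {F : Type} [Field F] {W W' : Affine F} (h : W = W') {x y : F}
    (hn : W.Nonsingular x y) : ptEq h (.some x y hn) = .some x y (h ▸ hn) := by
  subst h
  rfl

theorem bc_eq (M : Type) [Field M] [CharZero M] (A B : ℤ) :
    ((sW ((A : ℤ) : ℚ) ((B : ℤ) : ℚ)).baseChange M).toAffine = cW ((A : ℤ) : M) ((B : ℤ) : M) := by
  ext <;> simp [sW, cW, WeierstrassCurve.baseChange, WeierstrassCurve.map]

theorem bc_eq' (M : Type) [Field M] [CharZero M] (A B : ℤ) :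
    ((sW ((A : ℤ) : M) ((B : ℤ) : M)).baseChange M).toAffine = cW ((A : ℤ) : M) ((B : ℤ) : M) := by
  ext <;> simp [sW, cW, WeierstrassCurve.baseChange, WeierstrassCurve.map]

/-- The points over `M` of the curve `y ^ 2 = x ^ 3 + A x + B` over `ℚ`. -/
abbrev EQ (A B : ℤ) (M : Type) [Field M] [CharZero M] : Type :=
  Pt (sW ((A : ℤ) : ℚ) ((B : ℤ) : ℚ)) M

/-- The map to the points of the curve over `M`. -/
noncomputable def eqv (A B : ℤ) (M : Type) [Field M] [CharZero M] :
    EQ A B M ≃+ (cW ((A : ℤ) : M) ((B : ℤ) : M)).Point := ptEq (bc_eq M A B)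

/-- The map to the points of the curve over `M`. -/
noncomputable def eqv' (A B : ℤ) (M : Type) [Field M] [CharZero M] :
    Pt (sW ((A : ℤ) : M) ((B : ℤ) : M)) M ≃+ (cW ((A : ℤ) : M) ((B : ℤ) : M)).Point :=
  ptEq (bc_eq' M A B)

theorem rank_eq (A B : ℤ) (M : Type) [Field M] [CharZero M] :
    Module.finrank ℤ (EQ A B M) = Module.finrank ℤ (Pt (sW ((A : ℤ) : M) ((B : ℤ) : M)) M) :=
  LinearEquiv.finrank_eq ((eqv A B M).trans (eqv' A B M).symm).toIntLinearEquiv

theorem fg_EQ {A B : ℤ} (M : Type) [Field M] [NumberField M] (h : dsc A B ≠ 0) :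
    AddGroup.FG (EQ A B M) := by
  have hd : 4 * ((A : ℤ) : M) ^ 3 + 27 * ((B : ℤ) : M) ^ 2 ≠ 0 := by
    have h1 := h
    unfold dsc at h1
    exact_mod_cast h1
  haveI := Pool.Agent.N273.PQ.mw M _ _ hd
  exact AddGroup.fg_of_surjective (f := ((eqv' A B M).trans (eqv A B M).symm).toAddMonoidHom)
    ((eqv' A B M).trans (eqv A B M).symm).surjective

/-- There is no point of order two. -/
theorem two_EQ {A B : ℤ} (M : Type) [Field M] [CharZero M]
    (h : ∀ t : M, t ^ 3 + (A : M) * t + (B : M) ≠ 0) (P : EQ A B M) (hP : (2 : ℕ) • P = 0) :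
    P = 0 := by
  have h1 : (2 : ℕ) • eqv A B M P = 0 := by
    rw [← map_nsmul, hP, map_zero]
  apply (eqv A B M).injective
  rw [map_zero]
  generalize eqv A B M P = Q at h1
  rcases Q with _ | ⟨x, y, hn⟩
  · rfl
  · exfalso
    rw [two_nsmul] at h1
    have h2 : (Point.some x y hn : (cW ((A : ℤ) : M) ((B : ℤ) : M)).Point) = -Point.some x y hn :=
      eq_neg_of_add_eq_zero_left h1
    rw [Point.neg_some] at h2
    have h3 := (Point.some.inj h2).2
    simp only [negY, cW] at h3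
    have h4 : y = 0 := by
      have : (2 : M) * y = 0 := by linear_combination h3
      exact (mul_eq_zero.1 this).resolve_left two_ne_zero
    have h5 := cW_eq.1 hn.1
    apply h x
    rw [← h5, h4]
    ring

section kq

variable {M Ω : Type} [Field M] [NumberField M] [Field Ω] [NumberField Ω] [Algebra M Ω] {A B : ℤ}
  {t : Ω}

/-- The map `P ↦ x(P) - t`. -/
noncomputable def kq (A B : ℤ) (t : Ω) (P : EQ A B M) : Ω :=
  kap ((A : ℤ) : M) ((B : ℤ) : M) t (eqv A B M P)

theorem kq_zero : kq (M := M) A B t 0 = 1 := by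
  rw [kq, map_zero, kap_zero]

theorem kq_add (hb : Bas3 M ((A : ℤ) : M) ((B : ℤ) : M) t) (P Q : EQ A B M) :
    IsSquare (kq A B t P * kq A B t Q * kq A B t (P + Q)) := by
  rw [kq, kq, kq, map_add]
  exact kap_add hb.root _ _

theorem not_alg (hb : Bas3 M ((A : ℤ) : M) ((B : ℤ) : M) t) (x : M) : algebraMap M Ω x ≠ t := by
  intro h
  obtain ⟨-, h2, -⟩ := hb.lin x (-1) 0 (by
    rw [h, map_neg, map_one, map_zero]
    ring)
  exact one_ne_zero (neg_eq_zero.1 h2)

theorem kq_ne (hb : Bas3 M ((A : ℤ) : M) ((B : ℤ) : M) t) (P : EQ A B M) : kq A B t P ≠ 0 :=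
  kap_ne (not_alg hb) _

theorem kq_norm (hb : Bas3 M ((A : ℤ) : M) ((B : ℤ) : M) t) (P : EQ A B M) :
    IsSquare (Algebra.norm M (kq A B t P)) := by
  rw [kq]
  generalize eqv A B M P = Q
  rcases Q with _ | ⟨x, y, hn⟩
  · change IsSquare (Algebra.norm M (1 : Ω))
    rw [map_one]
    exact ⟨1, by ring⟩
  · rw [kap_some, norm_sub hb]
    exact ⟨y, by rw [← cW_eq.1 hn.1, pow_two]⟩

theorem kq_ker (hb : Bas3 M ((A : ℤ) : M) ((B : ℤ) : M) t) {P : EQ A B M}
    (h : IsSquare (kq A B t P)) : ∃ Q : EQ A B M, P = (2 : ℕ) • Q := by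
  obtain ⟨z, hz⟩ := h
  obtain ⟨u, v, w, rfl⟩ := hb.gen z
  obtain ⟨Q, hQ⟩ := kap_ker (P := eqv A B M P) (u := u) (v := v) (w := w) hb.lin hb.root
    (hz.trans (pow_two _).symm)
  refine ⟨(eqv A B M).symm Q, ?_⟩
  apply (eqv A B M).injective
  rw [hQ, map_nsmul, AddEquiv.apply_symm_apply]

theorem kq_act (σ : Ω ≃+* Ω) (τ : M →ₐ[ℚ] M) (h : ∀ x : M, algebraMap M Ω (τ x) = σ (algebraMap M Ω x))
    (ht : σ t = t) (P : EQ A B M) :
    σ (kq A B t P) = kq A B t (act (sW ((A : ℤ) : ℚ) ((B : ℤ) : ℚ)) τ P) := by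
  rcases P with _ | ⟨x, y, hn⟩
  · change σ (kq A B t 0) = kq A B t (act _ τ 0)
    rw [map_zero, kq_zero, map_one]
  · have e : act (sW ((A : ℤ) : ℚ) ((B : ℤ) : ℚ)) τ (Point.some x y hn) = Point.some (τ x) (τ y) _ :=
      Point.map_some (f := τ) hn
    rw [e, kq, kq]
    have e1 : eqv A B M (Point.some x y hn) = _ := ptEq_some (bc_eq M A B) hn
    have e2 : eqv A B M (Point.some (τ x) (τ y) _) = _ := ptEq_some (bc_eq M A B)
      (((sW ((A : ℤ) : ℚ) ((B : ℤ) : ℚ)).toAffine.baseChange_nonsingular τ.injective x y).mpr hn)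
    rw [e1, e2, kap_some, kap_some, map_sub, h, ht]

/-- Every point satisfies the local conditions. -/
theorem kq_ploc (hnr : ∀ x : M, x ^ 3 + (A : M) * x + (B : M) ≠ 0) (P : EQ A B M) :
    ∃ h : M[X], kq A B t P = aeval t h ∧ ∀ (F : Type) [Field F] [Algebra M F],
      Pool.Agent.N874.PM.PLoc F ((A : ℤ) : M) ((B : ℤ) : M) h := by
  rw [kq]
  generalize eqv A B M P = Q
  rcases Q with _ | ⟨x, y, hn⟩
  · refine ⟨1, ?_, fun F _ _ => Or.inl ⟨1, ?_⟩⟩
    · rw [map_one]
      rfl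
    · simp
  · refine ⟨C x - X, ?_, fun F _ _ => Or.inr ⟨algebraMap M F x, algebraMap M F y, ?_, ?_,
      C (algebraMap M F x) - X, ?_⟩⟩
    · rw [kap_some, map_sub, aeval_C, aeval_X]
    · rw [Ne, (injective_iff_map_eq_zero' _).1 (algebraMap M F).injective]
      intro hy
      apply hnr x
      rw [← cW_eq.1 hn.1, hy]
      ring
    · rw [← map_pow, cW_eq.1 hn.1]
      simp only [map_add, map_mul, map_pow]
    · simp only [Polynomial.map_sub, map_C, map_X]
      rw [← pow_two, sub_self]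
      exact dvd_zero _

end kq

end Pool.Agent.K6.H88.TC
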