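import Mathlib
import Pool.Agent.N922.PQ.Big3

/-!
# Unramified and completely split primes in a compositum

Helper88 (project TC). `dens1`, `dens2`, `dens3`, `exp_pow` are adapted from `Pool.Agent.N874.TW.Gen`
(helper874).
-/

set_option autoImplicit false
set_option linter.all false

open Polynomial IsDedekindDomain NumberField
open scoped Classical IntermediateField Pointwise

namespace Pool.Agent.K6.H88.TC

open Pool.Agent.N922.PQ

theorem exp_pow {a : WithZero (Multiplicative ℤ)} {e : ℕ} (h : a ^ e = WithZero.exp (-1 : ℤ)) :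
    e = 1 := by
  have ha : a ≠ 0 := by
    rintro rfl
    rcases Nat.eq_zero_or_pos e with rfl | he
    · rw [pow_zero] at h
      have : WithZero.exp (0 : ℤ) = WithZero.exp (-1 : ℤ) := by rw [← h]; rfl
      exact absurd (WithZero.exp_injective this) (by norm_num)
    · rw [zero_pow he.ne'] at h
      exact WithZero.exp_ne_zero h.symm
  obtain ⟨m, rfl⟩ : ∃ m : ℤ, a = WithZero.exp m := ⟨WithZero.log a, (WithZero.exp_log ha).symm⟩
  rw [← WithZero.exp_nsmul] at h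
  have h1 := WithZero.exp_injective h
  rw [nsmul_eq_mul] at h1
  have h2 : (e : ℤ) ∣ 1 := ⟨-m, by linarith⟩
  have h3 : e ∣ 1 := by exact_mod_cast h2
  exact Nat.dvd_one.1 h3

section rat

variable {M : Type} [Field M] [NumberField M]

/-- The prime `P` of `ℤ`. -/
noncomputable def pr (P : ℤ) (hP : Prime P) : HeightOneSpectrum ℤ :=
  ⟨Ideal.span {P}, (Ideal.span_singleton_prime hP.ne_zero).2 hP, by
    rw [Ne, Ideal.span_singleton_eq_bot]; exact hP.ne_zero⟩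

theorem lies {P : ℤ} (hP : Prime P) {w : HeightOneSpectrum (𝓞 M)} (h : Ov P w) :
    w.asIdeal.LiesOver (pr P hP).asIdeal := by
  constructor
  have hm : (pr P hP).asIdeal.IsMaximal := (pr P hP).isMaximal
  refine hm.eq_of_le ?_ ?_
  · haveI := w.isPrime
    exact (Ideal.IsPrime.under ℤ w.asIdeal).ne_top
  · change Ideal.span {P} ≤ _
    rw [Ideal.span_singleton_le_iff_mem, Ideal.mem_comap]
    have e : algebraMap ℤ (𝓞 M) P = (P : 𝓞 M) := by simp
    rw [e]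
    exact h

/-- The ramification index is one. -/
theorem idx_one {P : ℤ} (hP : Prime P) {w : HeightOneSpectrum (𝓞 M)} (h : Ov P w)
    (hu : w.valuation M (P : M) = WithZero.exp (-1 : ℤ)) :
    (pr P hP).asIdeal.ramificationIdx' w.asIdeal = 1 := by
  haveI := lies hP h
  have h1 := HeightOneSpectrum.valuation_liesOver M (pr P hP) w (P : ℚ)
  rw [map_intCast (algebraMap ℚ M), hu] at h1
  exact exp_pow h1

/-- The valuation of a rational number. -/
theorem val_rat {P : ℤ} (hP : Prime P) {w : HeightOneSpectrum (𝓞 M)} (h : Ov P w)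
    (hu : w.valuation M (P : M) = WithZero.exp (-1 : ℤ)) (x : ℚ) :
    w.valuation M (algebraMap ℚ M x) = (pr P hP).valuation ℚ x := by
  haveI := lies hP h
  have h1 := HeightOneSpectrum.valuation_liesOver M (pr P hP) w x
  rw [idx_one hP h hu, pow_one] at h1
  exact h1.symm

instance perf (P : ℤ) (hP : Prime P) : PerfectField (pr P hP).asIdeal.ResidueField := by
  haveI : (pr P hP).asIdeal.IsMaximal := (pr P hP).isMaximal
  haveI : Finite (ℤ ⧸ (pr P hP).asIdeal) := by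
    refine Ring.HasFiniteQuotients.finiteQuotient (pr P hP).ne_bot
  haveI : Finite (pr P hP).asIdeal.ResidueField := by
    have hb := Ideal.bijective_algebraMap_quotient_residueField (pr P hP).asIdeal
    exact Finite.of_surjective _ hb.2
  infer_instance

/-- The inertia group is trivial. -/
theorem inertia_one [IsGalois ℚ M] {P : ℤ} (hP : Prime P) {w : HeightOneSpectrum (𝓞 M)}
    (h : Ov P w) (hu : w.valuation M (P : M) = WithZero.exp (-1 : ℤ)) (σ : Gal(M/ℚ))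
    (hσ : ∀ x : 𝓞 M, σ • x - x ∈ w.asIdeal) : σ = 1 := by
  haveI := lies hP h
  haveI := w.isPrime
  haveI := perf P hP
  haveI : (pr P hP).asIdeal.IsPrime := (pr P hP).isPrime
  have h1 := Ideal.card_inertia_eq_ramificationIdxIn (G := Gal(M/ℚ)) (pr P hP).asIdeal w.asIdeal
  rw [Ideal.ramificationIdxIn_eq_ramificationIdx (pr P hP).asIdeal w.asIdeal Gal(M/ℚ),
    ← Ideal.ramificationIdx'_eq_ramificationIdx (pr P hP).asIdeal w.asIdeal (pr P hP).ne_bot,
    idx_one hP h hu] at h1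
  have h2 := Subgroup.card_eq_one.1 h1
  have h3 : σ ∈ w.asIdeal.inertia Gal(M/ℚ) := hσ
  rw [h2, Subgroup.mem_bot] at h3
  exact h3

end rat

section up

variable {L M Ω : Type} [Field L] [NumberField L] [Field M] [NumberField M] [IsGalois ℚ M]
  [Field Ω] [NumberField Ω] [Algebra L Ω] [Algebra M Ω]

/-- The restriction of an automorphism to `M`. -/
theorem restr (σ : Gal(Ω/L)) : ∃ τ : Gal(M/ℚ), ∀ x : M,
    algebraMap M Ω (τ x) = σ (algebraMap M Ω x) := by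
  let σ' : Ω ≃ₐ[ℚ] Ω := (σ : Ω ≃+* Ω).toRatAlgEquiv
  refine ⟨AlgEquiv.restrictNormal σ' M, fun x => ?_⟩
  exact AlgEquiv.restrictNormal_commutes σ' M x

variable [IsGalois L Ω]

/-- A prime which is unramified in `M` is unramified in `L M / L`. -/
theorem idx_up (hgen : ∀ σ : Gal(Ω/L), (∀ x : M, σ (algebraMap M Ω x) = algebraMap M Ω x) → σ = 1)
    {P : ℤ} (hP : Prime P)
    (hu : ∀ w : HeightOneSpectrum (𝓞 M), Ov P w → w.valuation M (P : M) = WithZero.exp (-1 : ℤ))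
    (𝔭 : HeightOneSpectrum (𝓞 L)) (𝔓 : HeightOneSpectrum (𝓞 Ω)) (h : Ov P 𝔓)
    [hl : 𝔓.asIdeal.LiesOver 𝔭.asIdeal] :
    𝔭.asIdeal.ramificationIdx' 𝔓.asIdeal = 1 := by
  haveI := 𝔓.isPrime
  haveI := 𝔭.isPrime
  -- the prime of `M`
  have hw0 : (𝔓.asIdeal.comap (algebraMap (𝓞 M) (𝓞 Ω))) ≠ ⊥ := by
    intro h0
    have h1 : (P : 𝓞 M) ∈ 𝔓.asIdeal.comap (algebraMap (𝓞 M) (𝓞 Ω)) := by
      rw [Ideal.mem_comap, map_intCast]
      exact h
    rw [h0, Ideal.mem_bot] at h1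
    exact hP.ne_zero (by exact_mod_cast h1)
  let w : HeightOneSpectrum (𝓞 M) := ⟨𝔓.asIdeal.comap (algebraMap (𝓞 M) (𝓞 Ω)),
    Ideal.comap_isPrime _ _, hw0⟩
  have hw : Ov P w := by
    change (P : 𝓞 M) ∈ 𝔓.asIdeal.comap (algebraMap (𝓞 M) (𝓞 Ω))
    rw [Ideal.mem_comap, map_intCast]
    exact h
  have hin : 𝔓.asIdeal.inertia Gal(Ω/L) = ⊥ := by
    rw [eq_bot_iff]
    intro σ hσ
    rw [Subgroup.mem_bot]
    apply hgen
    obtain ⟨τ, hτ⟩ := restr (M := M) σ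
    have h1 : τ = 1 := by
      refine inertia_one hP hw (hu w hw) τ fun x => ?_
      change _ ∈ 𝔓.asIdeal.comap (algebraMap (𝓞 M) (𝓞 Ω))
      rw [Ideal.mem_comap]
      have h2 := hσ (algebraMap (𝓞 M) (𝓞 Ω) x)
      have e : algebraMap (𝓞 M) (𝓞 Ω) (τ • x - x) =
          σ • (algebraMap (𝓞 M) (𝓞 Ω) x) - algebraMap (𝓞 M) (𝓞 Ω) x := by
        rw [map_sub]
        congr 1
        apply RingOfIntegers.ext
        exact hτ x
      rw [e]
      exact h2
    intro x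
    rw [← hτ, h1]
    rfl
  haveI : PerfectField 𝔭.asIdeal.ResidueField := by
    haveI : 𝔭.asIdeal.IsMaximal := 𝔭.isMaximal
    haveI : Finite (𝓞 L ⧸ 𝔭.asIdeal) := Ring.HasFiniteQuotients.finiteQuotient 𝔭.ne_bot
    haveI : Finite 𝔭.asIdeal.ResidueField :=
      Finite.of_surjective _ (Ideal.bijective_algebraMap_quotient_residueField 𝔭.asIdeal).2
    infer_instance
  have h1 := Ideal.card_inertia_eq_ramificationIdxIn (G := Gal(Ω/L)) 𝔭.asIdeal 𝔓.asIdeal
  rw [Ideal.ramificationIdxIn_eq_ramificationIdx 𝔭.asIdeal 𝔓.asIdeal Gal(Ω/L),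
    ← Ideal.ramificationIdx'_eq_ramificationIdx 𝔭.asIdeal 𝔓.asIdeal 𝔭.ne_bot, hin] at h1
  rw [← h1]
  simp

theorem val_up (hgen : ∀ σ : Gal(Ω/L), (∀ x : M, σ (algebraMap M Ω x) = algebraMap M Ω x) → σ = 1)
    {P : ℤ} (hP : Prime P)
    (hu : ∀ w : HeightOneSpectrum (𝓞 M), Ov P w → w.valuation M (P : M) = WithZero.exp (-1 : ℤ))
    (𝔭 : HeightOneSpectrum (𝓞 L)) (𝔓 : HeightOneSpectrum (𝓞 Ω)) (h : Ov P 𝔓)
    [hl : 𝔓.asIdeal.LiesOver 𝔭.asIdeal] (x : L) :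
    𝔓.valuation Ω (algebraMap L Ω x) = 𝔭.valuation L x := by
  have h1 := HeightOneSpectrum.valuation_liesOver Ω 𝔭 𝔓 x
  rw [idx_up hgen hP hu 𝔭 𝔓 h, pow_one] at h1
  exact h1.symm

/-- Restriction of primes. -/
theorem down_prime (𝔓 : HeightOneSpectrum (𝓞 Ω)) : ∃ 𝔭 : HeightOneSpectrum (𝓞 L),
    𝔓.asIdeal.LiesOver 𝔭.asIdeal := by
  haveI := 𝔓.isPrime
  refine ⟨⟨𝔓.asIdeal.comap (algebraMap (𝓞 L) (𝓞 Ω)), Ideal.comap_isPrime _ _, ?_⟩, ⟨rfl⟩⟩
  obtain ⟨P, hP, hP'⟩ := exists_below 𝔓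
  intro h0
  have h1 : (P : 𝓞 L) ∈ 𝔓.asIdeal.comap (algebraMap (𝓞 L) (𝓞 Ω)) := by
    rw [Ideal.mem_comap, map_intCast]
    exact hP'
  rw [h0, Ideal.mem_bot] at h1
  exact hP.2.ne_zero (by exact_mod_cast h1)

/-- Primes above. -/
theorem up_prime (𝔭 : HeightOneSpectrum (𝓞 L)) : ∃ 𝔓 : HeightOneSpectrum (𝓞 Ω),
    𝔓.asIdeal.LiesOver 𝔭.asIdeal := by
  haveI := 𝔭.isPrime
  obtain ⟨Q, hQ⟩ := (inferInstance : Nonempty (𝔭.asIdeal.primesOver (𝓞 Ω)))
  haveI := hQ.1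
  haveI := hQ.2
  exact ⟨⟨Q, hQ.1, Ideal.ne_bot_of_liesOver_of_ne_bot 𝔭.ne_bot Q⟩, hQ.2⟩

end up

end Pool.Agent.K6.H88.TC
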