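import Pool.Agent.K6.H88.TC.Top
import Pool.Agent.N922.PQ.Big6

/-!
# The 2-Selmer group over all the extensions at once

Helper88 (project TC), adapted from `Pool.Agent.N922.PQ.Big6` (helper922).
-/

set_option autoImplicit false
set_option linter.all false

open Polynomial IsDedekindDomain WeierstrassCurve WeierstrassCurve.Affine NumberField
open Pool.Agent.TH115.GD
open scoped Classical IntermediateField

namespace Pool.Agent.K6.H88.TC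

open Pool.Agent.N922.PQ
open Pool.Agent.N874.PP (Tup chA chB gq tau Two Ev Sq1 U0 sW IsBeta Rt)
open Pool.Agent.N874.PM (PLoc Lies SelR ShaR)

/-- The Selmer group over `ℚ` is zero. -/
def Base {L : Type} [Field L] [NumberField L] (a b : ℤ) (θ : L) (J : Finset ℤ) : Prop :=
  ∀ α : L, α ≠ 0 → IsSquare (Algebra.norm ℚ α) → Loc2 a b θ α →
    (∀ 𝔓 : HeightOneSpectrum (𝓞 L), (∀ Q ∈ J, ¬ Ov Q 𝔓) → Ev 𝔓 α) →
    (∀ Q ∈ J, ∀ 𝔓 : HeightOneSpectrum (𝓞 L), Ov Q 𝔓 → 𝔓.valuation L θ = 1 →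
      U0 𝔓 ((Q : L) * θ) α) →
    (∀ Q ∈ J, ∀ 𝔓 : HeightOneSpectrum (𝓞 L), Ov Q 𝔓 → 𝔓.valuation L θ < 1 → Ev 𝔓 α) →
    IsSquare α

section abs

variable {L M Ω : Type} [Field L] [NumberField L] [Field M] [NumberField M]
  [Field Ω] [NumberField Ω] [Algebra L Ω] [Algebra M Ω] [IsGalois ℚ M]

include Ω in
theorem selR_abs3 (H : Parts2) {a b : ℤ} {θ : L} {X' : ℕ}
    {S T : Finset ℤ} {s A B : ℤ → ℤ} (hc : IsCub a b θ) (hS : GoodS S s)
    (hF : Fam X' S s T A B a b) (h4 : (4 : ℤ) ∣ a - b) {J : Finset ℤ} (hJ : J ⊆ S)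
    (hsel : Base a b θ J)
    {T' : Finset ℤ} (h2T : (2 : ℤ) ∈ T') (h3T : (3 : ℤ) ∈ T') (hT' : ∀ P ∈ T', IsPr P)
    (hnt : ∀ P ∈ T', ∀ z : ℤ, ¬ P ∣ z ^ 3 + a * z + b)
    (hur : ∀ P : ℤ, IsPr P → P ∉ T' → Unr M P) (hsp : ∀ Q ∈ S, Spl M Q) (hdis : Disjoint S T')
    {n : ℕ} (hM : Module.finrank ℚ M = 2 ^ n) (hΩ : Module.finrank M Ω = 3)
    (htop : M⟮algebraMap L Ω θ⟯ = ⊤) (ha : Odd a) (hb : Odd b)
    (hur2 : Unr M 2) :
    SelR (𝓞 M) (sW (((a * (∏ Q ∈ J, Q) ^ 2 : ℤ)) : M) (((b * (∏ Q ∈ J, Q) ^ 3 : ℤ)) : M)) := by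
  have h6M : (6 : M) ≠ 0 := by norm_num
  have h2K : (2 : ℚ) ≠ 0 := by norm_num
  have hur2' : ∀ w : HeightOneSpectrum (𝓞 M), Ov 2 w →
      w.valuation M 2 = WithZero.exp (-1 : ℤ) := by
    intro w hw
    have h1 := hur2 w hw
    have e : (((2 : ℤ)) : M) = 2 := by norm_num
    rw [e] at h1
    exact h1
  have hnr : ∀ w : HeightOneSpectrum (𝓞 M), Ov 2 w → ∀ t : w.adicCompletion M,
      t ^ 3 + (a : w.adicCompletion M) * t + (b : w.adicCompletion M) ≠ 0 :=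
    fun w hw => H.nr M (𝓞 M) n hM w hw a b ha hb
  have hD1 : 0 < (∏ Q ∈ J, Q) := Finset.prod_pos fun Q hQ => (hS Q (hJ hQ)).1.1
  have hD0 : (∏ Q ∈ J, Q) ≠ 0 := hD1.ne'
  have hD8 : (∏ Q ∈ J, Q) % 8 = 1 := prod_mod8 fun Q hQ => (hS Q (hJ hQ)).2.1
  intro f hf h2f hloc
  obtain ⟨w₀, hw₀⟩ := exists_over (𝓞 M)
  have hirrD := irr_tw' (F := M) (a := a * (∏ Q ∈ J, Q) ^ 2) (b := b * (∏ Q ∈ J, Q) ^ 3)
    (fun t ht => by
      apply no_root_tw' (hnr w₀ hw₀) hD0 (algebraMap M _ t)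
      have h1 := congrArg (algebraMap M (w₀.adicCompletion M)) ht
      rw [map_zero, map_add, map_add, map_mul, map_pow, map_intCast, map_intCast] at h1
      exact h1)
  have hdisc : 4 * (((a * (∏ Q ∈ J, Q) ^ 2 : ℤ)) : M) ^ 3 +
      27 * (((b * (∏ Q ∈ J, Q) ^ 3 : ℤ)) : M) ^ 2 ≠ 0 := by
    have e : 4 * (((a * (∏ Q ∈ J, Q) ^ 2 : ℤ)) : M) ^ 3 +
      27 * (((b * (∏ Q ∈ J, Q) ^ 3 : ℤ)) : M) ^ 2 =
        (((∏ Q ∈ J, Q) ^ 6 * dsc a b : ℤ) : M) := by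
      simp only [dsc, Int.cast_mul, Int.cast_add, Int.cast_pow, Int.cast_ofNat]
      ring
    rw [e, Int.cast_ne_zero]
    exact mul_ne_zero (pow_ne_zero _ hD0) hF.sq.ne_zero
  have hroot : (algebraMap L Ω θ) ^ 3 + (a : Ω) * algebraMap L Ω θ + (b : Ω) = 0 := by
    have h1 := congrArg (algebraMap L Ω) hc.root
    rw [map_zero, map_add, map_add, map_mul, map_pow, map_intCast, map_intCast] at h1
    exact h1
  have hmin : minpoly M (algebraMap L Ω θ) = ff M a b := by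
    haveI : FiniteDimensional M Ω := FiniteDimensional.of_finrank_pos (by rw [hΩ]; norm_num)
    have hint : IsIntegral M (algebraMap L Ω θ) := Algebra.IsIntegral.isIntegral _
    have hd : minpoly M (algebraMap L Ω θ) ∣ ff M a b := by
      apply minpoly.dvd
      simp only [ff, map_add, map_mul, map_pow, aeval_X, aeval_C, map_intCast]
      exact hroot
    have hdeg : (minpoly M (algebraMap L Ω θ)).natDegree = 3 := by
      rw [(Field.primitive_element_iff_minpoly_natDegree_eq M _).1 htop, hΩ]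
    exact (Polynomial.eq_of_monic_of_dvd_of_natDegree_le (minpoly.monic hint) (ff_monic M a b) hd
      (by rw [hdeg, ff_deg])).symm
  have hθi : IsIntegral ℤ θ := by
    refine ⟨X ^ 3 + C a * X + C b, by monicity!, ?_⟩
    rw [← aeval_def]
    simp only [map_add, map_mul, map_pow, aeval_X, aeval_C]
    have h1 := hc.root
    simpa using h1
  obtain ⟨β, hβ⟩ := H.p.gb M _ _ h6M hdisc hirrD f hf h2f
  obtain ⟨h, hh, hn⟩ := H.p.gn M _ _ h6M hdisc hirrD f hf h2f β hβ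
  have hRt : Rt (((a * (∏ Q ∈ J, Q) ^ 2 : ℤ)) : M)
      (((b * (∏ Q ∈ J, Q) ^ 3 : ℤ)) : M)
      (((∏ Q ∈ J, Q : ℤ) : Ω) * algebraMap L Ω θ) := by
    unfold Rt
    rw [map_intCast, map_intCast]
    simp only [Int.cast_mul, Int.cast_pow]
    linear_combination ((∏ Q ∈ J, Q : ℤ) : Ω) ^ 3 * hroot
  have hn2 := hn Ω _ hRt hΩ
  have hcnd := cnd_top' H.p.exq H.p.lie H.p.loc1 H.p.loc2 hc hS hF htop hsp h2T h3T hT' hur
    hdis hJ (h := h)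
    (fun w hw => H.p.glr M (𝓞 M) _ _ h6M hdisc f hf h2f β h hβ hh w (val_two hw) (hloc w)) hn2.1
  have hc2 := c2w_sel (𝓞 M) H.p.glr2 H.sqd H.twg hD0 hD8 hnr hmin hdisc f hf h2f β h hβ hh hloc
  obtain ⟨c1, c2, c3⟩ := H.c2w L M Ω (𝓞 M) a b θ hF.sq.ne_zero hnr hc hΩ htop
  have hsq := H.p.tow n ℚ L M Ω h2K hM hc.rank hΩ
    (fun x => Cnd (𝓞 Ω) J T' (algebraMap L Ω θ) x ∧ C2w M (𝓞 M) a b (algebraMap L Ω θ) x)
    (fun x hx => ⟨cnd_sq hx, c1 x⟩)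
    (fun x y hx hy h h' => ⟨cnd_mul H.p.cls (fun Q hQ => ⟨(hS Q (hJ hQ)).1.2,
        not_dvd_two (hS Q (hJ hQ)).2.1 (hS Q (hJ hQ)).1.1 (hS Q (hJ hQ)).1.2⟩)
      (fun Q hQ 𝔓 h1 h2 => odd_top' H.p.exq htop hc hF.sq (hS Q (hJ hQ)).1.2
        (fun w hw => (hsp Q (hJ hQ) w hw).1)
        (hF.rb Q (hJ hQ)) (fam_ns hS hF (hJ hQ)) 𝔓 h1 h2) hx hy h.1 h'.1, c2 x y h.2 h'.2⟩)
    (fun σ x h => ⟨cnd_sig H.p.sig rfl σ h.1, c3 σ x h.2⟩)
    (fun x hx hC hN => base_sq' htop hθi hsel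
      (fun Q hQ => ⟨(hS Q (hJ hQ)).1.2, hsp Q (hJ hQ)⟩) hur
      (fun P hP => H.p.p3 L (𝓞 L) a b θ hc hF.sq P (hT' P hP).2 (hnt P hP))
      hx hC.1
      (base_two (𝓞 M) H.ud hc ha h4 hur2' hx hN hC.2) hN)
    _ hn2.1 ⟨hcnd, hc2⟩ hn2.2
  exact H.p.gt M _ _ h6M hdisc hirrD f hf h2f β h hβ hh _ _ hRt hΩ hsq

end abs

/-- Only finitely many primes are ramified. -/
theorem ram_fin (hGEN : S_GEN) (hUR : S_UR) (M : Type) [Field M] [NumberField M] :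
    {P : ℤ | IsPr P ∧ ¬ Unr M P}.Finite := by
  obtain ⟨γ, g, δ, hG, -⟩ := hGEN M
  refine (Set.finite_Icc (-|δ|) |δ|).subset ?_
  rintro P ⟨hP, hn⟩
  have hd : P ∣ δ := by
    by_contra hnd
    apply hn
    intro w hw
    have hδ : ¬ Ov δ w := fun h =>
      one_mem_of ((hP.2.irreducible.coprime_iff_not_dvd).2 hnd) hw h
    obtain ⟨v, hv⟩ := (hUR ℚ M ℤ (𝓞 M) γ g δ hG).1 w hδ
    have h1 : w.valuation M (P : M) = v.valuation ℚ (P : ℚ) := by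
      rw [← hv, map_intCast (algebraMap ℚ M)]
    refine le_antisymm (val_le_exp w ?_ ((ov_val P w).1 hw)) ?_
    · exact_mod_cast hP.2.ne_zero
    · rw [h1]
      exact val_sqfree hP.2.irreducible.squarefree v
  have h3 : |P| ≤ |δ| := Int.le_of_dvd (abs_pos.2 hG.ne) ((abs_dvd_abs P δ).2 hd)
  exact abs_le.1 h3

/-- The Selmer groups over all the extensions. -/
theorem selR3 (H : Parts2) (hGEN : S_GEN) {κ : ℕ} (hLB : LBk κ)
    {a b : ℤ} {X' : ℕ}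
    {S T : Finset ℤ} {s A B : ℤ → ℤ} (hS : GoodS S s)
    (hF : Fam X' S s T A B a b) (h4 : (4 : ℤ) ∣ a - b) (hnb : ¬ LBad κ X' S s a b)
    (hT : GoodT T A B) (hdis : Disjoint S T) :
    ∃ J ⊆ S, ∀ (M : Type) [Field M] [NumberField M] [IsGalois ℚ M] (n : ℕ),
      Module.finrank ℚ M = 2 ^ n → Unr M 2 → (∀ Q ∈ S, Spl M Q) →
      (∀ P : ℤ, IsPr P → ¬ Unr M P → ∀ z : ℤ, ¬ P ∣ z ^ 3 + a * z + b) →
      SelR (𝓞 M) (sW (((a * (∏ Q ∈ J, Q) ^ 2 : ℤ)) : M) (((b * (∏ Q ∈ J, Q) ^ 3 : ℤ)) : M)) := by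
  have hnt2 : ∀ z : ℤ, ¬ (2 : ℤ) ∣ z ^ 3 + a * z + b := fam_nt hT hF hT.1
  obtain ⟨ha, hb⟩ := odd_of hnt2
  have hirr : Irreducible (ff ℚ a b) := by
    refine irr_tw' fun t ht => ?_
    refine no_root2 hnt2 (t : ℚ_[2]) ?_
    exact_mod_cast congrArg (fun x : ℚ => (x : ℚ_[2])) ht
  obtain ⟨L, iF, iN, θ, hc, hu⟩ := exists_cub hirr
  obtain ⟨J, hJ, hsel⟩ := core2 (L := L) (𝓞 L) H.p.cls H.p.exq H.p.ns H.p.lin H.p.recp H.p.plm
    H.p.sd H.p.ttv hLB hc hS hT hF hnb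
  refine ⟨J, hJ, fun M _ _ _ n hM hur2 hsp hram => ?_⟩
  obtain ⟨w₀, hw₀⟩ := exists_over (𝓞 M)
  have hnr := H.nr M (𝓞 M) n hM w₀ hw₀ a b ha hb
  have hnrM : ∀ t : M, t ^ 3 + (a : M) * t + (b : M) ≠ 0 := by
    intro t ht
    apply hnr (algebraMap M _ t)
    have h1 := congrArg (algebraMap M (w₀.adicCompletion M)) ht
    rw [map_zero, map_add, map_add, map_mul, map_pow, map_intCast, map_intCast] at h1
    exact h1
  have hirrM : Irreducible (ff M a b) := irr_tw' hnrM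
  obtain ⟨Ω, iF', iA', t, ht, hr, htop, hfin⟩ := exists_field hirrM (ff_monic M a b) (ff_deg M a b)
  haveI : CharZero Ω := charZero_of_injective_algebraMap (algebraMap M Ω).injective
  haveI : FiniteDimensional ℚ Ω := FiniteDimensional.trans ℚ M Ω
  haveI : NumberField Ω := ⟨⟩
  have ht' : t ^ 3 + (a : Ω) * t + (b : Ω) = 0 := by
    simp only [ff, map_add, map_mul, map_pow, aeval_X, aeval_C, map_intCast] at ht
    exact ht
  obtain ⟨φ, hφ⟩ := hu Ω t ht'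
  letI : Algebra L Ω := φ.toAlgebra
  have hroot : algebraMap L Ω θ = t := hφ
  have htop' : M⟮algebraMap L Ω θ⟯ = ⊤ := by rw [hroot]; exact htop
  set T' : Finset ℤ := T ∪ (ram_fin hGEN H.p.ur M).toFinset with hT'
  have hmem : ∀ P : ℤ, P ∈ T' ↔ P ∈ T ∨ (IsPr P ∧ ¬ Unr M P) := by
    intro P
    rw [hT', Finset.mem_union, Set.Finite.mem_toFinset]
    rfl
  refine selR_abs3 (T' := T') H hc hS hF h4 hJ hsel ((hmem 2).2 (Or.inl hT.1))
    ((hmem 3).2 (Or.inl hT.2.1)) (fun P hP => ?_) (fun P hP => ?_) (fun P hP hPT => ?_) hsp ?_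
    hM hr htop' ha hb hur2
  · rcases (hmem P).1 hP with h | h
    · exact (hT.2.2 P h).1
    · exact h.1
  · rcases (hmem P).1 hP with h | h
    · exact fam_nt hT hF h
    · exact hram P h.1 h.2
  · by_contra hn
    exact hPT ((hmem P).2 (Or.inr ⟨hP, hn⟩))
  · rw [Finset.disjoint_left]
    intro Q hQ hQT
    rcases (hmem Q).1 hQT with h | h
    · exact Finset.disjoint_left.1 hdis hQ h
    · exact h.2 fun w hw => (hsp Q hQ w hw).1

end Pool.Agent.K6.H88.TC
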