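import Pool.Agent.K6.H88.TC.GrowB

/-!
# The bound for the 2-Selmer group

Helper88 (project TC).
-/

set_option autoImplicit false
set_option linter.all false

open Polynomial IsDedekindDomain WeierstrassCurve WeierstrassCurve.Affine NumberField
open Pool.Agent.TH115.GD
open scoped Classical IntermediateField

namespace Pool.Agent.K6.H88.TC

open Pool.Agent.N922.PQ
open Pool.Agent.N874.PP (Tup chA chB gq tau Two Ev Sq1 U0 sW IsBeta Rt sg)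
open Pool.Agent.N874.PM (PLoc Lies SelR ShaR)

/-- The product describes the sum of the cocycles. -/
theorem beta_add {K : Type} [Field K] {A B : K} (h6 : (6 : K) ≠ 0)
    (hd : 4 * A ^ 3 + 27 * B ^ 2 ≠ 0) (hirr : Irreducible (X ^ 3 + C A * X + C B : K[X]))
    {f g : (Sep K ≃ₐ[K] Sep K) → Pt (sW A B) (Sep K)} (hf2 : ∀ σ, (2 : ℕ) • f σ = 0)
    (hg2 : ∀ σ, (2 : ℕ) • g σ = 0) {β γ : Sep K → Sep K} (hβ : IsBeta A B f β)
    (hγ : IsBeta A B g γ) : IsBeta A B (fun σ => f σ + g σ) (fun t => β t * γ t) := by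
  obtain ⟨t₁, t₂, t₃, n1, n2, n3, r1, r2, r3, -⟩ := Pool.Agent.N187.PP.exists_roots h6 hirr
  intro t ht
  refine ⟨mul_ne_zero (hβ t ht).1 (hγ t ht).1, fun σ => ?_⟩
  rw [map_mul, (hβ t ht).2 σ, (hγ t ht).2 σ,
    (Pool.Agent.N630.PP.gp3 K (Sep K) A B h6 hd t₁ t₂ t₃ r1 r2 r3 n1 n2 n3).2.1 _ _ (σ t) (hf2 σ)
      (hg2 σ) (Pool.Agent.N187.PP.rt_map' σ ht)]
  ring

/-- The sum of cocycles. -/
theorem coc_add {K : Type} [Field K] {W : WeierstrassCurve K}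
    {f g : (Sep K ≃ₐ[K] Sep K) → Pt W (Sep K)} (hf : IsCoc W f) (hg : IsCoc W g) :
    IsCoc W (fun σ => f σ + g σ) := by
  refine ⟨hf.lc.add hg.lc, fun σ τ => ?_⟩
  rw [hf.mul, hg.mul, map_add]
  abel

/-- There are at most `k` classes in the 2-Selmer group: of `k + 1` cocycles with values in the points
of order two, which are locally coboundaries, two differ by a coboundary. -/
def SelLe (R : Type) {M : Type} [Field M] [CommRing R] [IsDedekindDomain R] [Algebra R M]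
    [IsFractionRing R M] (W : WeierstrassCurve M) (k : ℕ) : Prop :=
  ∀ f : Fin (k + 1) → (Sep M ≃ₐ[M] Sep M) → Pt W (Sep M), (∀ i, IsCoc W (f i)) →
    (∀ i σ, (2 : ℕ) • f i σ = 0) →
    (∀ i, ∀ v : HeightOneSpectrum R, LocTriv W (Comp R M v) (Sep (Comp R M v)) (f i)) →
    ∃ i j, i ≠ j ∧ ∃ T : Pt W (Sep M), (2 : ℕ) • T = 0 ∧
      ∀ σ, f i σ - f j σ = act W (rs M σ) T - T

section su

variable {L M Ω : Type} [Field L] [NumberField L] [Field M] [NumberField M]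
  [Field Ω] [NumberField Ω] [Algebra L Ω] [Algebra M Ω] [IsGalois ℚ M]

/-- The data of the descent. -/
structure SU (L M Ω : Type) [Field L] [NumberField L] [Field M] [NumberField M]
    [Field Ω] [NumberField Ω] [Algebra L Ω] [Algebra M Ω] (a b : ℤ) (θ : L) (X' : ℕ)
    (S T J T' : Finset ℤ) (s A B : ℤ → ℤ) (d : ℤ) (n : ℕ) : Prop where
  cub : IsCub a b θ
  gS : GoodS S s
  fam : Fam X' S s T A B a b
  a3 : a % 4 = 3
  b3 : b % 4 = 3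
  sub : J ⊆ S
  base : Base a b θ J
  two : (2 : ℤ) ∈ T'
  three : (3 : ℤ) ∈ T'
  pr : ∀ P ∈ T', IsPr P
  nt : ∀ P ∈ T', ∀ z : ℤ, ¬ P ∣ z ^ 3 + a * z + b
  ur : ∀ P : ℤ, IsPr P → P ∉ T' → Unr M P
  sp : ∀ Q ∈ S, Spl M Q
  dis : Disjoint S T'
  d0 : d ≠ 0
  dT : ∀ P : ℤ, IsPr P → P ∣ d → P ∈ T'
  deg : Module.finrank ℚ M = 2 ^ n
  deg3 : Module.finrank M Ω = 3
  top : M⟮algebraMap L Ω θ⟯ = ⊤

variable {a b : ℤ} {θ : L} {X' : ℕ} {S T J T' : Finset ℤ} {s A B : ℤ → ℤ} {d : ℤ} {n : ℕ}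

namespace SU

variable (U : SU L M Ω a b θ X' S T J T' s A B d n)

include U

theorem m0 : d * ∏ Q ∈ J, Q ≠ 0 := by
  refine mul_ne_zero U.d0 ?_
  have hD8 : (∏ Q ∈ J, Q) % 8 = 1 := prod_mod8 fun Q hQ => (U.gS Q (U.sub hQ)).2.1
  intro h
  rw [h] at hD8
  norm_num at hD8

theorem dsc_ne : dsc (a * (d * ∏ Q ∈ J, Q) ^ 2) (b * (d * ∏ Q ∈ J, Q) ^ 3) ≠ 0 := by
  have e : dsc (a * (d * ∏ Q ∈ J, Q) ^ 2) (b * (d * ∏ Q ∈ J, Q) ^ 3) =
      (d * ∏ Q ∈ J, Q) ^ 6 * dsc a b := by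
    simp only [dsc]
    ring
  rw [e]
  exact mul_ne_zero (pow_ne_zero _ U.m0) U.fam.sq.ne_zero

theorem ao : Odd a := Int.odd_iff.2 (by have := U.a3; omega)

theorem bo : Odd b := Int.odd_iff.2 (by have := U.b3; omega)

theorem hcm : IsCub (a * (d * ∏ Q ∈ J, Q) ^ 2) (b * (d * ∏ Q ∈ J, Q) ^ 3)
    (((d * ∏ Q ∈ J, Q : ℤ) : L) * θ) := cub_tw U.cub U.m0

theorem htm : M⟮algebraMap L Ω (((d * ∏ Q ∈ J, Q : ℤ) : L) * θ)⟯ = ⊤ := top_tw U.top U.m0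

theorem bas : Bas3 M (((a * (d * ∏ Q ∈ J, Q) ^ 2 : ℤ)) : M) (((b * (d * ∏ Q ∈ J, Q) ^ 3 : ℤ)) : M)
    (algebraMap L Ω (((d * ∏ Q ∈ J, Q : ℤ) : L) * θ)) := bas_M U.hcm U.htm U.deg3

theorem teq : algebraMap L Ω (((d * ∏ Q ∈ J, Q : ℤ) : L) * θ) =
    ((d * ∏ Q ∈ J, Q : ℤ) : Ω) * algebraMap L Ω θ := by
  rw [map_mul, map_intCast]

/-- The condition at the odd primes. -/
theorem cnd (H : Parts2) {h : M[X]}
    (hloc : ∀ w : HeightOneSpectrum (𝓞 M), ¬ Ov 2 w → PLoc (w.adicCompletion M)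
      (((a * (d * ∏ Q ∈ J, Q) ^ 2 : ℤ)) : M) (((b * (d * ∏ Q ∈ J, Q) ^ 3 : ℤ)) : M) h)
    (h0 : aeval (algebraMap L Ω (((d * ∏ Q ∈ J, Q : ℤ) : L) * θ)) h ≠ 0) :
    Cnd (𝓞 Ω) J T' (algebraMap L Ω θ)
      (aeval (algebraMap L Ω (((d * ∏ Q ∈ J, Q : ℤ) : L) * θ)) h) := by
  rw [U.teq] at h0 ⊢
  exact cnd_tw H.p.exq H.p.lie H.p.loc1 H.p.loc2 U.cub U.gS U.fam U.top U.sp U.two U.three U.pr U.ur
    U.dis U.sub U.d0 U.dT hloc h0

theorem cmul (H : Parts2) : ∀ x y : Ω, x ≠ 0 → y ≠ 0 → Cnd (𝓞 Ω) J T' (algebraMap L Ω θ) x →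
      Cnd (𝓞 Ω) J T' (algebraMap L Ω θ) y → Cnd (𝓞 Ω) J T' (algebraMap L Ω θ) (x * y) := by
  intro x y hx hy h h'
  exact cnd_mul H.p.cls (fun Q hQ => ⟨(U.gS Q (U.sub hQ)).1.2,
      not_dvd_two (U.gS Q (U.sub hQ)).2.1 (U.gS Q (U.sub hQ)).1.1 (U.gS Q (U.sub hQ)).1.2⟩)
    (fun Q hQ 𝔓 h1 h2 => odd_top' H.p.exq U.top U.cub U.fam.sq (U.gS Q (U.sub hQ)).1.2
      (fun w hw => (U.sp Q (U.sub hQ) w hw).1)
      (U.fam.rb Q (U.sub hQ)) (fam_ns U.gS U.fam (U.sub hQ)) 𝔓 h1 h2) hx hy h h'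

variable [IsGalois ℚ M]

theorem nr (H : Parts2) {F : Type} [Field F] [CharZero F] (i : F →+* M) (x : F) :
    x ^ 3 + (((a * (d * ∏ Q ∈ J, Q) ^ 2 : ℤ)) : F) * x +
      (((b * (d * ∏ Q ∈ J, Q) ^ 3 : ℤ)) : F) ≠ 0 := by
  intro hx
  have h1 := congrArg i hx
  rw [map_zero, map_add, map_add, map_mul, map_pow, map_intCast, map_intCast] at h1
  exact no_root_tw' (fun t => nr_M H U.ao U.bo M U.deg t) U.m0 (i x) h1

/-- The character on the points. -/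
theorem exists_psi (H : Parts2) : ∃ ψ : EQ (a * (d * ∏ Q ∈ J, Q) ^ 2) (b * (d * ∏ Q ∈ J, Q) ^ 3) M
      →+ ZMod 2,
    ∀ P, (∀ τ : Gal(M/ℚ), ψ (act _ (ak τ) P) = 0) → ∃ Q, P = (2 : ℕ) • Q := by
  obtain ⟨χ, h1, h2⟩ := exists_lam (Ω := Ω) H U.cub U.gS U.fam U.a3 U.b3 U.sub U.base U.pr U.nt U.ur
    U.sp U.deg U.deg3 U.top
  have hb := U.bas
  obtain ⟨t, ht⟩ : ∃ t, t = algebraMap L Ω (((d * ∏ Q ∈ J, Q : ℤ) : L) * θ) := ⟨_, rfl⟩
  rw [← ht] at hb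
  have hsq0 : ∀ y : Ω, y ≠ 0 → χ (y * y) = 0 := by
    intro y hy
    rw [h1 y y hy hy]
    exact CharTwo.add_self_eq_zero _
  have hadd : ∀ P Q : EQ (a * (d * ∏ Q ∈ J, Q) ^ 2) (b * (d * ∏ Q ∈ J, Q) ^ 3) M,
      χ (kq _ _ t (P + Q)) = χ (kq _ _ t P) + χ (kq _ _ t Q) := by
    intro P Q
    obtain ⟨y, hy⟩ := kq_add hb P Q
    have n1 := kq_ne hb P
    have n2 := kq_ne hb Q
    have n3 := kq_ne hb (P + Q)
    have hy0 : y ≠ 0 := by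
      rintro rfl
      rw [mul_zero] at hy
      exact mul_ne_zero (mul_ne_zero n1 n2) n3 hy
    have h3 := congrArg χ hy
    rw [hsq0 y hy0, h1 _ _ (mul_ne_zero n1 n2) n3, h1 _ _ n1 n2] at h3
    have h4 : ∀ p q r : ZMod 2, p + q + r = 0 → r = p + q := by decide
    exact h4 _ _ _ h3
  refine ⟨{ toFun := fun P => χ (kq _ _ t P), map_zero' := ?_, map_add' := hadd }, fun P hP => ?_⟩
  · rw [kq_zero]
    have := hsq0 1 one_ne_zero
    rwa [mul_one] at this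
  · apply kq_ker hb
    obtain ⟨h, hh, hPL⟩ := kq_ploc (t := t) (U.nr H (RingHom.id M)) P
    refine h2 _ (kq_ne hb P) ?_ (kq_norm hb P) fun σ => ?_
    · rw [hh, ht]
      refine U.cnd H (fun w hw => hPL _) ?_
      rw [← ht, ← hh]
      exact kq_ne hb P
    · obtain ⟨τ, hτ⟩ := restr (M := M) σ
      have h3 := kq_act (A := a * (d * ∏ Q ∈ J, Q) ^ 2) (B := b * (d * ∏ Q ∈ J, Q) ^ 3)
        (σ : Ω ≃+* Ω) (ak τ) hτ (t := t) (by
          rw [ht]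
          exact σ.commutes _) P
      have h4 := hP τ
      change χ (kq _ _ t (act _ (ak τ) P)) = 0 at h4
      rw [← h3] at h4
      exact h4

/-- The bound for the Selmer group. -/
theorem sel_le (H : Parts2) : SelLe (𝓞 M) (sW (((a * (d * ∏ Q ∈ J, Q) ^ 2 : ℤ)) : M)
      (((b * (d * ∏ Q ∈ J, Q) ^ 3 : ℤ)) : M)) (2 ^ Module.finrank ℚ M) := by
  have h6M : (6 : M) ≠ 0 := by norm_num
  obtain ⟨χ, h1, h2⟩ := exists_lam (Ω := Ω) H U.cub U.gS U.fam U.a3 U.b3 U.sub U.base U.pr U.nt U.ur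
    U.sp U.deg U.deg3 U.top
  have hb := U.bas
  have hirrD := irr_tw' (U.nr H (RingHom.id M))
  have hdisc : 4 * (((a * (d * ∏ Q ∈ J, Q) ^ 2 : ℤ)) : M) ^ 3 +
      27 * (((b * (d * ∏ Q ∈ J, Q) ^ 3 : ℤ)) : M) ^ 2 ≠ 0 := by
    have h1 := U.dsc_ne
    unfold dsc at h1
    exact_mod_cast h1
  have hRt : Rt (((a * (d * ∏ Q ∈ J, Q) ^ 2 : ℤ)) : M) (((b * (d * ∏ Q ∈ J, Q) ^ 3 : ℤ)) : M)
      (algebraMap L Ω (((d * ∏ Q ∈ J, Q : ℤ) : L) * θ)) := hb.root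
  intro f hf h2f hloc
  choose β hβ using fun i => H.p.gb M _ _ h6M hdisc hirrD (f i) (hf i) (h2f i)
  choose h hh hn using fun i => H.p.gn M _ _ h6M hdisc hirrD (f i) (hf i) (h2f i) (β i) (hβ i)
  obtain ⟨t, ht⟩ : ∃ t, t = algebraMap L Ω (((d * ∏ Q ∈ J, Q : ℤ) : L) * θ) := ⟨_, rfl⟩
  have hn2 := fun i => hn i Ω _ hRt U.deg3
  have hcnd : ∀ i, Cnd (𝓞 Ω) J T' (algebraMap L Ω θ) (aeval t (h i)) := by
    intro i
    rw [ht]
    exact U.cnd H (fun w hw => H.p.glr M (𝓞 M) _ _ h6M hdisc (f i) (hf i) (h2f i) (β i) (h i) (hβ i)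
      (hh i) w (val_two hw) (hloc i w)) (hn2 i).1
  rw [← ht] at hn2 hRt
  haveI := gal_up U.top
  haveI : FiniteDimensional L Ω := FiniteDimensional.right ℚ L Ω
  have hcard : Fintype.card (Gal(Ω/L) → ZMod 2) < Fintype.card (Fin (2 ^ Module.finrank ℚ M + 1)) := by
    rw [Fintype.card_fin, Fintype.card_fun, ZMod.card]
    have e1 : Fintype.card Gal(Ω/L) = Module.finrank L Ω := by
      rw [← Nat.card_eq_fintype_card]
      exact IsGalois.card_aut_eq_finrank L Ω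
    haveI : FiniteDimensional M Ω := FiniteDimensional.of_finrank_pos (by rw [U.deg3]; norm_num)
    have e2 : Module.finrank L Ω = Module.finrank ℚ M := by
      have k1 := Module.finrank_mul_finrank ℚ L Ω
      have k2 := Module.finrank_mul_finrank ℚ M Ω
      rw [U.cub.rank] at k1
      rw [U.deg3] at k2
      omega
    rw [e1, e2]
    omega
  obtain ⟨i, j, hij, he⟩ := Fintype.exists_ne_map_eq_of_card_lt
    (fun i (σ : Gal(Ω/L)) => χ (σ (aeval t (h i)))) hcard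
  refine ⟨i, j, hij, ?_⟩
  have hsq : IsSquare (aeval t (h i * h j)) := by
    rw [map_mul]
    refine h2 _ (mul_ne_zero (hn2 i).1 (hn2 j).1) (U.cmul H _ _ (hn2 i).1 (hn2 j).1 (hcnd i) (hcnd j))
      ?_ fun σ => ?_
    · rw [map_mul]
      exact (hn2 i).2.mul (hn2 j).2
    · have h3 : χ (σ (aeval t (h i))) = χ (σ (aeval t (h j))) := congrFun he σ
      rw [map_mul, h1 _ _ ((_root_.map_ne_zero _).2 (hn2 i).1) ((_root_.map_ne_zero _).2 (hn2 j).1), h3]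
      exact CharTwo.add_self_eq_zero _
  obtain ⟨T₀, hT1, hT2⟩ := H.p.gt M _ _ h6M hdisc hirrD (fun σ => f i σ + f j σ)
    (coc_add (hf i) (hf j)) (fun σ => by rw [smul_add, h2f, h2f, add_zero])
    (fun t => β i t * β j t) (h i * h j) (beta_add h6M hdisc hirrD (h2f i) (h2f j) (hβ i) (hβ j))
    (fun t ht => by rw [map_mul, hh i t ht, hh j t ht, mul_pow]) Ω t hRt U.deg3 hsq
  refine ⟨T₀, hT1, fun σ => ?_⟩
  rw [← hT2 σ]
  have h3 := h2f j σ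
  rw [two_nsmul] at h3
  have h4 : f j σ = -f j σ := eq_neg_of_add_eq_zero_left h3
  rw [sub_eq_add_neg, ← h4]

/-- The growth of the rank. -/
theorem grow (H : Parts2) {F : Type} [Field F] [NumberField F] (i : F →+* M) :
    Module.finrank ℤ (Pt (sW (((a * (d * ∏ Q ∈ J, Q) ^ 2 : ℤ)) : M)
      (((b * (d * ∏ Q ∈ J, Q) ^ 3 : ℤ)) : M)) M) + Module.finrank ℚ F ≤
    Module.finrank ℤ (Pt (sW (((a * (d * ∏ Q ∈ J, Q) ^ 2 : ℤ)) : F)
      (((b * (d * ∏ Q ∈ J, Q) ^ 3 : ℤ)) : F)) F) + Module.finrank ℚ M := by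
  obtain ⟨ψ, hψ⟩ := U.exists_psi H
  rw [← rank_eq, ← rank_eq]
  exact grow_of _ (fg_EQ M U.dsc_ne) ψ hψ i.toRatAlgHom (fg_EQ F U.dsc_ne)
    (two_EQ F (U.nr H i))

end SU

end su

end Pool.Agent.K6.H88.TC
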