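import Pool.Agent.K6.H88.TC.SubB
import Pool.Agent.TH115.TC.Compl

/-!
# The bound for the 2-Selmer group over all subfields

Helper88 (project TC).
-/

set_option autoImplicit false
set_option linter.all false

open Polynomial IsDedekindDomain WeierstrassCurve WeierstrassCurve.Affine NumberField
open Pool.Agent.TH115.GD
open scoped Classical IntermediateField

namespace Pool.Agent.K6.H88.TC

open Pool.Agent.N922.PQ
open Pool.Agent.N874.PP (Tup chA chB gq tau Two Ev Sq1 U0 sW IsBeta Rt sg)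
open Pool.Agent.N874.PM (PLoc Lies SelR ShaR)

/-- The norm and extensions. -/
theorem norm_up' {F E M Ω : Type} [Field F] [Field E] [Field M] [Field Ω] [Algebra F E]
    [Algebra M Ω] (φ : F →+* M) (ι : E →+* Ω)
    (hcomp : ∀ x : F, ι (algebraMap F E x) = algebraMap M Ω (φ x)) {A B : F} {A' B' : M} {t : E}
    {t' : Ω} (hA : φ A = A') (hB : φ B = B') (ht : ι t = t')
    (h : Bas3 F A B t) (h' : Bas3 M A' B' t') (x : E) :
    Algebra.norm M (ι x) = φ (Algebra.norm F x) := by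
  obtain ⟨u, v, w, hx⟩ := h.gen x
  have hx' : ι x = algebraMap M Ω (φ u) + algebraMap M Ω (φ v) * t' +
      algebraMap M Ω (φ w) * t' ^ 2 := by
    rw [hx, map_add, map_add, map_mul, map_mul, map_pow, hcomp, hcomp, hcomp, ht]
  rw [hx', norm3 h', hx, norm3 h, RingHom.map_det, ← hA, ← hB]
  congr 1
  ext i j
  fin_cases i <;> fin_cases j <;> simp

/-- The local conditions and extensions. -/
theorem ploc_up (hLIE : S_LIE) {F M : Type} [Field F] [NumberField F] [Field M] [NumberField M]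
    (i : F →+* M) {A B : ℤ} {h : F[X]}
    (hl : ∀ v : HeightOneSpectrum (𝓞 F), ¬ Ov 2 v →
      PLoc (v.adicCompletion F) ((A : ℤ) : F) ((B : ℤ) : F) h)
    (w : HeightOneSpectrum (𝓞 M)) (hw : ¬ Ov 2 w) :
    PLoc (w.adicCompletion M) ((A : ℤ) : M) ((B : ℤ) : M) (h.map i) := by
  letI : Algebra F M := i.toAlgebra
  obtain ⟨v, hv, hO⟩ := hLIE F M (𝓞 F) (𝓞 M) w
  have hv2 : ¬ Ov 2 v := fun h => hw ((hO 2).1 h)
  obtain ⟨j, hj, -, -⟩ := Pool.Agent.TH115.GD.exists_compl_map v w (algebraMap F M) hv.le hv.lt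
  have hj' : ∀ x : F, j (algebraMap F (v.adicCompletion F) x) =
      algebraMap M (w.adicCompletion M) (i x) := hj
  have hc : j.comp (algebraMap F (v.adicCompletion F)) = (algebraMap M (w.adicCompletion M)).comp i :=
    RingHom.ext hj'
  have eA : ∀ C' : ℤ, j (algebraMap F (v.adicCompletion F) ((C' : ℤ) : F)) =
      algebraMap M (w.adicCompletion M) ((C' : ℤ) : M) := by
    intro C'
    rw [hj', map_intCast]
  have key : ∀ p q : (v.adicCompletion F)[X], p ∣ q → p.map j ∣ q.map j := fun p q h =>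
    Polynomial.map_dvd j h
  rcases hl v hv2 with ⟨g, hg⟩ | ⟨x, y, hy, hxy, g, hg⟩
  · left
    refine ⟨g.map j, ?_⟩
    have h1 := key _ _ hg
    simp only [Polynomial.map_add, Polynomial.map_sub, Polynomial.map_mul, Polynomial.map_pow,
      Polynomial.map_X, Polynomial.map_C, Polynomial.map_map, hc, eA] at h1
    rw [Polynomial.map_map]
    exact h1
  · right
    refine ⟨j x, j y, ?_, ?_, g.map j, ?_⟩
    · rwa [Ne, (injective_iff_map_eq_zero' _).1 j.injective]
    · have h1 := congrArg j hxy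
      simp only [map_add, map_mul, map_pow, eA] at h1
      exact h1
    · have h1 := key _ _ hg
      simp only [Polynomial.map_add, Polynomial.map_sub, Polynomial.map_mul, Polynomial.map_pow,
        Polynomial.map_X, Polynomial.map_C, Polynomial.map_map, hc, eA] at h1
      rw [Polynomial.map_map]
      exact h1

section field

variable {L M Ω : Type} [Field L] [NumberField L] [Field M] [NumberField M]
  [Field Ω] [NumberField Ω] [Algebra L Ω] [Algebra M Ω]

/-- The field `F(θ)` in `M(θ)`. -/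
theorem exists_E {a b : ℤ} {θ : L} (hc : IsCub a b θ)
    (hu : ∀ (E : Type) [Field E] [CharZero E] (t : E), t ^ 3 + (a : E) * t + (b : E) = 0 →
      ∃ φ : L →+* E, φ θ = t) {F : Type} [Field F] [NumberField F] (i : F →+* M)
    (hnr : ∀ t : F, t ^ 3 + (a : F) * t + (b : F) ≠ 0) :
    ∃ (E : Type) (_ : Field E) (_ : NumberField E) (_ : Algebra L E) (_ : Algebra F E) (ι : E →+* Ω),
      F⟮algebraMap L E θ⟯ = ⊤ ∧ Module.finrank F E = 3 ∧
      (∀ x : F, ι (algebraMap F E x) = algebraMap M Ω (i x)) ∧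
      (∀ x : L, ι (algebraMap L E x) = algebraMap L Ω x) := by
  obtain ⟨E, i1, i2, i3, i4, htop, hr⟩ := exists_omega hu F hnr
  letI : Algebra F Ω := ((algebraMap M Ω).comp i).toAlgebra
  have hmin := min_tw hc htop hr
  haveI : FiniteDimensional F E := FiniteDimensional.of_finrank_pos (by rw [hr]; norm_num)
  let pb : PowerBasis F E := (IntermediateField.adjoin.powerBasis
    (Algebra.IsIntegral.isIntegral (R := F) (algebraMap L E θ))).map
    ((IntermediateField.equivOfEq htop).trans IntermediateField.topEquiv)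
  have hgen : pb.gen = algebraMap L E θ := rfl
  have hroot : (algebraMap L Ω θ) ^ 3 + (a : Ω) * algebraMap L Ω θ + (b : Ω) = 0 := by
    have h1 := congrArg (algebraMap L Ω) hc.root
    rw [map_zero, map_add, map_add, map_mul, map_pow, map_intCast, map_intCast] at h1
    exact h1
  have h0 : aeval (algebraMap L Ω θ) (minpoly F pb.gen) = 0 := by
    rw [hgen, hmin]
    simp only [ff, map_add, map_mul, map_pow, aeval_X, aeval_C, map_intCast]
    exact hroot
  let ι := pb.lift (algebraMap L Ω θ) h0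
  have hι : ι (algebraMap L E θ) = algebraMap L Ω θ := by
    rw [← hgen]
    exact pb.lift_gen _ _
  refine ⟨E, i1, i2, i3, i4, (ι : E →+* Ω), htop, hr, fun x => ι.commutes x, fun x => ?_⟩
  obtain ⟨r, s, u, hx⟩ := hc.gen x
  have hq : ∀ q : ℚ, (ι : E →+* Ω) (algebraMap L E ((q : ℚ) : L)) = algebraMap L Ω ((q : ℚ) : L) := by
    intro q
    rw [map_ratCast, map_ratCast, map_ratCast]
  have hι' : (ι : E →+* Ω) (algebraMap L E θ) = algebraMap L Ω θ := hι
  rw [hx]
  simp only [map_add, map_mul, map_pow, hq, hι']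

/-- An element of `F(θ)` of square norm which is a square in `M(θ)` is a square. -/
theorem inj_sqF [IsGalois ℚ M] {a b : ℤ} {θ : L} (htop : M⟮algebraMap L Ω θ⟯ = ⊤)
    (hΩ : Module.finrank M Ω = 3)
    {F E : Type} [Field F] [NumberField F] [Field E] [NumberField E] [Algebra L E] [Algebra F E]
    (i : F →+* M) (ι : E →+* Ω)
    (hcomp : ∀ x : F, ι (algebraMap F E x) = algebraMap M Ω (i x))
    (hL : ∀ x : L, ι (algebraMap L E x) = algebraMap L Ω x) {A B : F} {A' B' : M} {t : E}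
    {t' : Ω} (hA : i A = A') (hB : i B = B') (ht : ι t = t')
    (h : Bas3 F A B t) (h' : Bas3 M A' B' t') {x : E} (hx : x ≠ 0)
    (hN : IsSquare (Algebra.norm F x)) (hsq : IsSquare (ι x)) : IsSquare x := by
  haveI := gal_up htop
  haveI : FiniteDimensional L Ω := FiniteDimensional.right ℚ L Ω
  letI : Algebra E Ω := ι.toAlgebra
  haveI : IsScalarTower L E Ω := IsScalarTower.of_algebraMap_eq fun x => (hL x).symm
  haveI : IsGalois E Ω := IsGalois.tower_top_of_isGalois L E Ω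
  haveI : FiniteDimensional E Ω := FiniteDimensional.right L E Ω
  obtain ⟨z, hz⟩ := hsq
  obtain ⟨r, hr⟩ := hN
  have hz0 : z ≠ 0 := by
    rintro rfl
    rw [mul_zero] at hz
    exact hx ((map_eq_zero _).1 hz)
  obtain ⟨e, he⟩ : ∃ e, e = Algebra.norm M z := ⟨_, rfl⟩
  have he2 : e * e = i r * i r := by
    rw [he, ← map_mul, ← hz, norm_up' i ι hcomp hA hB ht h h', hr, map_mul]
  have hrat : ∃ s : F, e = i s := by
    have h1 : (e - i r) * (e + i r) = 0 := by linear_combination he2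
    rcases mul_eq_zero.1 h1 with h | h
    · exact ⟨r, sub_eq_zero.1 h⟩
    · exact ⟨-r, by rw [map_neg]; exact eq_neg_of_add_eq_zero_left h⟩
  obtain ⟨s, hs⟩ := hrat
  haveI : FiniteDimensional M Ω := FiniteDimensional.of_finrank_pos (by rw [hΩ]; norm_num)
  have he0 : e ≠ 0 := by
    rw [he]
    exact (Algebra.norm_ne_zero_iff).2 hz0
  have hfix : ∀ σ : Gal(Ω/E), σ z = z := by
    intro σ
    have h1 : (σ z - z) * (σ z + z) = 0 := by
      have h2 := congrArg σ hz
      have h3 : σ (ι x) = ι x := σ.commutes x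
      rw [h3, map_mul] at h2
      linear_combination hz - h2
    rcases mul_eq_zero.1 h1 with h | h
    · exact sub_eq_zero.1 h
    · exfalso
      have hσz : σ z = -z := eq_neg_of_add_eq_zero_left h
      obtain ⟨τ, hτ⟩ := restr (M := M) (σ.restrictScalars L)
      have hτ' : ∀ y : M, algebraMap M Ω (τ y) = σ (algebraMap M Ω y) := hτ
      have h3 := Algebra.norm_eq_of_equiv_equiv (τ : M ≃+* M) (σ : Ω ≃+* Ω) (by
        ext y
        exact hτ' y) z
      have h4 : (σ : Ω ≃+* Ω) z = -z := hσz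
      rw [h4] at h3
      have h5 : Algebra.norm M (-z) = -e := by
        have h6 : -z = algebraMap M Ω (-1) * z := by rw [map_neg, map_one]; ring
        rw [h6, map_mul, Algebra.norm_algebraMap, hΩ, he]
        ring
      rw [h5, ← he] at h3
      have h6 := congrArg (τ : M ≃+* M) h3
      rw [RingEquiv.apply_symm_apply] at h6
      have h7 : (τ : M ≃+* M) e = e := by
        apply (algebraMap M Ω).injective
        have h8 : algebraMap M Ω ((τ : M ≃+* M) e) = σ (algebraMap M Ω e) := hτ' e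
        rw [h8, hs, ← hcomp]
        exact σ.commutes (algebraMap F E s)
      rw [h7] at h6
      have h8 : (2 : M) * e = 0 := by linear_combination h6
      exact he0 ((mul_eq_zero.1 h8).resolve_left two_ne_zero)
  obtain ⟨y, hy⟩ := (IsGalois.mem_range_algebraMap_iff_fixed z).2 hfix
  refine ⟨y, ?_⟩
  apply ι.injective
  have hy' : ι y = z := hy
  rw [hz, map_mul, hy']

end field

section su

variable {L M Ω : Type} [Field L] [NumberField L] [Field M] [NumberField M]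
  [Field Ω] [NumberField Ω] [Algebra L Ω] [Algebra M Ω]

variable {a b : ℤ} {θ : L} {X' : ℕ} {S T J T' : Finset ℤ} {s A B : ℤ → ℤ} {d : ℤ} {n : ℕ}

/-- The bound for the Selmer group over a subfield. -/
theorem SU.sel_sub (U : SU L M Ω a b θ X' S T J T' s A B d n) [IsGalois ℚ M] (H : Parts2)
    (hu : ∀ (E : Type) [Field E] [CharZero E] (t : E), t ^ 3 + (a : E) * t + (b : E) = 0 →
      ∃ φ : L →+* E, φ θ = t) {F : Type} [Field F] [NumberField F] (i : F →+* M) :
    SelLe (𝓞 F) (sW (((a * (d * ∏ Q ∈ J, Q) ^ 2 : ℤ)) : F)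
      (((b * (d * ∏ Q ∈ J, Q) ^ 3 : ℤ)) : F)) (2 ^ Module.finrank ℚ F) := by
  have h6 : (6 : F) ≠ 0 := by norm_num
  obtain ⟨χ, h1, h2⟩ := exists_lam (Ω := Ω) H U.cub U.gS U.fam U.a3 U.b3 U.sub U.base U.pr U.nt U.ur
    U.sp U.deg U.deg3 U.top
  obtain ⟨E, i1, i2, i3, i4, ι, htE, hrE, hcomp, hL⟩ := exists_E (Ω := Ω) U.cub hu i (fun x hx => by
    have h1 := congrArg i hx
    rw [map_zero, map_add, map_add, map_mul, map_pow, map_intCast, map_intCast] at h1
    exact nr_M H U.ao U.bo M U.deg _ h1)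
  have hb := U.bas
  have hbE := bas_M (M := F) (Ω := E) U.hcm (top_tw htE U.m0) hrE
  have hirr := irr_tw' (U.nr H i)
  have hdisc : 4 * (((a * (d * ∏ Q ∈ J, Q) ^ 2 : ℤ)) : F) ^ 3 +
      27 * (((b * (d * ∏ Q ∈ J, Q) ^ 3 : ℤ)) : F) ^ 2 ≠ 0 := by
    have h1 := U.dsc_ne
    unfold dsc at h1
    exact_mod_cast h1
  have hRt : Rt (((a * (d * ∏ Q ∈ J, Q) ^ 2 : ℤ)) : F) (((b * (d * ∏ Q ∈ J, Q) ^ 3 : ℤ)) : F)
      (algebraMap L E (((d * ∏ Q ∈ J, Q : ℤ) : L) * θ)) := hbE.root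
  intro f hf h2f hloc
  choose β hβ using fun k => H.p.gb F _ _ h6 hdisc hirr (f k) (hf k) (h2f k)
  choose h hh hn using fun k => H.p.gn F _ _ h6 hdisc hirr (f k) (hf k) (h2f k) (β k) (hβ k)
  obtain ⟨t, ht⟩ : ∃ t, t = algebraMap L Ω (((d * ∏ Q ∈ J, Q : ℤ) : L) * θ) := ⟨_, rfl⟩
  obtain ⟨tE, htE'⟩ : ∃ tE, tE = algebraMap L E (((d * ∏ Q ∈ J, Q : ℤ) : L) * θ) := ⟨_, rfl⟩
  have hn2 := fun k => hn k E _ hRt hrE
  rw [← htE'] at hn2 hRt hbE
  rw [← ht] at hb
  have hιt : ι tE = t := by rw [htE', ht, hL]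
  -- the images of the elements
  have hX : ∀ k, ι (aeval tE (h k)) = aeval t ((h k).map i) := by
    intro k
    rw [← hιt, aeval_def, aeval_def, hom_eval₂, eval₂_map]
    congr 1
    exact RingHom.ext hcomp
  have hX0 : ∀ k, aeval t ((h k).map i) ≠ 0 := by
    intro k
    rw [← hX]
    exact (_root_.map_ne_zero _).2 (hn2 k).1
  have hcnd : ∀ k, Cnd (𝓞 Ω) J T' (algebraMap L Ω θ) (aeval t ((h k).map i)) := by
    intro k
    have hX1 := hX0 k
    rw [ht] at hX1 ⊢
    exact U.cnd H (ploc_up H.p.lie i fun v hv => H.p.glr F (𝓞 F) _ _ h6 hdisc (f k) (hf k) (h2f k)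
      (β k) (h k) (hβ k) (hh k) v (val_two hv) (hloc k v)) hX1
  have hcard : Fintype.card ((F →ₐ[ℚ] M) → ZMod 2) <
      Fintype.card (Fin (2 ^ Module.finrank ℚ F + 1)) := by
    rw [Fintype.card_fin, Fintype.card_fun, ZMod.card, ← card_emb i.toRatAlgHom,
      Nat.card_eq_fintype_card]
    omega
  obtain ⟨k, l, hkl, he⟩ := Fintype.exists_ne_map_eq_of_card_lt
    (fun k (φ : F →ₐ[ℚ] M) => χ (aeval t ((h k).map (φ : F →+* M)))) hcard
  refine ⟨k, l, hkl, ?_⟩
  have hσ : ∀ (σ : Gal(Ω/L)) (τ : Gal(M/ℚ)), (∀ x : M, algebraMap M Ω (τ x) = σ (algebraMap M Ω x)) →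
      ∀ k, σ (aeval t ((h k).map i)) =
        aeval t ((h k).map (((τ : M →ₐ[ℚ] M).comp i.toRatAlgHom : F →ₐ[ℚ] M) : F →+* M)) := by
    intro σ τ hστ k
    have hσt : σ t = t := by
      rw [ht]
      exact σ.commutes _
    rw [aeval_def, aeval_def, eval₂_map, eval₂_map]
    have h3 := hom_eval₂ (h k) ((algebraMap M Ω).comp i) ((σ : Ω ≃+* Ω) : Ω →+* Ω) t
    have h4 : ((σ : Ω ≃+* Ω) : Ω →+* Ω) t = t := hσt
    rw [h4] at h3
    refine h3.trans ?_
    congr 1
    ext x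
    exact (hστ (i x)).symm
  have hsqΩ : IsSquare (ι (aeval tE (h k * h l))) := by
    rw [map_mul, map_mul, hX, hX]
    refine h2 _ (mul_ne_zero (hX0 k) (hX0 l)) (U.cmul H _ _ (hX0 k) (hX0 l) (hcnd k) (hcnd l))
      ?_ fun σ => ?_
    · rw [map_mul, ← hX, ← hX,
        norm_up' i ι hcomp (map_intCast i _) (map_intCast i _) hιt hbE hb,
        norm_up' i ι hcomp (map_intCast i _) (map_intCast i _) hιt hbE hb]
      exact ((hn2 k).2.map i).mul ((hn2 l).2.map i)
    · obtain ⟨τ, hτ⟩ := restr (M := M) σ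
      have h3 := congrFun he ((τ : M →ₐ[ℚ] M).comp i.toRatAlgHom)
      have h3' : χ (aeval t ((h k).map (((τ : M →ₐ[ℚ] M).comp i.toRatAlgHom : F →ₐ[ℚ] M) : F →+* M))) =
        χ (aeval t ((h l).map (((τ : M →ₐ[ℚ] M).comp i.toRatAlgHom : F →ₐ[ℚ] M) : F →+* M))) := h3
      rw [map_mul, h1 _ _ ((_root_.map_ne_zero _).2 (hX0 k)) ((_root_.map_ne_zero _).2 (hX0 l)),
        hσ σ τ hτ, hσ σ τ hτ, h3']
      exact CharTwo.add_self_eq_zero _
  have hsq : IsSquare (aeval tE (h k * h l)) := by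
    refine inj_sqF (a := a) (b := b) U.top U.deg3 i ι hcomp hL (map_intCast i _) (map_intCast i _) hιt hbE hb
      ?_ ?_ hsqΩ
    · rw [map_mul]
      exact mul_ne_zero (hn2 k).1 (hn2 l).1
    · rw [map_mul, map_mul]
      exact (hn2 k).2.mul (hn2 l).2
  obtain ⟨T₀, hT1, hT2⟩ := H.p.gt F _ _ h6 hdisc hirr (fun σ => f k σ + f l σ)
    (coc_add (hf k) (hf l)) (fun σ => by rw [smul_add, h2f, h2f, add_zero])
    (fun t => β k t * β l t) (h k * h l) (beta_add h6 hdisc hirr (h2f k) (h2f l) (hβ k) (hβ l))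
    (fun t ht => by rw [map_mul, hh k t ht, hh l t ht, mul_pow]) E tE hRt hrE hsq
  refine ⟨T₀, hT1, fun σ => ?_⟩
  rw [← hT2 σ]
  have h3 := h2f l σ
  rw [two_nsmul] at h3
  have h4 : f l σ = -f l σ := eq_neg_of_add_eq_zero_left h3
  rw [sub_eq_add_neg, ← h4]

/-- The rank over subfields. -/
theorem SU.rank_sub (U : SU L M Ω a b θ X' S T J T' s A B d n) [IsGalois ℚ M] (H : Parts2)
    {F : Type} [Field F] [NumberField F] (i : F →+* M) :
    AddGroup.FG (Pt (sW (((a * (d * ∏ Q ∈ J, Q) ^ 2 : ℤ)) : F)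
      (((b * (d * ∏ Q ∈ J, Q) ^ 3 : ℤ)) : F)) F) ∧
    Module.finrank ℤ (Pt (sW (((a * (d * ∏ Q ∈ J, Q) ^ 2 : ℤ)) : F)
      (((b * (d * ∏ Q ∈ J, Q) ^ 3 : ℤ)) : F)) F) ≤ Module.finrank ℚ F := by
  obtain ⟨ψ, hψ⟩ := U.exists_psi H
  constructor
  · refine Pool.Agent.N273.PQ.mw F _ _ ?_
    have h1 := U.dsc_ne
    unfold dsc at h1
    exact_mod_cast h1
  · rw [← rank_eq]
    exact Pool.Agent.K6.H88.TC.rank_sub _ ψ hψ (two_EQ M (U.nr H (RingHom.id M))) i.toRatAlgHom
      (fg_EQ F U.dsc_ne)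

/-- The growth of the rank in subfields. -/
theorem SU.grow_sub (U : SU L M Ω a b θ X' S T J T' s A B d n) [IsGalois ℚ M] (H : Parts2)
    {F F' : Type} [Field F] [NumberField F] [Field F'] [NumberField F'] (i : F →+* M) (j : F' →+* F) :
    Module.finrank ℤ (Pt (sW (((a * (d * ∏ Q ∈ J, Q) ^ 2 : ℤ)) : F)
      (((b * (d * ∏ Q ∈ J, Q) ^ 3 : ℤ)) : F)) F) + Module.finrank ℚ F' ≤
    Module.finrank ℤ (Pt (sW (((a * (d * ∏ Q ∈ J, Q) ^ 2 : ℤ)) : F')
      (((b * (d * ∏ Q ∈ J, Q) ^ 3 : ℤ)) : F')) F') + Module.finrank ℚ F := by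
  obtain ⟨ψ, hψ⟩ := U.exists_psi H
  rw [← rank_eq, ← rank_eq]
  exact Pool.Agent.K6.H88.TC.grow_sub _ ψ hψ (two_EQ M (U.nr H (RingHom.id M))) i.toRatAlgHom
    j.toRatAlgHom (fg_EQ F U.dsc_ne) (fg_EQ F' U.dsc_ne)

end su

end Pool.Agent.K6.H88.TC
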