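import Pool.Agent.K6.H88.TC.Count

/-!
# The conditions at `2` for a twist, over an unramified extension

Helper88 (project TC).
-/

set_option autoImplicit false
set_option linter.all false

open Polynomial IsDedekindDomain WeierstrassCurve WeierstrassCurve.Affine NumberField
open Pool.Agent.TH115.GD
open scoped Classical IntermediateField

namespace Pool.Agent.K6.H88.TC

open Pool.Agent.N922.PQ Pool.Agent.K6.H88.TW Pool.Agent.N323.PV

/-! ### the residue field has no zero of the polynomial -/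

section res

open Pool.Agent.N301.PV

variable {M R : Type} [Field M] [CommRing R] [IsDedekindDomain R] [Algebra R M]
  [IsFractionRing R M] (w : HeightOneSpectrum R)

theorem exists_r' (a b : ℤ) (t : w.adicCompletion M) (ht : Valued.v t ≤ 1)
    (h : Valued.v (t ^ 3 + (a : w.adicCompletion M) * t + (b : w.adicCompletion M)) < 1) :
    ∃ r : R, r ^ 3 + (a : R) * r + (b : R) ∈ w.asIdeal := by
  obtain ⟨x, hx⟩ := near_one w t
  have hx1 : w.valuation M x ≤ 1 := by
    rw [← vx]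
    have e : algebraMap M (w.adicCompletion M) x =
        t - (t - algebraMap M (w.adicCompletion M) x) := by ring
    rw [e]
    exact (Valuation.map_sub _ _ _).trans (max_le ht hx.le)
  obtain ⟨r, hr⟩ := w.exists_valuation_sub_lt_of_integer (K := M) hx1 1
  have hr1 : w.valuation M (algebraMap R M r - x) < 1 := by exact_mod_cast hr
  refine ⟨r, ?_⟩
  rw [← w.valuation_lt_one_iff_mem (K := M), ← vx]
  obtain ⟨ρ, hρ⟩ : ∃ ρ, ρ = algebraMap M (w.adicCompletion M) (algebraMap R M r) := ⟨_, rfl⟩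
  have e1 : algebraMap M (w.adicCompletion M) (algebraMap R M (r ^ 3 + (a : R) * r + (b : R))) =
      ρ ^ 3 + (a : w.adicCompletion M) * ρ + (b : w.adicCompletion M) := by
    rw [hρ]
    simp only [map_add, map_mul, map_pow, map_intCast]
  have hd : Valued.v (ρ - t) < 1 := by
    have e : ρ - t = algebraMap M (w.adicCompletion M) (algebraMap R M r - x) -
        (t - algebraMap M (w.adicCompletion M) x) := by
      rw [hρ, map_sub]
      ring
    rw [e]
    refine lt_of_le_of_lt (Valuation.map_sub _ _ _) (max_lt ?_ hx)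
    rw [vx]
    exact hr1
  have hρ1 : Valued.v ρ ≤ 1 := by
    have e : ρ = (ρ - t) + t := by ring
    rw [e]
    exact (Valuation.map_add _ _ _).trans (max_le hd.le ht)
  have e2 : ρ ^ 3 + (a : w.adicCompletion M) * ρ + (b : w.adicCompletion M) =
      (ρ - t) * (ρ * ρ + ρ * t + t * t + (a : w.adicCompletion M)) +
      (t ^ 3 + (a : w.adicCompletion M) * t + (b : w.adicCompletion M)) := by
    ring
  rw [e1, e2]
  refine lt_of_le_of_lt (Valuation.map_add _ _ _) (max_lt ?_ h)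
  rw [map_mul]
  have hmul : ∀ {x y : w.adicCompletion M}, Valued.v x ≤ 1 → Valued.v y ≤ 1 →
      Valued.v (x * y) ≤ 1 := by
    intro x y hx hy
    rw [map_mul]
    exact mul_le_one' hx hy
  have h3 : Valued.v (ρ * ρ + ρ * t + t * t + (a : w.adicCompletion M)) ≤ 1 := by
    refine (Valuation.map_add _ _ _).trans (max_le ?_ (vint _ a))
    refine (Valuation.map_add _ _ _).trans (max_le ?_ (hmul ht ht))
    exact (Valuation.map_add _ _ _).trans (max_le (hmul hρ1 hρ1) (hmul hρ1 ht))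
  calc _ ≤ Valued.v (ρ - t) * 1 := mul_le_mul' le_rfl h3
    _ = Valued.v (ρ - t) := mul_one _
    _ < 1 := hd

end res

theorem nores (M : Type) [Field M] [NumberField M] [IsGalois ℚ M] (n : ℕ)
    (hn : Module.finrank ℚ M = 2 ^ n) (w : HeightOneSpectrum (𝓞 M)) (hw : Ov 2 w) {a b : ℤ}
    (ha : Odd a) (hb : Odd b) (t : w.adicCompletion M) (ht : Valued.v t ≤ 1) :
    Valued.v (t ^ 3 + (a : w.adicCompletion M) * t + (b : w.adicCompletion M)) = 1 := by
  refine le_antisymm ?_ ?_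
  · refine (Valuation.map_add _ _ _).trans (max_le ?_ (Pool.Agent.N301.PV.vint _ b))
    refine (Valuation.map_add _ _ _).trans (max_le ?_ ?_)
    · rw [map_pow]
      exact pow_le_one₀ zero_le' ht
    · rw [map_mul]
      exact mul_le_one' (Pool.Agent.N301.PV.vint _ a) ht
  · by_contra hlt
    rw [not_le] at hlt
    obtain ⟨r, hr⟩ := exists_r' w a b t ht hlt
    haveI := w.isPrime
    refine Pool.Agent.N301.PV.no_root M n hn w.asIdeal ?_ a b ha hb r hr
    have h2 : ((2 : ℤ) : 𝓞 M) ∈ w.asIdeal := hw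
    exact_mod_cast h2

/-! ### the condition for the twist -/

section plf

/-- The class of the polynomial `h` is in the local image over `F` of the twist by `m`. -/
def PLf (F : Type) [Field F] (a b m : ℤ) (h : F[X]) : Prop :=
  (∃ g : F[X], ff F a b ∣ h - g ^ 2) ∨
  ∃ x y : F, y ≠ 0 ∧ y ^ 2 = x ^ 3 + (a * m ^ 2 : F) * x + (b * m ^ 3 : F) ∧
    ∃ g : F[X], ff F a b ∣ (C x - C (m : F) * X) * h - g ^ 2

variable {F : Type} [Field F] {a b m : ℤ}

theorem plf_congr {h h' : F[X]} (hd : ff F a b ∣ h - h')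
    (H : PLf F a b m h) : PLf F a b m h' := by
  rcases H with ⟨g, hg⟩ | ⟨x, y, hy, hxy, g, hg⟩
  · left
    refine ⟨g, ?_⟩
    have e : h' - g ^ 2 = (h - g ^ 2) - (h - h') := by ring
    rw [e]
    exact dvd_sub hg hd
  · right
    refine ⟨x, y, hy, hxy, g, ?_⟩
    have e : (C x - C (m : F) * X) * h' - g ^ 2 =
        ((C x - C (m : F) * X) * h - g ^ 2) - (C x - C (m : F) * X) * (h - h') := by ring
    rw [e]
    exact dvd_sub hg (dvd_mul_of_dvd_right hd _)

theorem plf_sq {h : F[X]} (k : F[X]) (H : PLf F a b m h) : PLf F a b m (k ^ 2 * h) := by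
  rcases H with ⟨g, hg⟩ | ⟨x, y, hy, hxy, g, hg⟩
  · left
    refine ⟨k * g, ?_⟩
    have e : k ^ 2 * h - (k * g) ^ 2 = k ^ 2 * (h - g ^ 2) := by ring
    rw [e]
    exact dvd_mul_of_dvd_right hg _
  · right
    refine ⟨x, y, hy, hxy, k * g, ?_⟩
    have e : (C x - C (m : F) * X) * (k ^ 2 * h) - (k * g) ^ 2 =
        k ^ 2 * ((C x - C (m : F) * X) * h - g ^ 2) := by ring
    rw [e]
    exact dvd_mul_of_dvd_right hg _

theorem comp_dvd' {P Q : F[X]} (q : F[X]) (h : P ∣ Q) : P.comp q ∣ Q.comp q := by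
  obtain ⟨R, rfl⟩ := h
  exact ⟨R.comp q, by rw [mul_comp]⟩

theorem cub_comp' (a b m : ℤ) : (ff F (a * m ^ 2) (b * m ^ 3)).comp (C (m : F) * X) =
    C ((m : F) ^ 3) * ff F a b := by
  unfold ff
  simp only [add_comp, mul_comp, pow_comp, X_comp, C_comp, Int.cast_mul, Int.cast_pow, map_mul,
    map_pow]
  ring

theorem plf_of_pl {h : F[X]} (hP : PL F (a * m ^ 2) (b * m ^ 3) h) :
    PLf F a b m (h.comp (C (m : F) * X)) := by
  rcases hP with ⟨g, hg⟩ | ⟨x, y, hy, hxy, g, hg⟩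
  · left
    refine ⟨g.comp (C (m : F) * X), ?_⟩
    have h2 := comp_dvd' (C (m : F) * X) hg
    rw [cub_comp', sub_comp, pow_comp] at h2
    exact dvd_of_mul_left_dvd h2
  · right
    refine ⟨x, y, hy, ?_, g.comp (C (m : F) * X), ?_⟩
    · rw [hxy]
      push_cast
      ring
    · have h2 := comp_dvd' (C (m : F) * X) hg
      rw [cub_comp', sub_comp, pow_comp, mul_comp, sub_comp, C_comp, X_comp] at h2
      exact dvd_of_mul_left_dvd h2

end plf

/-! ### the twist by an even number -/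

section even

variable {O : Type*} [CommRing O]

/-- squares modulo `f` in the ring of integers: the second coefficient -/
lemma ringE (h1 : ¬ (2 : O) ∣ 1) (h2 : ∀ u : O, 2 ∣ u ^ 2 → 2 ∣ u)
    (h0 : ∀ u w : O, 2 * u = 2 * w → u = w) (a b : ℤ) (hb : Odd b) (g₂ : ℤ)
    (γ s t t0 t1 t2 : O)
    (e1 : 2 * γ + 4 * s = 2 * t0 * t1 - 2 * t1 * t2 * a - t2 ^ 2 * b)
    (e2 : 2 * g₂ + 4 * t = t1 ^ 2 + 2 * t0 * t2 - t2 ^ 2 * a) : Even g₂ := by
  obtain ⟨k, rfl⟩ := hb
  push_cast at e1 e2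
  obtain ⟨u2, hu2⟩ : (2 : O) ∣ t2 := by
    apply h2
    refine ⟨t0 * t1 - t1 * t2 * a - t2 ^ 2 * k - γ - 2 * s, ?_⟩
    linear_combination e1
  obtain ⟨u1, hu1⟩ : (2 : O) ∣ t1 := by
    apply h2
    refine ⟨g₂ + 2 * t - t0 * t2 + u2 * t2 * a, ?_⟩
    linear_combination -e2 + (a * t2) * hu2
  apply even_of_dvd h1
  refine ⟨u1 ^ 2 + t0 * u2 - u2 ^ 2 * a - t, ?_⟩
  apply h0
  rw [hu1, hu2] at e2
  linear_combination e2

variable {F Γ : Type} [Field F] [CharZero F] [LinearOrderedCommGroupWithZero Γ] (v : Valuation F Γ)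

lemma caseE (hv2 : v 2 < 1) (hv : ∀ x : F, v x < 1 → v x ≤ v 2) {a b : ℤ} (hb : Odd b)
    (g₂ : ℤ) {ρ γ s t t0 t1 t2 : F} (hr : v ρ ≤ 1) (hγ : v γ ≤ 1) (hs : v s ≤ 1) (ht : v t ≤ 1)
    (e0 : ρ = t0 ^ 2 - 2 * t1 * t2 * b)
    (e1 : 2 * γ + 4 * s = 2 * t0 * t1 - 2 * t1 * t2 * a - t2 ^ 2 * b)
    (e2 : 2 * g₂ + 4 * t = t1 ^ 2 + 2 * t0 * t2 - t2 ^ 2 * a) : Even g₂ := by
  let γ' : v.integer := ⟨γ, hγ⟩
  let s' : v.integer := ⟨s, hs⟩
  let t' : v.integer := ⟨t, ht⟩
  obtain ⟨k0, k1, k2⟩ := integral v hv2 hb e0 e1 e2 hr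
    (2 * γ' + 4 * s' : v.integer).2 (2 * (g₂ : v.integer) + 4 * t' : v.integer).2
  exact ringE (O := v.integer) (int_h1 v hv2) (int_h2 v hv2 hv) (int_h0 v) a b hb g₂ γ' s' t'
    ⟨t0, k0⟩ ⟨t1, k1⟩ ⟨t2, k2⟩ (Subtype.ext e1) (Subtype.ext e2)

/-- The classes of the points of the twist by `m = 2 m'`, `m'` odd. -/
theorem calcE (hv2 : v 2 < 1) (hv : ∀ x : F, v x < 1 → v x ≤ v 2) {a b : ℤ} (hb : Odd b)
    (hnr : ∀ t : F, v t ≤ 1 → v (t ^ 3 + a * t + b) = 1) {m : ℤ} (hm : m % 4 = 2)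
    (g₁ g₂ : ℤ) {r s t : F} (hr : v r ≤ 1) (hs : v s ≤ 1) (ht : v t ≤ 1)
    (H : PLf F a b m (pol F g₁ g₂ r s t)) : Even g₂ := by
  rcases H with ⟨g, hg⟩ | ⟨x, y, hy, hxy, g, hg⟩
  · obtain ⟨t0, t1, t2, e0, e1, e2⟩ := sq_form (a := a) (b := b) (1 + 4 * r) (2 * g₁ + 4 * s)
      (2 * g₂ + 4 * t) g (by
        convert hg using 1
        unfold pol
        simp only [map_add, map_mul, map_ofNat, map_one]
        ring)
    exact (caseA v hv2 hv hb g₁ g₂ hr hs ht e0 e1 e2).2
  · have hm0 : m ≠ 0 := by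
      rintro rfl
      norm_num at hm
    have hmF : (m : F) ≠ 0 := by exact_mod_cast hm0
    obtain ⟨k, hk⟩ : ∃ k : ℤ, m = 2 * (2 * k + 1) := ⟨m / 4, by omega⟩
    have hvm : v (m : F) = v 2 := by
      have h1 : v (((2 * k + 1 : ℤ)) : F) = 1 := odd_one v hv2 ⟨k, rfl⟩
      rw [hk]
      push_cast at h1 ⊢
      rw [map_mul, h1, mul_one]
    have h20 : v (2 : F) ≠ 0 := (Valuation.ne_zero_iff v).2 two_ne_zero
    have h2pos : 0 < v (2 : F) := (Valuation.pos_iff v).2 two_ne_zero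
    by_cases hx : v x ≤ v (m : F)
    · exfalso
      have ht1 : v (x / m) ≤ 1 := by
        rw [map_div₀]
        exact div_le_one_of_le₀ hx zero_le'
      have h1 := hnr _ ht1
      have h2 : y ^ 2 = (m : F) ^ 3 * ((x / m) ^ 3 + a * (x / m) + b) := by
        rw [hxy]
        field_simp
      have h3 : v y ^ 2 = v 2 ^ 3 := by
        rw [← map_pow, h2, map_mul, h1, mul_one, map_pow, hvm]
      have h4 : v (y / 2) ^ 2 = v 2 := by
        rw [map_div₀, div_pow, h3, pow_succ, mul_div_assoc, mul_comm, div_mul_cancel₀]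
        exact pow_ne_zero _ h20
      have h5 : v (y / 2) < 1 := by
        by_contra hc
        rw [not_lt] at hc
        have h6 := one_le_pow₀ (n := 2) hc
        rw [h4] at h6
        exact absurd hv2 (not_lt.2 h6)
      have h6 := hv _ h5
      have h7 : v 2 ≤ v (2 : F) ^ 2 := by
        calc v (2 : F) = v (y / 2) ^ 2 := h4.symm
          _ ≤ v 2 ^ 2 := pow_le_pow_left₀ zero_le' h6 2
      have h8 : v (2 : F) ^ 2 < v 2 := by
        rw [pow_two]
        calc v (2 : F) * v 2 < 1 * v 2 := mul_lt_mul_of_pos_right hv2 h2pos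
          _ = v 2 := one_mul _
      exact absurd h8 (not_lt.2 h7)
    · rw [not_le] at hx
      have hx0 : x ≠ 0 := by
        rintro rfl
        rw [map_zero] at hx
        exact absurd hx (not_lt.2 zero_le')
      have hvx : 0 < v x := (Valuation.pos_iff v).2 hx0
      have hV : v ((m : F) / x) < 1 := by
        rw [map_div₀]
        exact (div_lt_one₀ hvx).2 hx
      obtain ⟨κ, hκ1, hκ2⟩ := half v (hv _ hV)
      have hmx : (m : F) = 2 * κ * x := by
        rw [← hκ2]
        field_simp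
      -- `n = 1 + 4 δ`
      obtain ⟨δ, hδ⟩ : ∃ δ : F, δ = a * κ ^ 2 + 2 * b * κ ^ 3 := ⟨_, rfl⟩
      let κ' : v.integer := ⟨κ, hκ1⟩
      let δ' : v.integer := (a : v.integer) * κ' ^ 2 + 2 * (b : v.integer) * κ' ^ 3
      have hδ1 : v δ ≤ 1 := by rw [hδ]; exact δ'.2
      have hyx : y ^ 2 = x ^ 3 * (1 + 4 * δ) := by
        rw [hxy, hmx, hδ]
        ring
      let d' : v.integer := ⟨δ, hδ1⟩
      let r' : v.integer := ⟨r, hr⟩
      let s' : v.integer := ⟨s, hs⟩
      let t' : v.integer := ⟨t, ht⟩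
      -- the coefficients
      let c0 : v.integer := (1 + 4 * d') * ((1 + 4 * r') + 2 * κ' * b * (2 * (g₂ : v.integer) + 4 * t'))
      let γ : v.integer := (g₁ : v.integer) - κ'
      let sN : v.integer := s' - 2 * κ' * r' + κ' * a * ((g₂ : v.integer) + 2 * t') +
        d' * ((2 * (g₁ : v.integer) + 4 * s') - 2 * κ' * (1 + 4 * r') +
          2 * κ' * a * (2 * (g₂ : v.integer) + 4 * t'))
      let tN : v.integer := t' - κ' * ((g₁ : v.integer) + 2 * s') +
        d' * ((2 * (g₂ : v.integer) + 4 * t') - 2 * κ' * (2 * (g₁ : v.integer) + 4 * s'))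
      obtain ⟨t0, t1, t2, e0, e1, e2⟩ := sq_form (a := a) (b := b) (c0 : F)
        (2 * (γ : F) + 4 * (sN : F)) (2 * g₂ + 4 * (tN : F)) (C (y / x ^ 2) * g) (by
          have h1 : ff F a b ∣ C ((y / x ^ 2) ^ 2) * ((C x - C (m : F) * X) *
            pol F g₁ g₂ r s t - g ^ 2) := dvd_mul_of_dvd_right hg _
          have h2 : ff F a b ∣ ff F a b * C ((1 + 4 * δ) * (2 * κ * (2 * g₂ + 4 * t))) :=
            dvd_mul_right _ _
          have h3 := dvd_add h1 h2
          have h4 : C ((y / x ^ 2) ^ 2) * (C x - C (m : F) * X) =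
              C (1 + 4 * δ) * (C 1 - C (2 * κ) * X) := by
            have h5 : (y / x ^ 2) ^ 2 * x = 1 + 4 * δ := by
              rw [div_pow, hyx]
              field_simp
            rw [hmx, map_mul (C : F →+* F[X]) (2 * κ) x, ← h5, map_mul (C : F →+* F[X]) _ x]
            simp only [map_one]
            ring
          convert h3 using 1
          have e0' : (c0 : F) = (1 + 4 * δ) * ((1 + 4 * r) + 2 * κ * b * (2 * g₂ + 4 * t)) := rfl
          have e1' : (2 * (γ : F) + 4 * (sN : F)) = (1 + 4 * δ) * ((2 * g₁ + 4 * s) -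
              2 * κ * (1 + 4 * r) + 2 * κ * a * (2 * g₂ + 4 * t)) := by
            have k1 : (γ : F) = g₁ - κ := rfl
            have k2 : (sN : F) = s - 2 * κ * r + κ * a * (g₂ + 2 * t) +
              δ * ((2 * g₁ + 4 * s) - 2 * κ * (1 + 4 * r) + 2 * κ * a * (2 * g₂ + 4 * t)) := rfl
            rw [k1, k2]
            ring
          have e2' : (2 * (g₂ : F) + 4 * (tN : F)) = (1 + 4 * δ) * ((2 * g₂ + 4 * t) -
              2 * κ * (2 * g₁ + 4 * s)) := by
            have k2 : (tN : F) = t - κ * (g₁ + 2 * s) +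
              δ * ((2 * g₂ + 4 * t) - 2 * κ * (2 * g₁ + 4 * s)) := rfl
            rw [k2]
            ring
          have h6 : C ((y / x ^ 2) ^ 2) * ((C x - C (m : F) * X) * pol F g₁ g₂ r s t - g ^ 2) =
              C (1 + 4 * δ) * (C 1 - C (2 * κ) * X) * pol F g₁ g₂ r s t -
                (C (y / x ^ 2) * g) ^ 2 := by
            rw [mul_pow, ← map_pow]
            linear_combination (pol F g₁ g₂ r s t) * h4
          rw [e0', e1', e2', h6]
          unfold pol ff
          simp only [map_add, map_sub, map_mul, map_ofNat, map_one, map_pow]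
          ring)
      exact caseE v hv2 hv hb g₂ c0.2 γ.2 sN.2 tN.2 e0 e1 e2

end even

/-! ### the base of the descent -/

section base

theorem cub_tw {L : Type} [Field L] [NumberField L] {a b : ℤ} {θ : L} (hc : IsCub a b θ) {m : ℤ}
    (hm : m ≠ 0) : IsCub (a * m ^ 2) (b * m ^ 3) ((m : L) * θ) := by
  refine ⟨?_, hc.rank, fun x => ?_⟩
  · push_cast
    linear_combination (m : L) ^ 3 * hc.root
  · obtain ⟨r, s, t, h⟩ := hc.gen x
    have hm' : (m : L) ≠ 0 := by exact_mod_cast hm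
    refine ⟨r, s / m, t / m ^ 2, ?_⟩
    rw [h]
    push_cast
    field_simp

theorem pl2_plf {a b m : ℤ} {h : ℚ_[2][X]} : PLt a b m h ↔ PLf ℚ_[2] a b m h := Iff.rfl

variable {L M Ω : Type} [Field L] [NumberField L] [Field M] [NumberField M]
  [Field Ω] [NumberField Ω] [Algebra L Ω] [Algebra M Ω] [IsGalois ℚ M]

theorem comp_inv {F : Type} [Field F] [CharZero F] {m : ℤ} (hm : m ≠ 0) (h : ℚ[X]) :
    ((h.comp (C (m : ℚ)⁻¹ * X)).map (algebraMap ℚ F)).comp (C (m : F) * X) =
      h.map (algebraMap ℚ F) := by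
  have hmF : (m : F) ≠ 0 := by exact_mod_cast hm
  rw [Polynomial.map_comp, Polynomial.map_mul, Polynomial.map_C, Polynomial.map_X, comp_assoc,
    mul_comp, C_comp, X_comp, ← mul_assoc, ← map_mul, map_inv₀, map_intCast, inv_mul_cancel₀ hmF,
    map_one, one_mul, comp_X]

theorem aeval_inv {θ x : L} {m : ℤ} (hm : m ≠ 0) {h : ℚ[X]} (hh : aeval θ h = x) :
    aeval ((m : L) * θ) (h.comp (C (m : ℚ)⁻¹ * X)) = x := by
  have hm' : (m : L) ≠ 0 := by exact_mod_cast hm
  rw [aeval_comp, map_mul, aeval_C, aeval_X, ← mul_assoc, map_inv₀, map_intCast,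
    inv_mul_cancel₀ hm', one_mul, hh]

omit [NumberField Ω] [IsGalois ℚ M] in
theorem plf_all {a b m : ℤ} (hm : m ≠ 0) {θ x : L}
    (hC : C2w M (𝓞 M) (a * m ^ 2) (b * m ^ 3) (algebraMap L Ω ((m : L) * θ)) (algebraMap L Ω x))
    {w : HeightOneSpectrum (𝓞 M)} (hw : Ov 2 w) {h : ℚ[X]} (hh : aeval θ h = x) :
    PLf (w.adicCompletion M) a b m (h.map (algebraMap ℚ (w.adicCompletion M))) := by
  haveI : CharZero Ω := charZero_of_injective_algebraMap (algebraMap L Ω).injective
  have h1 := hC w hw ((h.comp (C (m : ℚ)⁻¹ * X)).map (algebraMap ℚ M)) (by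
    rw [aeval_map_algebraMap, aeval_algebraMap_apply, aeval_inv hm hh])
  rw [Polynomial.map_map] at h1
  have e : (algebraMap M (w.adicCompletion M)).comp (algebraMap ℚ M) =
      algebraMap ℚ (w.adicCompletion M) := RingHom.ext_rat _ _
  rw [e] at h1
  have h2 := plf_of_pl h1
  rw [comp_inv hm] at h2
  exact h2

theorem val_two_c (hur2 : Unr M 2) {w : HeightOneSpectrum (𝓞 M)} (hw : Ov 2 w) :
    Valued.v (2 : w.adicCompletion M) = WithZero.exp (-1 : ℤ) := by
  have h0 := hur2 w hw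
  have e0 : (((2 : ℤ)) : M) = 2 := by norm_num
  rw [e0] at h0
  have h1 := HeightOneSpectrum.valuedAdicCompletion_eq_valuation' (K := M) w (2 : M)
  rw [h0] at h1
  have e : ((2 : M) : w.adicCompletion M) = 2 := by
    have := map_ofNat (algebraMap M (w.adicCompletion M)) 2
    exact this
  rw [e] at h1
  exact h1

theorem not_th_one {m : ℤ} (h : m % 4 = 1 ∨ m % 4 = 2) : ¬ Th m := by
  rintro ⟨k, m', h1, h2⟩
  rcases k with _ | k
  · rw [pow_zero, one_mul] at h1
    omega
  · rw [pow_succ] at h1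
    have h3 : (4 : ℤ) ∣ m := ⟨4 ^ k * m', by rw [h1]; ring⟩
    omega

/-- The base of the descent at `2`. -/
theorem base_twoM (H : Parts2) {a b m : ℤ} {θ : L} (hc : IsCub a b θ) (ha : a % 4 = 3)
    (hb : b % 4 = 3) (hm : m % 4 = 1 ∨ m % 4 = 2) (hur2 : Unr M 2) {n : ℕ}
    (hM : Module.finrank ℚ M = 2 ^ n) {x : L} (hx : x ≠ 0) (hN : IsSquare (Algebra.norm ℚ x))
    (hC : C2w M (𝓞 M) (a * m ^ 2) (b * m ^ 3) (algebraMap L Ω ((m : L) * θ))
      (algebraMap L Ω x)) : Loc2 a b θ x := by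
  have hm0 : m ≠ 0 := by
    rintro rfl
    norm_num at hm
  have hao : Odd a := Int.odd_iff.2 (by omega)
  have hbo : Odd b := Int.odd_iff.2 (by omega)
  rcases hm with hm | hm
  · have hmo : Odd m := Int.odd_iff.2 (by omega)
    have hur2' : ∀ w : HeightOneSpectrum (𝓞 M), Ov 2 w →
        w.valuation M 2 = WithZero.exp (-1 : ℤ) := by
      intro w hw
      have h1 := hur2 w hw
      have e : (((2 : ℤ)) : M) = 2 := by norm_num
      rw [e] at h1
      exact h1
    have h4 : (4 : ℤ) ∣ a * m ^ 2 - b * m ^ 3 := by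
      obtain ⟨k, hk⟩ : ∃ k, m = 4 * k + 1 := ⟨m / 4, by omega⟩
      obtain ⟨l, hl⟩ : ∃ l, a = b + 4 * l := ⟨(a - b) / 4, by omega⟩
      rw [hk, hl]
      exact ⟨l * (4 * k + 1) ^ 2 - k * b * (4 * k + 1) ^ 2, by ring⟩
    have h5 := base_two (𝓞 M) H.ud (cub_tw hc hm0) (hao.mul (hmo.pow)) h4 hur2' hx hN hC
    have h6 : LocT a b m θ x := by
      intro h hh
      have h7 := h5 _ (aeval_inv hm0 hh)
      have h8 := plf_of_pl (F := ℚ_[2]) (a := a) (b := b) (m := m) h7
      rw [comp_inv hm0] at h8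
      exact h8
    obtain ⟨c, g₁, g₂, r, s, t, h7, h8, -⟩ := nf_of_locT hc ha hb hm0 hx hN h6
    exact loc2_of_nf hc ha hb h7 (h8 (not_th_one (Or.inl hm)))
  · obtain ⟨c, g₁, g₂, r, s, t, hc0, hr, hs, ht, hα⟩ :=
      Pool.Agent.N907.PV.t_NF2 L a b θ hc hao hbo x hx hN
    refine loc2_of_nf (c := c) (g₁ := g₁) (g₂ := g₂) hc ha hb ⟨hc0, hr, hs, ht, hα⟩ ?_
    obtain ⟨k, hk⟩ := hc.exists_poly c
    obtain ⟨k', hk'⟩ := hc.exists_poly c⁻¹
    set P : ℚ[X] := pol ℚ g₁ g₂ ((g₁ * (1 + g₂) : ℤ) + 2 * r) s t with hP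
    have e1 : aeval θ (k ^ 2 * P) = x := by
      rw [map_mul, map_pow, hk, hα]
    have e2 : aeval θ (k' ^ 2 * (k ^ 2 * P)) = aeval θ P := by
      rw [map_mul, map_pow, hk', e1, hα, ← mul_assoc, ← mul_pow, inv_mul_cancel₀ hc0, one_pow,
        one_mul]
    obtain ⟨w, hw⟩ := exists_over (𝓞 M)
    have hv2 := val_two_c hur2 hw
    have h3 := plf_sq (k'.map (algebraMap ℚ (w.adicCompletion M))) (plf_all hm0 hC hw e1)
    rw [← Polynomial.map_pow, ← Polynomial.map_mul] at h3
    have h4 := plf_congr (Pool.Agent.N951.PV.cast_congr hc (w.adicCompletion M) e2) h3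
    rw [hP, Pool.Agent.N951.PV.pol_map] at h4
    have hv2' : Valued.v (2 : w.adicCompletion M) < 1 := by
      rw [hv2, ← WithZero.exp_zero, WithZero.exp_lt_exp]
      norm_num
    have hodd : ∀ q : ℚ, Odd q.den → Valued.v (q : w.adicCompletion M) ≤ 1 := by
      intro q hq
      have h5 : (q : w.adicCompletion M) = (q.num : w.adicCompletion M) / (q.den : w.adicCompletion M) := by
        exact Rat.cast_def q
      have h6 : Valued.v (((q.den : ℤ)) : w.adicCompletion M) = 1 :=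
        odd_one Valued.v hv2' (by exact_mod_cast hq)
      have h7 : (((q.den : ℤ)) : w.adicCompletion M) = (q.den : w.adicCompletion M) := by
        push_cast
        rfl
      rw [h7] at h6
      rw [h5, map_div₀, h6, div_one]
      exact int_le _ _
    refine calcE (v := (Valued.v : Valuation (w.adicCompletion M) (WithZero (Multiplicative ℤ))))
      hv2' ?_ hbo (fun t ht => nores M n hM w hw hao hbo t ht) hm g₁ g₂ ?_ (hodd s hs) (hodd t ht)
      h4
    · intro z hz
      rw [hv2]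
      by_cases h0 : Valued.v z = 0
      · rw [h0]
        exact zero_le'
      · rw [← WithZero.exp_log h0, ← WithZero.exp_zero, WithZero.exp_lt_exp] at hz
        rw [← WithZero.exp_log h0, WithZero.exp_le_exp]
        omega
    · have e5 : ((((g₁ * (1 + g₂) : ℤ) : ℚ) + 2 * r : ℚ) : w.adicCompletion M) =
          ((g₁ * (1 + g₂) : ℤ) : w.adicCompletion M) + ((2 : ℤ) : w.adicCompletion M) * (r : w.adicCompletion M) := by
        push_cast
        ring
      rw [e5]
      refine (Valuation.map_add _ _ _).trans (max_le (int_le _ _) ?_)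
      rw [map_mul]
      exact mul_le_one' (int_le _ _) (hodd r hr)

end base

end Pool.Agent.K6.H88.TC
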