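import Pool.Agent.K6.H88.TC.Tw
import Pool.Agent.K6.H88.TC.TwoM

/-!
# The 2-Selmer groups of the twists over all the extensions at once

Helper88 (project TC).
-/

set_option autoImplicit false
set_option linter.all false

open Polynomial IsDedekindDomain WeierstrassCurve WeierstrassCurve.Affine NumberField
open Pool.Agent.TH115.GD
open scoped Classical IntermediateField

namespace Pool.Agent.K6.H88.TC

open Pool.Agent.N922.PQ
open Pool.Agent.N874.PP (Tup chA chB gq tau Two Ev Sq1 U0 sW IsBeta Rt)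
open Pool.Agent.N874.PM (PLoc Lies SelR ShaR)

section abs

variable {L M Ω : Type} [Field L] [NumberField L] [Field M] [NumberField M]
  [Field Ω] [NumberField Ω] [Algebra L Ω] [Algebra M Ω] [IsGalois ℚ M]

omit [NumberField L] [NumberField M] [NumberField Ω] [IsGalois ℚ M] in
theorem top_tw [CharZero L] [CharZero M] [CharZero Ω] {θ : L} (htop : M⟮algebraMap L Ω θ⟯ = ⊤)
    {m : ℤ} (hm : m ≠ 0) : M⟮algebraMap L Ω ((m : L) * θ)⟯ = ⊤ := by
  rw [eq_top_iff, ← htop, IntermediateField.adjoin_simple_le_iff]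
  have h1 : algebraMap L Ω ((m : L) * θ) ∈ M⟮algebraMap L Ω ((m : L) * θ)⟯ :=
    IntermediateField.mem_adjoin_simple_self _ _
  have h2 : algebraMap M Ω ((m : M)⁻¹) ∈ M⟮algebraMap L Ω ((m : L) * θ)⟯ :=
    IntermediateField.algebraMap_mem _ _
  have h3 := mul_mem h2 h1
  have hm' : (m : Ω) ≠ 0 := by exact_mod_cast hm
  have e : algebraMap M Ω ((m : M)⁻¹) * algebraMap L Ω ((m : L) * θ) = algebraMap L Ω θ := by
    rw [map_inv₀, map_intCast, map_mul, map_intCast, ← mul_assoc, inv_mul_cancel₀ hm', one_mul]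
  rwa [e] at h3

omit [IsGalois ℚ M] in
theorem min_tw {a b : ℤ} {θ : L} (hc : IsCub a b θ) (htop : M⟮algebraMap L Ω θ⟯ = ⊤)
    (hΩ : Module.finrank M Ω = 3) : minpoly M (algebraMap L Ω θ) = ff M a b := by
  haveI : FiniteDimensional M Ω := FiniteDimensional.of_finrank_pos (by rw [hΩ]; norm_num)
  have hroot : (algebraMap L Ω θ) ^ 3 + (a : Ω) * algebraMap L Ω θ + (b : Ω) = 0 := by
    have h1 := congrArg (algebraMap L Ω) hc.root
    rw [map_zero, map_add, map_add, map_mul, map_pow, map_intCast, map_intCast] at h1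
    exact h1
  have hint : IsIntegral M (algebraMap L Ω θ) := Algebra.IsIntegral.isIntegral _
  have hd : minpoly M (algebraMap L Ω θ) ∣ ff M a b := by
    apply minpoly.dvd
    simp only [ff, map_add, map_mul, map_pow, aeval_X, aeval_C, map_intCast]
    exact hroot
  have hdeg : (minpoly M (algebraMap L Ω θ)).natDegree = 3 := by
    rw [(Field.primitive_element_iff_minpoly_natDegree_eq M _).1 htop, hΩ]
  exact (Polynomial.eq_of_monic_of_dvd_of_natDegree_le (minpoly.monic hint) (ff_monic M a b) hd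
    (by rw [hdeg, ff_deg])).symm

/-- The element of a Selmer class satisfies the condition at the primes over `2`. -/
theorem c2w_selT (hGLR2 : S_GLR2) {A B : ℤ} {t : Ω}
    (hmin : minpoly M t = ff M A B)
    (h2 : ∀ w : HeightOneSpectrum (𝓞 M), Ov 2 w → ∀ t : w.adicCompletion M,
      t ^ 3 + (A : w.adicCompletion M) * t + (B : w.adicCompletion M) ≠ 0)
    (hdisc : 4 * ((A : ℤ) : M) ^ 3 + 27 * ((B : ℤ) : M) ^ 2 ≠ 0)
    (f : (Sep M ≃ₐ[M] Sep M) → Pt (sW ((A : ℤ) : M) ((B : ℤ) : M)) (Sep M))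
    (hf : IsCoc (sW ((A : ℤ) : M) ((B : ℤ) : M)) f)
    (h2f : ∀ σ, (2 : ℕ) • f σ = 0) (β : Sep M → Sep M) (h : M[X])
    (hβ : IsBeta ((A : ℤ) : M) ((B : ℤ) : M) f β)
    (hh : ∀ t : Sep M, Rt ((A : ℤ) : M) ((B : ℤ) : M) t → aeval t h = β t ^ 2)
    (hloc : ∀ v : HeightOneSpectrum (𝓞 M), LocTriv (sW ((A : ℤ) : M) ((B : ℤ) : M))
      (Comp (𝓞 M) M v) (Sep (Comp (𝓞 M) M v)) f) :
    C2w M (𝓞 M) A B t (aeval t h) := by
  intro w hw h' hh'
  have h6M : (6 : M) ≠ 0 := by norm_num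
  have hPL := hGLR2 M (𝓞 M) _ _ h6M hdisc f hf h2f β h hβ hh w (fun t ht => by
    rw [map_intCast, map_intCast] at ht
    exact h2 w hw t ht) (hloc w)
  have h3 : PL (w.adicCompletion M) A B (h.map (algebraMap M (w.adicCompletion M))) := by
    have hPL' : PLoc (w.adicCompletion M) ((A : ℤ) : M) ((B : ℤ) : M) h := hPL
    have eA : algebraMap M (w.adicCompletion M) ((A : ℤ) : M) = ((A : ℤ) : w.adicCompletion M) :=
      map_intCast _ _
    have eB : algebraMap M (w.adicCompletion M) ((B : ℤ) : M) = ((B : ℤ) : w.adicCompletion M) :=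
      map_intCast _ _
    unfold PLoc at hPL'
    rw [eA, eB] at hPL'
    exact hPL'
  refine pl_congr ?_ h3
  have h4 : ff M A B ∣ h - h' := by
    rw [← hmin]
    apply minpoly.dvd
    rw [map_sub, hh', sub_self]
  have h5 := Polynomial.map_dvd (algebraMap M (w.adicCompletion M)) h4
  rw [ff_map, Polynomial.map_sub] at h5
  exact h5

include Ω in
theorem selR_absT (H : Parts2) {a b d : ℤ} {θ : L} {X' : ℕ}
    {S T : Finset ℤ} {s A B : ℤ → ℤ} (hc : IsCub a b θ) (hS : GoodS S s)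
    (hF : Fam X' S s T A B a b) (ha3 : a % 4 = 3) (hb3 : b % 4 = 3) {J : Finset ℤ} (hJ : J ⊆ S)
    (hsel : Base a b θ J) (hd4 : d % 4 = 1 ∨ d % 4 = 2)
    {T' : Finset ℤ} (h2T : (2 : ℤ) ∈ T') (h3T : (3 : ℤ) ∈ T') (hT' : ∀ P ∈ T', IsPr P)
    (hdT : ∀ P : ℤ, IsPr P → P ∣ d → P ∈ T')
    (hnt : ∀ P ∈ T', ∀ z : ℤ, ¬ P ∣ z ^ 3 + a * z + b)
    (hur : ∀ P : ℤ, IsPr P → P ∉ T' → Unr M P) (hsp : ∀ Q ∈ S, Spl M Q) (hdis : Disjoint S T')
    {n : ℕ} (hM : Module.finrank ℚ M = 2 ^ n) (hΩ : Module.finrank M Ω = 3)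
    (htop : M⟮algebraMap L Ω θ⟯ = ⊤) (hur2 : Unr M 2) :
    SelR (𝓞 M) (sW (((a * (d * ∏ Q ∈ J, Q) ^ 2 : ℤ)) : M)
      (((b * (d * ∏ Q ∈ J, Q) ^ 3 : ℤ)) : M)) := by
  have h6M : (6 : M) ≠ 0 := by norm_num
  have h2K : (2 : ℚ) ≠ 0 := by norm_num
  have ha : Odd a := Int.odd_iff.2 (by omega)
  have hb : Odd b := Int.odd_iff.2 (by omega)
  have hnr : ∀ w : HeightOneSpectrum (𝓞 M), Ov 2 w → ∀ t : w.adicCompletion M,
      t ^ 3 + (a : w.adicCompletion M) * t + (b : w.adicCompletion M) ≠ 0 :=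
    fun w hw => H.nr M (𝓞 M) n hM w hw a b ha hb
  have hD8 : (∏ Q ∈ J, Q) % 8 = 1 := prod_mod8 fun Q hQ => (hS Q (hJ hQ)).2.1
  have hd0 : d ≠ 0 := by
    rintro rfl
    norm_num at hd4
  obtain ⟨m, hm⟩ : ∃ m : ℤ, m = d * ∏ Q ∈ J, Q := ⟨_, rfl⟩
  have hm4 : m % 4 = 1 ∨ m % 4 = 2 := by
    have h1 : (∏ Q ∈ J, Q) % 4 = 1 := by omega
    rcases hd4 with h | h
    · left
      rw [hm, Int.mul_emod, h, h1]
      norm_num
    · right
      rw [hm, Int.mul_emod, h, h1]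
      norm_num
  have hm0 : m ≠ 0 := by
    rintro h
    rw [h] at hm4
    norm_num at hm4
  rw [← hm]
  have hnrm : ∀ w : HeightOneSpectrum (𝓞 M), Ov 2 w → ∀ t : w.adicCompletion M,
      t ^ 3 + (((a * m ^ 2 : ℤ)) : w.adicCompletion M) * t +
        (((b * m ^ 3 : ℤ)) : w.adicCompletion M) ≠ 0 :=
    fun w hw t => no_root_tw' (hnr w hw) hm0 t
  intro f hf h2f hloc
  obtain ⟨w₀, hw₀⟩ := exists_over (𝓞 M)
  have hirrD := irr_tw' (F := M) (a := a * m ^ 2) (b := b * m ^ 3)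
    (fun t ht => by
      apply hnrm w₀ hw₀ (algebraMap M _ t)
      have h1 := congrArg (algebraMap M (w₀.adicCompletion M)) ht
      rw [map_zero, map_add, map_add, map_mul, map_pow, map_intCast, map_intCast] at h1
      exact h1)
  have hdsc : dsc (a * m ^ 2) (b * m ^ 3) ≠ 0 := by
    have e : dsc (a * m ^ 2) (b * m ^ 3) = m ^ 6 * dsc a b := by
      simp only [dsc]
      ring
    rw [e]
    exact mul_ne_zero (pow_ne_zero _ hm0) hF.sq.ne_zero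
  have hdisc : 4 * (((a * m ^ 2 : ℤ)) : M) ^ 3 +
      27 * (((b * m ^ 3 : ℤ)) : M) ^ 2 ≠ 0 := by
    have h1 := hdsc
    unfold dsc at h1
    exact_mod_cast h1
  have hroot : (algebraMap L Ω θ) ^ 3 + (a : Ω) * algebraMap L Ω θ + (b : Ω) = 0 := by
    have h1 := congrArg (algebraMap L Ω) hc.root
    rw [map_zero, map_add, map_add, map_mul, map_pow, map_intCast, map_intCast] at h1
    exact h1
  have hθi : IsIntegral ℤ θ := by
    refine ⟨X ^ 3 + C a * X + C b, by monicity!, ?_⟩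
    rw [← aeval_def]
    simp only [map_add, map_mul, map_pow, aeval_X, aeval_C]
    have h1 := hc.root
    simpa using h1
  have htop' := top_tw htop hm0
  have hcm := cub_tw hc hm0
  have hmin := min_tw hcm htop' hΩ
  have eθ : algebraMap L Ω ((m : L) * θ) = ((m : ℤ) : Ω) * algebraMap L Ω θ := by
    rw [map_mul, map_intCast]
  obtain ⟨β, hβ⟩ := H.p.gb M _ _ h6M hdisc hirrD f hf h2f
  obtain ⟨h, hh, hn⟩ := H.p.gn M _ _ h6M hdisc hirrD f hf h2f β hβ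
  have hRt : Rt (((a * m ^ 2 : ℤ)) : M)
      (((b * m ^ 3 : ℤ)) : M)
      (((m : ℤ) : Ω) * algebraMap L Ω θ) := by
    unfold Rt
    rw [map_intCast, map_intCast]
    simp only [Int.cast_mul, Int.cast_pow]
    linear_combination ((m : ℤ) : Ω) ^ 3 * hroot
  have hn2 := hn Ω _ hRt hΩ
  have hPLoc : ∀ w : HeightOneSpectrum (𝓞 M), ¬ Ov 2 w → PLoc (w.adicCompletion M)
      (((a * m ^ 2 : ℤ)) : M) (((b * m ^ 3 : ℤ)) : M) h := fun w hw =>
    H.p.glr M (𝓞 M) _ _ h6M hdisc f hf h2f β h hβ hh w (val_two hw) (hloc w)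
  have hcnd : Cnd (𝓞 Ω) J T' (algebraMap L Ω θ) (aeval (((m : ℤ) : Ω) * algebraMap L Ω θ) h) := by
    have h1 := cnd_tw H.p.exq H.p.lie H.p.loc1 H.p.loc2 hc hS hF htop hsp h2T h3T hT' hur
      hdis hJ hd0 hdT (h := h) (by rw [← hm]; exact hPLoc) (by rw [← hm]; exact hn2.1)
    rw [← hm] at h1
    exact h1
  have hc2 := c2w_selT H.p.glr2 hmin hnrm hdisc f hf h2f β h hβ hh hloc
  obtain ⟨c1, c2, c3⟩ := H.c2w L M Ω (𝓞 M) (a * m ^ 2) (b * m ^ 3) ((m : L) * θ) hdsc hnrm hcm hΩ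
    htop'
  have hsq := H.p.tow n ℚ L M Ω h2K hM hc.rank hΩ
    (fun x => Cnd (𝓞 Ω) J T' (algebraMap L Ω θ) x ∧
      C2w M (𝓞 M) (a * m ^ 2) (b * m ^ 3) (algebraMap L Ω ((m : L) * θ)) x)
    (fun x hx => ⟨cnd_sq hx, c1 x⟩)
    (fun x y hx hy h h' => ⟨cnd_mul H.p.cls (fun Q hQ => ⟨(hS Q (hJ hQ)).1.2,
        not_dvd_two (hS Q (hJ hQ)).2.1 (hS Q (hJ hQ)).1.1 (hS Q (hJ hQ)).1.2⟩)
      (fun Q hQ 𝔓 h1 h2 => odd_top' H.p.exq htop hc hF.sq (hS Q (hJ hQ)).1.2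
        (fun w hw => (hsp Q (hJ hQ) w hw).1)
        (hF.rb Q (hJ hQ)) (fam_ns hS hF (hJ hQ)) 𝔓 h1 h2) hx hy h.1 h'.1, c2 x y h.2 h'.2⟩)
    (fun σ x h => ⟨cnd_sig H.p.sig rfl σ h.1, c3 σ x h.2⟩)
    (fun x hx hC hN => base_sq' htop hθi hsel
      (fun Q hQ => ⟨(hS Q (hJ hQ)).1.2, hsp Q (hJ hQ)⟩) hur
      (fun P hP => H.p.p3 L (𝓞 L) a b θ hc hF.sq P (hT' P hP).2 (hnt P hP))
      hx hC.1
      (base_twoM H hc ha3 hb3 hm4 hur2 hM hx hN hC.2) hN)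
    (aeval (((m : ℤ) : Ω) * algebraMap L Ω θ) h) hn2.1 ⟨hcnd, by rw [eθ]; rw [eθ] at hc2; exact hc2⟩
    hn2.2
  exact H.p.gt M _ _ h6M hdisc hirrD f hf h2f β h hβ hh _ _ hRt hΩ hsq

end abs

/-- The field `M(θ)`. -/
theorem exists_omega {L : Type} [Field L] [NumberField L] {a b : ℤ} {θ : L}
    (hu : ∀ (E : Type) [Field E] [CharZero E] (t : E), t ^ 3 + (a : E) * t + (b : E) = 0 →
      ∃ φ : L →+* E, φ θ = t) (M : Type) [Field M] [NumberField M]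
    (hnrM : ∀ t : M, t ^ 3 + (a : M) * t + (b : M) ≠ 0) :
    ∃ (Ω : Type) (_ : Field Ω) (_ : NumberField Ω) (_ : Algebra L Ω) (_ : Algebra M Ω),
      M⟮algebraMap L Ω θ⟯ = ⊤ ∧ Module.finrank M Ω = 3 := by
  have hirrM : Irreducible (ff M a b) := irr_tw' hnrM
  obtain ⟨Ω, iF', iA', t, ht, hr, htop, hfin⟩ := exists_field hirrM (ff_monic M a b) (ff_deg M a b)
  haveI : CharZero Ω := charZero_of_injective_algebraMap (algebraMap M Ω).injective
  haveI : FiniteDimensional ℚ Ω := FiniteDimensional.trans ℚ M Ω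
  haveI : NumberField Ω := ⟨⟩
  have ht' : t ^ 3 + (a : Ω) * t + (b : Ω) = 0 := by
    simp only [ff, map_add, map_mul, map_pow, aeval_X, aeval_C, map_intCast] at ht
    exact ht
  obtain ⟨φ, hφ⟩ := hu Ω t ht'
  letI : Algebra L Ω := φ.toAlgebra
  have hroot : algebraMap L Ω θ = t := hφ
  refine ⟨Ω, iF', ⟨⟩, φ.toAlgebra, iA', ?_, hr⟩
  rw [hroot]
  exact htop

/-- The cubic field and the twist. -/
theorem exists_base (H : Parts2) {κ : ℕ} (hLB : LBk κ)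
    {a b : ℤ} {X' : ℕ} {S T : Finset ℤ} {s A B : ℤ → ℤ} (hS : GoodS S s)
    (hF : Fam X' S s T A B a b) (hnb : ¬ LBad κ X' S s a b) (hT : GoodT T A B) :
    ∃ (L : Type) (_ : Field L) (_ : NumberField L) (θ : L), IsCub a b θ ∧
      (∀ (E : Type) [Field E] [CharZero E] (t : E), t ^ 3 + (a : E) * t + (b : E) = 0 →
        ∃ φ : L →+* E, φ θ = t) ∧ ∃ J ⊆ S, Base a b θ J := by
  have hnt2 : ∀ z : ℤ, ¬ (2 : ℤ) ∣ z ^ 3 + a * z + b := fam_nt hT hF hT.1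
  have hirr : Irreducible (ff ℚ a b) := by
    refine irr_tw' fun t ht => ?_
    refine no_root2 hnt2 (t : ℚ_[2]) ?_
    exact_mod_cast congrArg (fun x : ℚ => (x : ℚ_[2])) ht
  obtain ⟨L, iF, iN, θ, hc, hu⟩ := exists_cub hirr
  obtain ⟨J, hJ, hsel⟩ := core2 (L := L) (𝓞 L) H.p.cls H.p.exq H.p.ns H.p.lin H.p.recp H.p.plm
    H.p.sd H.p.ttv hLB hc hS hT hF hnb
  exact ⟨L, iF, iN, θ, hc, fun E _ _ t ht => hu E t ht, J, hJ, hsel⟩

/-- There is no zero in `M`. -/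
theorem nr_M (H : Parts2) {a b : ℤ} (ha : Odd a) (hb : Odd b) (M : Type) [Field M] [NumberField M]
    [IsGalois ℚ M] {n : ℕ} (hM : Module.finrank ℚ M = 2 ^ n) (t : M) :
    t ^ 3 + (a : M) * t + (b : M) ≠ 0 := by
  obtain ⟨w₀, hw₀⟩ := exists_over (𝓞 M)
  intro ht
  apply H.nr M (𝓞 M) n hM w₀ hw₀ a b ha hb (algebraMap M _ t)
  have h1 := congrArg (algebraMap M (w₀.adicCompletion M)) ht
  rw [map_zero, map_add, map_add, map_mul, map_pow, map_intCast, map_intCast] at h1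
  exact h1

/-- The primes which are excluded. -/
theorem exists_T (hGEN : S_GEN) (hUR : S_UR) (M : Type) [Field M] [NumberField M] {d : ℤ}
    (hd : d ≠ 0) (T : Finset ℤ) : ∃ T' : Finset ℤ, ∀ P : ℤ, P ∈ T' ↔
      P ∈ T ∨ (IsPr P ∧ (¬ Unr M P ∨ P ∣ d)) := by
  have hf : {P : ℤ | IsPr P ∧ P ∣ d}.Finite := by
    refine (Set.finite_Icc 0 |d|).subset ?_
    rintro P ⟨h, h2⟩
    exact ⟨h.1.le, Int.le_of_dvd (abs_pos.2 hd) ((dvd_abs _ _).2 h2)⟩
  refine ⟨T ∪ (ram_fin hGEN hUR M).toFinset ∪ hf.toFinset, fun P => ?_⟩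
  rw [Finset.mem_union, Finset.mem_union, Set.Finite.mem_toFinset, Set.Finite.mem_toFinset]
  simp only [Set.mem_setOf_eq]
  tauto

/-- The Selmer groups of all twists over all the extensions. -/
theorem selT3 (H : Parts2) (hGEN : S_GEN) {a b : ℤ} {X' : ℕ}
    {S T : Finset ℤ} {s A B : ℤ → ℤ} (hS : GoodS S s)
    (hF : Fam X' S s T A B a b) (ha3 : a % 4 = 3) (hb3 : b % 4 = 3)
    (hT : GoodT T A B) (hdis : Disjoint S T)
    {L : Type} [Field L] [NumberField L] {θ : L} (hc : IsCub a b θ)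
    (hu : ∀ (E : Type) [Field E] [CharZero E] (t : E), t ^ 3 + (a : E) * t + (b : E) = 0 →
      ∃ φ : L →+* E, φ θ = t) {J : Finset ℤ} (hJ : J ⊆ S) (hsel : Base a b θ J)
    (M : Type) [Field M] [NumberField M] [IsGalois ℚ M] {n : ℕ}
    (hM : Module.finrank ℚ M = 2 ^ n) (hur2 : Unr M 2) (hsp : ∀ Q ∈ S, Spl M Q)
    (hram : ∀ P : ℤ, IsPr P → ¬ Unr M P → ∀ z : ℤ, ¬ P ∣ z ^ 3 + a * z + b)
    {d : ℤ} (hd : d % 4 = 1 ∨ d % 4 = 2)
    (hdP : ∀ P : ℤ, IsPr P → P ∣ d → ∀ z : ℤ, ¬ P ∣ z ^ 3 + a * z + b) :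
    SelR (𝓞 M) (sW (((a * (d * ∏ Q ∈ J, Q) ^ 2 : ℤ)) : M)
      (((b * (d * ∏ Q ∈ J, Q) ^ 3 : ℤ)) : M)) := by
  have ha : Odd a := Int.odd_iff.2 (by omega)
  have hb : Odd b := Int.odd_iff.2 (by omega)
  have hd0 : d ≠ 0 := by
    rintro rfl
    norm_num at hd
  obtain ⟨Ω, i1, i2, i3, i4, htop, hr⟩ := exists_omega hu M (nr_M H ha hb M hM)
  obtain ⟨T', hmem⟩ := exists_T hGEN H.p.ur M hd0 T
  refine selR_absT (L := L) (Ω := Ω) (T' := T') H hc hS hF ha3 hb3 hJ hsel hd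
    ((hmem 2).2 (Or.inl hT.1))
    ((hmem 3).2 (Or.inl hT.2.1)) (fun P hP => ?_) (fun P hP hPd => (hmem P).2 (Or.inr ⟨hP, Or.inr hPd⟩))
    (fun P hP => ?_) (fun P hP hPT => ?_) hsp ?_
    hM hr htop hur2
  · rcases (hmem P).1 hP with h | h
    · exact (hT.2.2 P h).1
    · exact h.1
  · rcases (hmem P).1 hP with h | ⟨h, h' | h'⟩
    · exact fam_nt hT hF h
    · exact hram P h h'
    · exact hdP P h h'
  · by_contra hn
    exact hPT ((hmem P).2 (Or.inr ⟨hP, Or.inl hn⟩))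
  · rw [Finset.disjoint_left]
    intro Q hQ hQT
    rcases (hmem Q).1 hQT with h | ⟨h, h' | h'⟩
    · exact Finset.disjoint_left.1 hdis hQ h
    · exact h' fun w hw => (hsp Q hQ w hw).1
    · refine hdP Q h h' 0 ?_
      have := hF.rb Q hQ
      simpa using this

end Pool.Agent.K6.H88.TC
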