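import Pool.Agent.K6.H88.TC.SelB

/-!
# The growth of the rank in all subfields

Helper88 (project TC).
-/

set_option autoImplicit false
set_option linter.all false

open Polynomial IsDedekindDomain WeierstrassCurve WeierstrassCurve.Affine NumberField
open Pool.Agent.TH115.GD
open scoped Classical IntermediateField

namespace Pool.Agent.K6.H88.TC

open Pool.Agent.N922.PQ
open Pool.Agent.N874.PP (sW)

/-- A set which contains all but one elements of every fibre. -/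
theorem exists_sel' {X Y : Type*} [Finite X] [Finite Y] [Fintype X] (p : X → Y)
    (hp : Function.Surjective p) :
    ∃ R : Set X, Nat.card R + Nat.card Y = Nat.card X ∧ ∀ φ : X → ZMod 2,
      (∀ y, ∑ x with p x = y, φ x = 0) → (∀ x ∈ R, φ x = 0) → ∀ x, φ x = 0 := by
  obtain ⟨s, hs⟩ := hp.hasRightInverse
  refine ⟨(Set.range s)ᶜ, ?_, fun φ h1 h2 x => ?_⟩
  · have h3 : Nat.card (Set.range s) = Nat.card Y := Nat.card_range_of_injective hs.injective
    have h4 := Set.ncard_add_ncard_compl (Set.range s)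
    rw [← h3]
    have h5 : Nat.card ((Set.range s)ᶜ : Set X) = ((Set.range s)ᶜ : Set X).ncard := rfl
    have h6 : Nat.card (Set.range s) = (Set.range s).ncard := rfl
    rw [h5, h6, add_comm]
    exact h4
  · by_cases hx : x ∈ (Set.range s)ᶜ
    · exact h2 x hx
    · rw [Set.notMem_compl_iff] at hx
      obtain ⟨y, rfl⟩ := hx
      have h3 := h1 y
      rw [Finset.sum_eq_single (s y)] at h3
      · exact h3
      · intro x hx hne
        apply h2
        rintro ⟨y', rfl⟩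
        rw [Finset.mem_filter] at hx
        apply hne
        rw [← hx.2, hs]
      · intro h
        exfalso
        apply h
        rw [Finset.mem_filter]
        exact ⟨Finset.mem_univ _, hs y⟩

section

variable {M : Type} [Field M] [NumberField M] [IsGalois ℚ M] {F F' : Type} [Field F] [NumberField F]
  [Field F'] [NumberField F']

theorem splits_in (i : F →ₐ[ℚ] M) (x : F) : ((minpoly ℚ x).map (algebraMap ℚ M)).Splits := by
  rw [← minpoly.algHom_eq i i.injective]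
  exact Normal.splits inferInstance (i x)

/-- Two embeddings are conjugate. -/
theorem conj_emb (φ ψ : F →ₐ[ℚ] M) : ∃ τ : Gal(M/ℚ), (τ : M →ₐ[ℚ] M).comp φ = ψ := by
  obtain ⟨γ, hγ⟩ := Field.exists_primitive_element ℚ F
  obtain ⟨τ, hτ⟩ := minpoly.exists_algEquiv_of_root' (K := ℚ) (x := ψ γ) (y := φ γ)
    (Algebra.IsAlgebraic.isAlgebraic _) (by
      rw [minpoly.algHom_eq φ φ.injective, aeval_algHom_apply, minpoly.aeval, map_zero])
  refine ⟨τ, ?_⟩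
  exact (Field.primitive_element_iff_algHom_eq_of_eval' ℚ M (splits_in φ) γ).1 hγ hτ

theorem card_emb (i : F →ₐ[ℚ] M) : Nat.card (F →ₐ[ℚ] M) = Module.finrank ℚ F :=
  AlgHom.natCard_of_splits ℚ F M (splits_in i)

theorem comp_surj (j : F' →ₐ[ℚ] F) (φ₀ : F →ₐ[ℚ] M) :
    Function.Surjective fun φ : F →ₐ[ℚ] M => φ.comp j := by
  intro φ'
  obtain ⟨τ, hτ⟩ := conj_emb (φ₀.comp j) φ'
  exact ⟨(τ : M →ₐ[ℚ] M).comp φ₀, by rw [← hτ]; rfl⟩

/-- The trace of points. -/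
theorem exists_tr' (W : WeierstrassCurve ℚ) (j : F' →ₐ[ℚ] F) (φ₀ : F →ₐ[ℚ] M) :
    ∃ tr : Pt W F →+ Pt W F', ∀ (φ' : F' →ₐ[ℚ] M) (P : Pt W F), act W φ' (tr P) =
      ∑ φ : F →ₐ[ℚ] M with φ.comp j = φ', act W φ P := by
  have hτ : ∀ (τ : Gal(M/ℚ)) (φ' : F' →ₐ[ℚ] M) (P : Pt W F),
      act W (ak τ) (∑ φ : F →ₐ[ℚ] M with φ.comp j = φ', act W φ P) =
      ∑ φ : F →ₐ[ℚ] M with φ.comp j = (τ : M →ₐ[ℚ] M).comp φ', act W φ P := by
    intro τ φ' P
    rw [map_sum]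
    refine Finset.sum_bij' (fun φ _ => (τ : M →ₐ[ℚ] M).comp φ)
      (fun φ _ => (τ.symm : M →ₐ[ℚ] M).comp φ) ?_ ?_ ?_ ?_ ?_
    · intro φ hφ
      rw [Finset.mem_filter] at hφ ⊢
      refine ⟨Finset.mem_univ _, ?_⟩
      rw [AlgHom.comp_assoc, hφ.2]
    · intro φ hφ
      rw [Finset.mem_filter] at hφ ⊢
      refine ⟨Finset.mem_univ _, ?_⟩
      rw [AlgHom.comp_assoc, hφ.2]
      ext x
      simp
    · intro φ _
      ext x
      simp
    · intro φ _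
      ext x
      simp
    · intro φ _
      rw [act_act]
      rfl
  have h1 : ∀ P : Pt W F, ∃ Q : Pt W F', act W (φ₀.comp j) Q =
      ∑ φ : F →ₐ[ℚ] M with φ.comp j = φ₀.comp j, act W φ P := by
    intro P
    apply desc_pt
    intro τ hτ'
    rw [hτ]
    have e : (τ : M →ₐ[ℚ] M).comp (φ₀.comp j) = φ₀.comp j := by
      ext x
      exact hτ' ⟨φ₀.comp j x, ⟨x, rfl⟩⟩
    rw [e]
  choose f hf using h1
  refine ⟨{ toFun := f, map_zero' := ?_, map_add' := ?_ }, fun φ' P => ?_⟩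
  · apply act_inj W (φ₀.comp j)
    rw [hf, map_zero]
    exact Finset.sum_eq_zero fun h _ => map_zero _
  · intro P Q
    apply act_inj W (φ₀.comp j)
    rw [hf, map_add, hf, hf, ← Finset.sum_add_distrib]
    exact Finset.sum_congr rfl fun h _ => map_add _ _ _
  · obtain ⟨τ, rfl⟩ := conj_emb (φ₀.comp j) φ'
    change act W ((τ : M →ₐ[ℚ] M).comp (φ₀.comp j)) (f P) = _
    have h2 := hτ τ (φ₀.comp j) P
    rw [← hf P, act_act] at h2
    exact h2

/-- The kernel of the character for a subfield. -/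
theorem ker_F (W : WeierstrassCurve ℚ) (ψ : Pt W M →+ ZMod 2)
    (hψ : ∀ P : Pt W M, (∀ τ : Gal(M/ℚ), ψ (act W (ak τ) P) = 0) → ∃ Q : Pt W M, P = (2 : ℕ) • Q)
    (h2M : ∀ P : Pt W M, (2 : ℕ) • P = 0 → P = 0) (φ₀ : F →ₐ[ℚ] M) (P : Pt W F)
    (hP : ∀ φ : F →ₐ[ℚ] M, ψ (act W φ P) = 0) : ∃ Q : Pt W F, P = (2 : ℕ) • Q := by
  obtain ⟨Q, hQ⟩ := hψ (act W φ₀ P) (fun τ => by
    rw [act_act]
    exact hP _)
  obtain ⟨R, hR⟩ := desc_pt W φ₀ Q (fun τ hτ => by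
    have h1 : act W (ak τ) (act W φ₀ P) = act W φ₀ P := by
      rw [act_act]
      congr 1
      have e : (ak τ : M →ₐ[ℚ] M).comp φ₀ = φ₀ := by
        ext x
        exact hτ ⟨φ₀ x, ⟨x, rfl⟩⟩
      rw [e]
    have h2 : (2 : ℕ) • (act W (ak τ) Q - Q) = 0 := by
      rw [smul_sub, ← map_nsmul, ← hQ, h1, sub_self]
    exact sub_eq_zero.1 (h2M _ h2))
  refine ⟨R, act_inj W φ₀ ?_⟩
  rw [map_nsmul, hR, hQ]

/-- The rank is at most the degree. -/
theorem rank_sub (W : WeierstrassCurve ℚ) (ψ : Pt W M →+ ZMod 2)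
    (hψ : ∀ P : Pt W M, (∀ τ : Gal(M/ℚ), ψ (act W (ak τ) P) = 0) → ∃ Q : Pt W M, P = (2 : ℕ) • Q)
    (h2M : ∀ P : Pt W M, (2 : ℕ) • P = 0 → P = 0) (φ₀ : F →ₐ[ℚ] M) (hfg : AddGroup.FG (Pt W F)) :
    Module.finrank ℤ (Pt W F) ≤ Module.finrank ℚ F := by
  have h1 := rank_card hfg (W := (F →ₐ[ℚ] M) → ZMod 2)
    (Pi.addMonoidHom fun ρ : F →ₐ[ℚ] M => ψ.comp (act W ρ))
    (fun P hP => ker_F W ψ hψ h2M φ₀ P fun φ => congrFun hP φ)
  rw [Nat.card_fun, Nat.card_zmod, card_emb φ₀] at h1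
  exact (Nat.pow_le_pow_iff_right (by norm_num : 1 < 2)).1 h1

/-- The rank grows at most as much as the degree. -/
theorem grow_sub (W : WeierstrassCurve ℚ) (ψ : Pt W M →+ ZMod 2)
    (hψ : ∀ P : Pt W M, (∀ τ : Gal(M/ℚ), ψ (act W (ak τ) P) = 0) → ∃ Q : Pt W M, P = (2 : ℕ) • Q)
    (h2M : ∀ P : Pt W M, (2 : ℕ) • P = 0 → P = 0)
    (φ₀ : F →ₐ[ℚ] M) (j : F' →ₐ[ℚ] F) (hfg : AddGroup.FG (Pt W F)) (hfg' : AddGroup.FG (Pt W F')) :
    Module.finrank ℤ (Pt W F) + Module.finrank ℚ F' ≤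
      Module.finrank ℤ (Pt W F') + Module.finrank ℚ F := by
  have hψF : ∀ P : Pt W F, (∀ φ : F →ₐ[ℚ] M, ψ (act W φ P) = 0) → ∃ Q : Pt W F, P = (2 : ℕ) • Q :=
    fun P hP => ker_F W ψ hψ h2M φ₀ P hP
  have h2F' : ∀ P : Pt W F', (2 : ℕ) • P = 0 → P = 0 := by
    intro P hP
    apply act_inj W (φ₀.comp j)
    rw [map_zero]
    apply h2M
    rw [← map_nsmul, hP, map_zero]
  obtain ⟨tr, htr⟩ := exists_tr' W j φ₀
  obtain ⟨c, hc⟩ := exists_coord hfg' h2F'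
  obtain ⟨R, hR, hR2⟩ := exists_sel' _ (comp_surj j φ₀)
  rw [card_emb φ₀, card_emb (φ₀.comp j)] at hR
  have h1 := rank_card hfg (W := (Fin (Module.finrank ℤ (Pt W F')) → ZMod 2) × (R → ZMod 2))
    ((c.comp tr).prod (Pi.addMonoidHom fun ρ : R => ψ.comp (act W (ρ : F →ₐ[ℚ] M))))
    (fun P hP => by
      have hP1 : c (tr P) = 0 := congrArg Prod.fst hP
      have hP2 : ∀ ρ ∈ R, ψ (act W ρ P) = 0 := fun ρ hρ =>
        congrFun (congrArg Prod.snd hP) ⟨ρ, hρ⟩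
      apply hψF
      refine hR2 (fun φ => ψ (act W φ P)) (fun φ' => ?_) hP2
      obtain ⟨Q, hQ⟩ := hc _ hP1
      have h3 := htr φ' P
      rw [hQ, map_nsmul] at h3
      rw [← map_sum, ← h3, map_nsmul]
      have h5 : ∀ z : ZMod 2, (2 : ℕ) • z = 0 := by decide
      exact h5 _)
  rw [Nat.card_prod, Nat.card_fun, Nat.card_fun, Nat.card_zmod, Nat.card_eq_fintype_card,
    Fintype.card_fin, ← pow_add] at h1
  have h2 := (Nat.pow_le_pow_iff_right (by norm_num : 1 < 2)).1 h1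
  omega

end

end Pool.Agent.K6.H88.TC
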