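import Pool.Agent.K6.H88.TC.Den

/-!
# Conditions over the extension, without a generator

Helper88 (project TC), adapted from `Pool.Agent.N922.PQ.Big3` (helper922).
-/

set_option autoImplicit false
set_option linter.all false

open Polynomial IsDedekindDomain NumberField
open scoped Classical IntermediateField

namespace Pool.Agent.K6.H88.TC

open Pool.Agent.N922.PQ
open Pool.Agent.N874.PP (Tup chA chB gq tau Two Ev Sq1 U0)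
open Pool.Agent.N874.PM (PLoc Lies SelR ShaR S_LOC1M S_LOC2M)

/-- The prime `P` is unramified in `M`. -/
def Unr (M : Type) [Field M] [NumberField M] (P : ℤ) : Prop :=
  ∀ w : HeightOneSpectrum (𝓞 M), Ov P w → w.valuation M (P : M) = WithZero.exp (-1 : ℤ)

/-- The prime `Q` splits completely in `M`. -/
def Spl (M : Type) [Field M] [NumberField M] (Q : ℤ) : Prop :=
  ∀ w : HeightOneSpectrum (𝓞 M), Ov Q w → w.valuation M (Q : M) = WithZero.exp (-1 : ℤ) ∧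
    ∀ x : 𝓞 M, ∃ n : ℤ, x - n ∈ w.asIdeal

section top

variable {L M Ω : Type} [Field L] [NumberField L] [Field M] [NumberField M] [IsGalois ℚ M]
  [Field Ω] [NumberField Ω] [Algebra L Ω] [Algebra M Ω]

theorem down_val {θ : L} (htop : M⟮algebraMap L Ω θ⟯ = ⊤) {P : ℤ} (hP : Prime P) (hu : Unr M P)
    (𝔓 : HeightOneSpectrum (𝓞 Ω)) (h : Ov P 𝔓) : ∃ 𝔭 : HeightOneSpectrum (𝓞 L),
    ∀ x : L, 𝔓.valuation Ω (algebraMap L Ω x) = 𝔭.valuation L x := by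
  haveI := gal_up htop
  obtain ⟨𝔭, hl⟩ := down_prime (L := L) (Ω := Ω) 𝔓
  exact ⟨𝔭, fun x => val_up (gen_up htop) hP hu 𝔭 𝔓 h x⟩

theorem up_val {θ : L} (htop : M⟮algebraMap L Ω θ⟯ = ⊤) {P : ℤ} (hP : Prime P) (hu : Unr M P)
    (𝔭 : HeightOneSpectrum (𝓞 L)) (h : Ov P 𝔭) : ∃ 𝔓 : HeightOneSpectrum (𝓞 Ω),
    ∀ x : L, 𝔓.valuation Ω (algebraMap L Ω x) = 𝔭.valuation L x := by
  haveI := gal_up htop
  obtain ⟨𝔓, hl⟩ := up_prime (Ω := Ω) 𝔭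
  have h' : Ov P 𝔓 := by
    have h1 := hl.over
    have h2 : (P : 𝓞 L) ∈ 𝔭.asIdeal := h
    rw [h1, Ideal.mem_comap, map_intCast] at h2
    exact h2
  exact ⟨𝔓, fun x => val_up (gen_up htop) hP hu 𝔭 𝔓 h' x⟩

/-- Density at a prime which splits completely. -/
theorem dens_up {θ : L} (htop : M⟮algebraMap L Ω θ⟯ = ⊤) (hθ : IsIntegral ℤ θ) {Q : ℤ}
    (hQ : Prime Q) (hsp : Spl M Q) (𝔓 : HeightOneSpectrum (𝓞 Ω)) (h : Ov Q 𝔓) (s : Ω)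
    (hs : s ≠ 0) : ∃ s₀ : L, 𝔓.valuation Ω (s - algebraMap L Ω s₀) < 𝔓.valuation Ω s := by
  haveI := 𝔓.isPrime
  have hw0 : (𝔓.asIdeal.comap (algebraMap (𝓞 M) (𝓞 Ω))) ≠ ⊥ := by
    intro h0
    have h1 : (Q : 𝓞 M) ∈ 𝔓.asIdeal.comap (algebraMap (𝓞 M) (𝓞 Ω)) := by
      rw [Ideal.mem_comap, map_intCast]
      exact h
    rw [h0, Ideal.mem_bot] at h1
    exact hQ.ne_zero (by exact_mod_cast h1)
  let w : HeightOneSpectrum (𝓞 M) := ⟨𝔓.asIdeal.comap (algebraMap (𝓞 M) (𝓞 Ω)),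
    Ideal.comap_isPrime _ _, hw0⟩
  have hw : Ov Q w := by
    change (Q : 𝓞 M) ∈ 𝔓.asIdeal.comap (algebraMap (𝓞 M) (𝓞 Ω))
    rw [Ideal.mem_comap, map_intCast]
    exact h
  haveI : 𝔓.asIdeal.LiesOver w.asIdeal := ⟨rfl⟩
  refine dens3 htop 𝔓 w ?_ (fun s hs => dens1 w (hsp w hw).1 (hsp w hw).2 s hs) s hs
  have h1 : IsIntegral ℤ (algebraMap L Ω θ) := hθ.algebraMap
  have h2 : algebraMap L Ω θ = algebraMap (𝓞 Ω) Ω ⟨algebraMap L Ω θ, h1⟩ := rfl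
  rw [h2]
  exact 𝔓.valuation_le_one _

/-- The element `Q θ` has odd valuation. -/
theorem odd_top' (hEXQ : S_EXQ) {a b : ℤ} {θ : L} (htop : M⟮algebraMap L Ω θ⟯ = ⊤)
    (hc : IsCub a b θ) (hsq : Squarefree (dsc a b)) {Q : ℤ} (hQ : Prime Q) (hu : Unr M Q)
    (hb : Q ∣ b) (hns : ∀ z : ℤ, ¬ Q ∣ z ^ 2 + a) (𝔓 : HeightOneSpectrum (𝓞 Ω)) (h1 : Ov Q 𝔓)
    (h2 : 𝔓.valuation Ω (algebraMap L Ω θ) = 1) :
    ¬ Ev 𝔓 ((Q : Ω) * algebraMap L Ω θ) := by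
  obtain ⟨𝔭, hv⟩ := down_val htop hQ hu 𝔓 h1
  obtain ⟨𝔓₁, 𝔮, h3, h4, h5, h7, h8, h9⟩ := hEXQ L (𝓞 L) a b θ hc hsq Q hQ hb hns
  have e : (Q : Ω) * algebraMap L Ω θ = algebraMap L Ω ((Q : L) * θ) := by
    rw [map_mul, map_intCast]
  rw [e, ev_down hv]
  rcases h9 𝔭 ((ov_down hv Q).1 h1) with rfl | rfl
  · rw [hv] at h2
    exact absurd h2 h5.ne
  · exact h8

/-- `- a` is not a square in the residue field. -/
theorem ns_top' {a : ℤ} {Q : ℤ} (hQ : Prime Q) (hsp : Spl M Q)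
    (hns : ∀ z : ℤ, ¬ Q ∣ z ^ 2 + a) (w : HeightOneSpectrum (𝓞 M)) (h1 : Ov Q w)
    (z : M) (hz : w.valuation M z ≤ 1) :
    ¬ w.valuation M (z ^ 2 + (a : M)) < 1 := by
  intro hlt
  have hv := val_rat hQ h1 (hsp w h1).1
  set v := pr Q hQ with hvd
  -- a rational number close to `z`
  obtain ⟨z₀, hz₀⟩ : ∃ z₀ : ℚ, w.valuation M (z - algebraMap ℚ M z₀) < 1 := by
    by_cases h0 : z = 0
    · exact ⟨0, by rw [h0, map_zero, sub_zero, map_zero]; exact zero_lt_one⟩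
    · obtain ⟨z₀, h⟩ := dens1 w (hsp w h1).1 (hsp w h1).2 z h0
      exact ⟨z₀, lt_of_lt_of_le h hz⟩
  have hz0 : v.valuation ℚ z₀ ≤ 1 := by
    rw [← hv]
    have e : algebraMap ℚ M z₀ = z - (z - algebraMap ℚ M z₀) := by ring
    rw [e]
    exact (Valuation.map_sub _ _ _).trans (max_le hz hz₀.le)
  obtain ⟨z₁, hz₁⟩ := poly_approx v hz0
  have h2 : w.valuation M (z - (z₁ : M)) < 1 := by
    have e : z - (z₁ : M) = (z - algebraMap ℚ M z₀) +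
        algebraMap ℚ M (z₀ - algebraMap ℤ ℚ z₁) := by
      rw [map_sub]
      simp
    rw [e]
    refine lt_of_le_of_lt (Valuation.map_add _ _ _) (max_lt hz₀ ?_)
    rw [hv]
    exact hz₁
  have h3 : w.valuation M (((z₁ ^ 2 + a : ℤ)) : M) < 1 := by
    have e : (((z₁ ^ 2 + a : ℤ)) : M) = (z ^ 2 + (a : M)) -
        (z - (z₁ : M)) * (z + (z₁ : M)) := by
      push_cast
      ring
    rw [e]
    refine lt_of_le_of_lt (Valuation.map_sub _ _ _) (max_lt hlt ?_)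
    rw [map_mul]
    have h4 : w.valuation M (z + (z₁ : M)) ≤ 1 :=
      (Valuation.map_add _ _ _).trans (max_le hz (val_le z₁ w))
    exact lt_of_le_of_lt (mul_le_mul' le_rfl h4) (by rwa [mul_one])
  have h5 : Ov (z₁ ^ 2 + a) w := (ov_val (L := M) _ w).2 h3
  -- hence `Q` divides it
  apply hns z₁
  by_contra hnd
  exact one_mem_of ((hQ.irreducible.coprime_iff_not_dvd).2 hnd) h1 h5

theorem cnd_top' (hEXQ : S_EXQ) (hLIE : S_LIE) (hLOC1M : S_LOC1M)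
    (hLOC2M : S_LOC2M) {a b : ℤ} {θ : L} {X' : ℕ} {S J T : Finset ℤ}
    {s A B : ℤ → ℤ} (hc : IsCub a b θ) (hS : GoodS S s)
    (hF : Fam X' S s T A B a b) (htop : M⟮algebraMap L Ω θ⟯ = ⊤) (hsp : ∀ Q ∈ S, Spl M Q)
    {T' : Finset ℤ} (h2T : (2 : ℤ) ∈ T') (h3T : (3 : ℤ) ∈ T') (hT' : ∀ P ∈ T', IsPr P)
    (hur : ∀ P : ℤ, IsPr P → P ∉ T' → Unr M P) (hdis : Disjoint S T')
    (hJ : J ⊆ S) {h : M[X]}
    (hloc : ∀ w : HeightOneSpectrum (𝓞 M), ¬ Ov 2 w → PLoc (w.adicCompletion M)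
      (((a * (∏ Q ∈ J, Q) ^ 2 : ℤ)) : M) (((b * (∏ Q ∈ J, Q) ^ 3 : ℤ)) : M) h)
    (h0 : aeval (((∏ Q ∈ J, Q : ℤ) : Ω) * algebraMap L Ω θ) h ≠ 0) :
    Cnd (𝓞 Ω) J T' (algebraMap L Ω θ) (aeval (((∏ Q ∈ J, Q : ℤ) : Ω) * algebraMap L Ω θ) h)
    := by
  have hroot : (algebraMap L Ω θ) ^ 3 + algebraMap M Ω (a : M) * algebraMap L Ω θ +
      algebraMap M Ω (b : M) = 0 := by
    have h1 := congrArg (algebraMap L Ω) hc.root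
    rw [map_zero, map_add, map_add, map_mul, map_pow, map_intCast, map_intCast] at h1
    rw [map_intCast, map_intCast]
    exact h1
  -- at the primes in `J`
  have key : ∀ Q ∈ J, ∀ 𝔓 : HeightOneSpectrum (𝓞 Ω), Ov Q 𝔓 →
      (𝔓.valuation Ω (algebraMap L Ω θ) = 1 → U0 𝔓 ((Q : Ω) * algebraMap L Ω θ)
        (aeval (((∏ Q ∈ J, Q : ℤ) : Ω) * algebraMap L Ω θ) h)) ∧
      (𝔓.valuation Ω (algebraMap L Ω θ) < 1 →
        Ev 𝔓 (aeval (((∏ Q ∈ J, Q : ℤ) : Ω) * algebraMap L Ω θ) h)) := by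
    intro Q hQ 𝔓 h𝔓
    have hQS := hJ hQ
    obtain ⟨w, hw, hO⟩ := hLIE M Ω (𝓞 M) (𝓞 Ω) 𝔓
    have hQw : Ov Q w := (hO Q).2 h𝔓
    have h2w : ¬ Ov 2 w := not_ov_T hS hT' hdis hQS h2T hQw
    have h3w : ¬ Ov 3 w := not_ov_T hS hT' hdis hQS h3T hQw
    haveI : Finite (𝓞 M ⧸ w.asIdeal) :=
      Pool.Agent.N42.PQ.finite_residue (L := M) (hS Q hQS).1.2.ne_zero hQw
    have hprod : (∏ P ∈ J, P) = Q * ∏ P ∈ J.erase Q, P := (Finset.mul_prod_erase J id hQ).symm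
    have hϖ : w.valuation M (Q : M) = WithZero.exp (-1 : ℤ) := (hsp Q hQS w hQw).1
    have hD' : w.valuation M (((∏ P ∈ J.erase Q, P : ℤ)) : M) = 1 := by
      refine val_eq_of _ w fun h => ?_
      obtain ⟨P, hP, hP'⟩ := ov_prod h
      have hPS := hJ (Finset.mem_of_mem_erase hP)
      exact Finset.ne_of_mem_erase hP (below_unique (hS P hPS).1 (hS Q hQS).1 hP' hQw)
    have hb1 : w.valuation M (b : M) < 1 := by
      rw [← ov_val]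
      obtain ⟨c, hc⟩ := hF.rb Q hQS
      unfold Ov at hQw ⊢
      rw [hc, Int.cast_mul]
      exact Ideal.mul_mem_right _ _ hQw
    have hns := fun z hz => ns_top' (a := a) (hS Q hQS).1.2 (hsp Q hQS)
      (fam_ns hS hF hQS) w hQw z hz
    have e1 : (((a * (∏ Q ∈ J, Q) ^ 2 : ℤ)) : M) = (a : M) *
        ((Q : M) * (((∏ P ∈ J.erase Q, P : ℤ)) : M)) ^ 2 := by
      rw [hprod]
      simp only [Int.cast_mul, Int.cast_pow]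
    have e2 : (((b * (∏ Q ∈ J, Q) ^ 3 : ℤ)) : M) = (b : M) *
        ((Q : M) * (((∏ P ∈ J.erase Q, P : ℤ)) : M)) ^ 3 := by
      rw [hprod]
      simp only [Int.cast_mul, Int.cast_pow]
    have e3 : algebraMap M Ω ((Q : M) * (((∏ P ∈ J.erase Q, P : ℤ)) : M)) =
        (((∏ P ∈ J, P : ℤ)) : Ω) := by
      rw [hprod, map_mul, map_intCast, map_intCast, Int.cast_mul]
    have hl := hloc w h2w
    rw [e1, e2] at hl
    have h2 := hLOC2M M Ω (𝓞 M) (𝓞 Ω) w 𝔓 hw (a : M) (b : M)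
      (Q : M) (((∏ P ∈ J.erase Q, P : ℤ)) : M) (algebraMap L Ω θ) h hroot
      (val_six h2w h3w) (val_le a w) hb1 hϖ hD' hns hl (by rw [e3]; exact h0)
    rw [e3, map_intCast (algebraMap M Ω)] at h2
    refine ⟨fun h3 => h2.1 h3 ?_, h2.2⟩
    exact odd_top' hEXQ htop hc hF.sq (hS Q hQS).1.2 (fun w hw => (hsp Q hQS w hw).1)
      (hF.rb Q hQS) (fam_ns hS hF hQS) 𝔓 h𝔓 h3
  refine ⟨fun 𝔓 h1 h2 => ?_, fun Q hQ 𝔓 h1 h2 => (key Q hQ 𝔓 h1).1 h2,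
    fun Q hQ 𝔓 h1 h2 => (key Q hQ 𝔓 h1).2 h2⟩
  obtain ⟨w, hw, hO⟩ := hLIE M Ω (𝓞 M) (𝓞 Ω) 𝔓
  have hnT : ∀ P ∈ T', ¬ Ov P w := fun P hP h => h1 P hP ((hO P).1 h)
  obtain ⟨P₀, hP₀, hP₀w⟩ := exists_below w
  have hP₀T : P₀ ∉ T' := fun h => hnT P₀ h hP₀w
  have hv := val_rat hP₀.2 hP₀w (hur P₀ hP₀ hP₀T w hP₀w)
  have hD : w.valuation M (((∏ Q ∈ J, Q : ℤ)) : M) = 1 := by
    refine val_eq_of _ w fun h => ?_
    obtain ⟨Q, hQ, h'⟩ := ov_prod h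
    exact h2 Q hQ ((hO Q).1 h')
  have hdisc : WithZero.exp (-1 : ℤ) ≤ w.valuation M (4 * (a : M) ^ 3 +
      27 * (b : M) ^ 2) := by
    have e : 4 * (a : M) ^ 3 + 27 * (b : M) ^ 2 =
        algebraMap ℚ M ((dsc a b : ℤ) : ℚ) := by
      rw [map_intCast]
      simp [dsc]
    rw [e, hv]
    exact val_sqfree hF.sq _
  have e3 : algebraMap M Ω (((∏ P ∈ J, P : ℤ)) : M) = (((∏ P ∈ J, P : ℤ)) : Ω) :=
    map_intCast _ _
  have hl := hloc w (hnT 2 h2T)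
  have hl' : PLoc (w.adicCompletion M) ((a : M) * (((∏ Q ∈ J, Q : ℤ)) : M) ^ 2)
      ((b : M) * (((∏ Q ∈ J, Q : ℤ)) : M) ^ 3) h := by
    have e1 : (((a * (∏ Q ∈ J, Q) ^ 2 : ℤ)) : M) = (a : M) * (((∏ Q ∈ J, Q : ℤ)) : M) ^ 2 := by
      simp only [Int.cast_mul, Int.cast_pow]
    have e2 : (((b * (∏ Q ∈ J, Q) ^ 3 : ℤ)) : M) = (b : M) * (((∏ Q ∈ J, Q : ℤ)) : M) ^ 3 := by
      simp only [Int.cast_mul, Int.cast_pow]
    rw [← e1, ← e2]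
    exact hl
  have h3 := hLOC1M M Ω (𝓞 M) (𝓞 Ω) w 𝔓 hw (a : M) (b : M)
    (((∏ P ∈ J, P : ℤ)) : M) (algebraMap L Ω θ) h hroot
    (val_six (hnT 2 h2T) (hnT 3 h3T)) (val_le a w) (val_le b w) hD hdisc hl'
    (by rw [e3]; exact h0)
  rw [e3] at h3
  exact h3

/-- Descent. -/
theorem base_sq' {θ : L} {a b : ℤ} {J T' : Finset ℤ} (htop : M⟮algebraMap L Ω θ⟯ = ⊤)
    (hθ : IsIntegral ℤ θ)
    (hsel : ∀ α : L, α ≠ 0 → IsSquare (Algebra.norm ℚ α) → Loc2 a b θ α →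
      (∀ 𝔓 : HeightOneSpectrum (𝓞 L), (∀ Q ∈ J, ¬ Ov Q 𝔓) → Ev 𝔓 α) →
      (∀ Q ∈ J, ∀ 𝔓 : HeightOneSpectrum (𝓞 L), Ov Q 𝔓 → 𝔓.valuation L θ = 1 →
        U0 𝔓 ((Q : L) * θ) α) →
      (∀ Q ∈ J, ∀ 𝔓 : HeightOneSpectrum (𝓞 L), Ov Q 𝔓 → 𝔓.valuation L θ < 1 → Ev 𝔓 α) →
      IsSquare α)
    (hJ : ∀ Q ∈ J, Prime Q ∧ Spl M Q)
    (hur : ∀ P : ℤ, IsPr P → P ∉ T' → Unr M P)
    (hT : ∀ P ∈ T', ∀ x : L, x ≠ 0 → IsSquare (Algebra.norm ℚ x) →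
      ∀ 𝔓 : HeightOneSpectrum (𝓞 L), Ov P 𝔓 → Ev 𝔓 x)
    {x : L} (hx : x ≠ 0) (hC : Cnd (𝓞 Ω) J T' (algebraMap L Ω θ) (algebraMap L Ω x))
    (hl2 : Loc2 a b θ x)
    (hN : IsSquare (Algebra.norm ℚ x)) : IsSquare x := by
  refine hsel x hx hN hl2 (fun 𝔓 h𝔓 => ?_) (fun Q hQ 𝔓 h1 h2 => ?_) (fun Q hQ 𝔓 h1 h2 => ?_)
  · by_cases hP : ∃ P ∈ T', Ov P 𝔓
    · obtain ⟨P, hPT, hP𝔓⟩ := hP
      exact hT P hPT x hx hN 𝔓 hP𝔓
    · obtain ⟨P, hPr, hP'⟩ := exists_below 𝔓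
      have hPT : P ∉ T' := fun h => hP ⟨P, h, hP'⟩
      obtain ⟨𝔓', hv⟩ := up_val htop hPr.2 (hur P hPr hPT) 𝔓 hP'
      rw [← ev_down hv]
      exact hC.ev 𝔓' (fun P hPT h => hP ⟨P, hPT, (ov_down hv P).1 h⟩)
        (fun Q hQ h => h𝔓 Q hQ ((ov_down hv Q).1 h))
  · obtain ⟨𝔓', hv⟩ := up_val htop (hJ Q hQ).1 (fun w hw => ((hJ Q hQ).2 w hw).1) 𝔓 h1
    have hQ' : Ov Q 𝔓' := (ov_down hv Q).2 h1
    have hd := dens_up htop hθ (hJ Q hQ).1 (hJ Q hQ).2 𝔓' hQ'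
    have h3 := hC.u0 Q hQ 𝔓' hQ' (by rw [hv]; exact h2)
    refine ⟨fun h4 => sq_down hv hd (h3.1 ((ev_down hv x).2 h4)), fun h4 => ?_⟩
    have h5 := h3.2 fun h6 => h4 ((ev_down hv x).1 h6)
    have e : algebraMap L Ω x * ((Q : Ω) * algebraMap L Ω θ) =
        algebraMap L Ω (x * ((Q : L) * θ)) := by
      rw [map_mul, map_mul, map_intCast]
    rw [e] at h5
    exact sq_down hv hd h5
  · obtain ⟨𝔓', hv⟩ := up_val htop (hJ Q hQ).1 (fun w hw => ((hJ Q hQ).2 w hw).1) 𝔓 h1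
    rw [← ev_down hv]
    exact hC.eq Q hQ 𝔓' ((ov_down hv Q).2 h1) (by rw [hv]; exact h2)

end top

end Pool.Agent.K6.H88.TC
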