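import Pool.Agent.K6.H88.TC.Count

/-!
# The conditions for a twist, over the extension

Helper88 (project TC).
-/

set_option autoImplicit false
set_option linter.all false

open Polynomial IsDedekindDomain WeierstrassCurve WeierstrassCurve.Affine NumberField
open Pool.Agent.TH115.GD
open scoped Classical IntermediateField

namespace Pool.Agent.K6.H88.TC

open Pool.Agent.N922.PQ
open Pool.Agent.N874.PP (Tup chA chB gq tau Two Ev Sq1 U0 sW IsBeta Rt)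
open Pool.Agent.N874.PM (PLoc Lies SelR ShaR S_LOC1M S_LOC2M)

/-- A prime over `d` lies over a prime factor of `d`. -/
theorem ov_pr_dvd {R : Type} [CommRing R] [IsDedekindDomain R] [Algebra.IsIntegral ℤ R]
    [CharZero R] {d : ℤ} (hd : d ≠ 0) {w : HeightOneSpectrum R} (h : Ov d w) :
    ∃ P : ℤ, IsPr P ∧ P ∣ d ∧ Ov P w := by
  obtain ⟨P, hP, hPw⟩ := exists_below w
  refine ⟨P, hP, ?_, hPw⟩
  by_contra hnd
  exact one_mem_of ((hP.2.irreducible.coprime_iff_not_dvd).2 hnd) hPw h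

section top

variable {L M Ω : Type} [Field L] [NumberField L] [Field M] [NumberField M] [IsGalois ℚ M]
  [Field Ω] [NumberField Ω] [Algebra L Ω] [Algebra M Ω]

theorem cnd_tw (hEXQ : S_EXQ) (hLIE : S_LIE) (hLOC1M : S_LOC1M)
    (hLOC2M : S_LOC2M) {a b : ℤ} {θ : L} {X' : ℕ} {S J T : Finset ℤ}
    {s A B : ℤ → ℤ} (hc : IsCub a b θ) (hS : GoodS S s)
    (hF : Fam X' S s T A B a b) (htop : M⟮algebraMap L Ω θ⟯ = ⊤) (hsp : ∀ Q ∈ S, Spl M Q)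
    {T' : Finset ℤ} (h2T : (2 : ℤ) ∈ T') (h3T : (3 : ℤ) ∈ T') (hT' : ∀ P ∈ T', IsPr P)
    (hur : ∀ P : ℤ, IsPr P → P ∉ T' → Unr M P) (hdis : Disjoint S T')
    (hJ : J ⊆ S) {d : ℤ} (hd0 : d ≠ 0) (hdT : ∀ P : ℤ, IsPr P → P ∣ d → P ∈ T') {h : M[X]}
    (hloc : ∀ w : HeightOneSpectrum (𝓞 M), ¬ Ov 2 w → PLoc (w.adicCompletion M)
      (((a * (d * ∏ Q ∈ J, Q) ^ 2 : ℤ)) : M) (((b * (d * ∏ Q ∈ J, Q) ^ 3 : ℤ)) : M) h)
    (h0 : aeval (((d * ∏ Q ∈ J, Q : ℤ) : Ω) * algebraMap L Ω θ) h ≠ 0) :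
    Cnd (𝓞 Ω) J T' (algebraMap L Ω θ) (aeval (((d * ∏ Q ∈ J, Q : ℤ) : Ω) * algebraMap L Ω θ) h)
    := by
  have hroot : (algebraMap L Ω θ) ^ 3 + algebraMap M Ω (a : M) * algebraMap L Ω θ +
      algebraMap M Ω (b : M) = 0 := by
    have h1 := congrArg (algebraMap L Ω) hc.root
    rw [map_zero, map_add, map_add, map_mul, map_pow, map_intCast, map_intCast] at h1
    rw [map_intCast, map_intCast]
    exact h1
  -- at the primes in `J`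
  have key : ∀ Q ∈ J, ∀ 𝔓 : HeightOneSpectrum (𝓞 Ω), Ov Q 𝔓 →
      (𝔓.valuation Ω (algebraMap L Ω θ) = 1 → U0 𝔓 ((Q : Ω) * algebraMap L Ω θ)
        (aeval (((d * ∏ Q ∈ J, Q : ℤ) : Ω) * algebraMap L Ω θ) h)) ∧
      (𝔓.valuation Ω (algebraMap L Ω θ) < 1 →
        Ev 𝔓 (aeval (((d * ∏ Q ∈ J, Q : ℤ) : Ω) * algebraMap L Ω θ) h)) := by
    intro Q hQ 𝔓 h𝔓
    have hQS := hJ hQ
    obtain ⟨w, hw, hO⟩ := hLIE M Ω (𝓞 M) (𝓞 Ω) 𝔓
    have hQw : Ov Q w := (hO Q).2 h𝔓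
    have h2w : ¬ Ov 2 w := not_ov_T hS hT' hdis hQS h2T hQw
    have h3w : ¬ Ov 3 w := not_ov_T hS hT' hdis hQS h3T hQw
    haveI : Finite (𝓞 M ⧸ w.asIdeal) :=
      Pool.Agent.N42.PQ.finite_residue (L := M) (hS Q hQS).1.2.ne_zero hQw
    have hprod : (d * ∏ P ∈ J, P) = Q * (d * ∏ P ∈ J.erase Q, P) := by
      have := (Finset.mul_prod_erase J id hQ).symm
      simp only [id] at this
      rw [this]
      ring
    have hϖ : w.valuation M (Q : M) = WithZero.exp (-1 : ℤ) := (hsp Q hQS w hQw).1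
    have hD' : w.valuation M (((d * ∏ P ∈ J.erase Q, P : ℤ)) : M) = 1 := by
      refine val_eq_of _ w fun h => ?_
      rcases ov_mul h with h | h
      · obtain ⟨P, hP, hPd, hP'⟩ := ov_pr_dvd hd0 h
        have h8 := below_unique hP (hS Q hQS).1 hP' hQw
        exact Finset.disjoint_left.1 hdis hQS (h8 ▸ hdT P hP hPd)
      obtain ⟨P, hP, hP'⟩ := ov_prod h
      have hPS := hJ (Finset.mem_of_mem_erase hP)
      exact Finset.ne_of_mem_erase hP (below_unique (hS P hPS).1 (hS Q hQS).1 hP' hQw)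
    have hb1 : w.valuation M (b : M) < 1 := by
      rw [← ov_val]
      obtain ⟨c, hc⟩ := hF.rb Q hQS
      unfold Ov at hQw ⊢
      rw [hc, Int.cast_mul]
      exact Ideal.mul_mem_right _ _ hQw
    have hns := fun z hz => ns_top' (a := a) (hS Q hQS).1.2 (hsp Q hQS)
      (fam_ns hS hF hQS) w hQw z hz
    have e1 : (((a * (d * ∏ Q ∈ J, Q) ^ 2 : ℤ)) : M) = (a : M) *
        ((Q : M) * (((d * ∏ P ∈ J.erase Q, P : ℤ)) : M)) ^ 2 := by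
      rw [hprod]
      simp only [Int.cast_mul, Int.cast_pow]
    have e2 : (((b * (d * ∏ Q ∈ J, Q) ^ 3 : ℤ)) : M) = (b : M) *
        ((Q : M) * (((d * ∏ P ∈ J.erase Q, P : ℤ)) : M)) ^ 3 := by
      rw [hprod]
      simp only [Int.cast_mul, Int.cast_pow]
    have e3 : algebraMap M Ω ((Q : M) * (((d * ∏ P ∈ J.erase Q, P : ℤ)) : M)) =
        (((d * ∏ P ∈ J, P : ℤ)) : Ω) := by
      rw [hprod, map_mul, map_intCast, map_intCast]
      push_cast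
      ring
    have hl := hloc w h2w
    rw [e1, e2] at hl
    have h2 := hLOC2M M Ω (𝓞 M) (𝓞 Ω) w 𝔓 hw (a : M) (b : M)
      (Q : M) (((d * ∏ P ∈ J.erase Q, P : ℤ)) : M) (algebraMap L Ω θ) h hroot
      (val_six h2w h3w) (val_le a w) hb1 hϖ hD' hns hl (by rw [e3]; exact h0)
    rw [e3, map_intCast (algebraMap M Ω)] at h2
    refine ⟨fun h3 => h2.1 h3 ?_, h2.2⟩
    exact odd_top' hEXQ htop hc hF.sq (hS Q hQS).1.2 (fun w hw => (hsp Q hQS w hw).1)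
      (hF.rb Q hQS) (fam_ns hS hF hQS) 𝔓 h𝔓 h3
  refine ⟨fun 𝔓 h1 h2 => ?_, fun Q hQ 𝔓 h1 h2 => (key Q hQ 𝔓 h1).1 h2,
    fun Q hQ 𝔓 h1 h2 => (key Q hQ 𝔓 h1).2 h2⟩
  obtain ⟨w, hw, hO⟩ := hLIE M Ω (𝓞 M) (𝓞 Ω) 𝔓
  have hnT : ∀ P ∈ T', ¬ Ov P w := fun P hP h => h1 P hP ((hO P).1 h)
  obtain ⟨P₀, hP₀, hP₀w⟩ := exists_below w
  have hP₀T : P₀ ∉ T' := fun h => hnT P₀ h hP₀w
  have hv := val_rat hP₀.2 hP₀w (hur P₀ hP₀ hP₀T w hP₀w)
  have hD : w.valuation M (((d * ∏ Q ∈ J, Q : ℤ)) : M) = 1 := by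
    refine val_eq_of _ w fun h => ?_
    rcases ov_mul h with h | h
    · obtain ⟨P, hP, hPd, hP'⟩ := ov_pr_dvd hd0 h
      exact hnT P (hdT P hP hPd) hP'
    obtain ⟨Q, hQ, h'⟩ := ov_prod h
    exact h2 Q hQ ((hO Q).1 h')
  have hdisc : WithZero.exp (-1 : ℤ) ≤ w.valuation M (4 * (a : M) ^ 3 +
      27 * (b : M) ^ 2) := by
    have e : 4 * (a : M) ^ 3 + 27 * (b : M) ^ 2 =
        algebraMap ℚ M ((dsc a b : ℤ) : ℚ) := by
      rw [map_intCast]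
      simp [dsc]
    rw [e, hv]
    exact val_sqfree hF.sq _
  have e3 : algebraMap M Ω (((d * ∏ P ∈ J, P : ℤ)) : M) = (((d * ∏ P ∈ J, P : ℤ)) : Ω) :=
    map_intCast _ _
  have hl := hloc w (hnT 2 h2T)
  have hl' : PLoc (w.adicCompletion M) ((a : M) * (((d * ∏ Q ∈ J, Q : ℤ)) : M) ^ 2)
      ((b : M) * (((d * ∏ Q ∈ J, Q : ℤ)) : M) ^ 3) h := by
    have e1 : (((a * (d * ∏ Q ∈ J, Q) ^ 2 : ℤ)) : M) = (a : M) * (((d * ∏ Q ∈ J, Q : ℤ)) : M) ^ 2 := by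
      simp only [Int.cast_mul, Int.cast_pow]
    have e2 : (((b * (d * ∏ Q ∈ J, Q) ^ 3 : ℤ)) : M) = (b : M) * (((d * ∏ Q ∈ J, Q : ℤ)) : M) ^ 3 := by
      simp only [Int.cast_mul, Int.cast_pow]
    rw [← e1, ← e2]
    exact hl
  have h3 := hLOC1M M Ω (𝓞 M) (𝓞 Ω) w 𝔓 hw (a : M) (b : M)
    (((d * ∏ P ∈ J, P : ℤ)) : M) (algebraMap L Ω θ) h hroot
    (val_six (hnT 2 h2T) (hnT 3 h3T)) (val_le a w) (val_le b w) hD hdisc hl'
    (by rw [e3]; exact h0)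
  rw [e3] at h3
  exact h3


end top

end Pool.Agent.K6.H88.TC
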